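import Pool.Agent.BURR.Slen

/-! module Cyc (4.4 (iv), (v)) -/

namespace Pool.Agent.BURR

open Pool.Agent.BURN

variable [RP]

theorem isMaxCyc_iff {G X : Type} [Group G] [MulAction G X] {d : X → X → ℕ} {c : G} :
    W97.IsMaxCyc' d c ↔ IsMaxCyc d c :=
  ⟨fun h => ⟨h.1, fun k ⟨m, h1, h2⟩ => h.2 k m h1 h2⟩,
    fun h => ⟨h.1, fun k m h1 h2 => h.2 k ⟨m, h1, h2⟩⟩⟩

theorem Cyc_proof (hI : Stmt_Iso1) : Stmt_Cyc := by
  intro G X _ _ d N H g hg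
  haveI := H.nonempty
  obtain ⟨c, hc, hE⟩ := H.gw.CYC hI hg
  exact ⟨c, isMaxCyc_iff.1 hc, hE⟩

end Pool.Agent.BURR
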