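import Pool.Agent.BURR.Kit38

/-! 6.1: non-trivial elements fixing a base point rotate by a bounded product. -/

namespace Pool.Agent.BURR.Fix38

open Pool.Agent.BURN

variable [RP]

open Pool.Agent.BURR.Kit38

theorem two_pow_M1 : 2 ^ (4 * dd + 2) + dd + 2 ≤ 4 * M1 := by
  rw [M1_eq, pow_add]
  omega

theorem bet1_le : bet1 del1 (2 * f3) ≤ aa0 del1 (2 * f3 + 1) (2 * f3) := aa0_ge.1

/-- a non-lox element moving P little and y0 by at most l is trivial when d P y0 is large -/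
theorem near_fix (S : KSys) (hCo : Stmt_Comm) (hSl : Stmt_Slen) (g : S.G) (hg : g ≠ 1)
    (hnl : ¬ Lox S.d g) (P y0 : S.X) (l : ℕ) (hP : S.d P (g • P) ≤ l) (hy : S.d y0 (g • y0) ≤ l) :
    S.d P y0 < A0 + 4 * l + 2 * dd + 2 := by
  by_contra hcon
  push Not at hcon
  have hdg := S.good.dg
  obtain ⟨γ, hγ⟩ := exists_geod hdg P y0
  have c1 := (hCo S.G S.X S.d dd l P y0 γ g g hdg S.good.hyp S.good.iso hγ hP hy hP hy
    (2 * l + dd + 1) (by omega) (by omega)).2.2 hnl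
  have c2 := (hCo S.G S.X S.d dd l P y0 γ g g hdg S.good.hyp S.good.iso hγ hP hy hP hy
    (2 * l + dd + 1 + A0) (by omega) (by omega)).2.2 hnl
  have e : S.d (γ (2 * l + dd + 1)) (γ (2 * l + dd + 1 + A0)) = A0 := by
    rw [hγ.2.2 _ _ (by omega) (by omega)]; omega
  obtain ⟨c, hc, hcg⟩ := S.good.acyl _ _ (le_of_eq e.symm)
  have hz := hcg g (by omega) (by omega)
  rcases hc with hc | hc
  · rw [hc] at hz
    simp at hz
    exact hg hz
  · obtain ⟨j, hj⟩ := Subgroup.mem_zpowers_iff.1 hz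
    have hj0 : j ≠ 0 := by
      intro h0
      rw [h0, zpow_zero] at hj
      exact hg hj.symm
    have := ((hSl S.G S.X S.d hdg S.good.iso).2.2.2.2.2.1 c j hj0).2 hc
    rw [hj] at this
    exact hnl this

theorem not_lox_of_fix (S : KSys) (g : S.G) (P : S.X) (hP : g • P = P) : ¬ Lox S.d g := by
  intro h
  obtain ⟨m, hm⟩ := h P 0
  have : g ^ m • P = P := by
    induction m with
    | zero => simp
    | succ n ih =>
      by_cases hn : 0 < S.d P (g ^ n • P)
      · rw [pow_succ, mul_smul, hP]; exact ih hn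
      · have h0 : S.d P (g ^ n • P) = 0 := by omega
        have := (S.good.dg.eq_zero _ _).1 h0
        rw [pow_succ, mul_smul, hP]; exact this.symm
  rw [this, (S.good.dg.eq_zero _ _).2 rfl] at hm
  omega

theorem Fix38_proof (hG : Stmt_GamDG) (hGL : Stmt_GamLen) (hC : Stmt_KCD) (hR : Stmt_KRF)
    (hL : Stmt_LL) (hS : Stmt_KStab) (hCo : Stmt_Comm) (hSl : Stmt_Slen) : Stmt_Fix := by
  intro S g P z hg hP
  by_contra hcon
  push Not at hcon
  obtain ⟨rf, hdb, hib, hhb, -, -, hlift⟩ := hR S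
  have hdg := isDG S hG hC
  have hiso := isIso S hR
  have hnl := not_lox_of_fix S g P hP
  have hfix : g • S.bs P = S.bs P := by rw [smul_bs, hP]
  have hfixb : S.π g • S.q (S.bs P) = S.q (S.bs P) := by rw [q_smul, hfix]
  have hM1 := two_pow_M1
  have hdd := dd_ge
  have hrho := rho_eq
  have hN0 := N0_eq
  have hbet := bet1_le
  obtain ⟨T0, hT0⟩ : ∃ T, T = 2 ^ (4 * dd + 2) + dd + 2 := ⟨_, rfl⟩
  have hgpl := gp_le_left hdb z (S.π g • z) (S.q (S.bs P))
  have hsymz := hdb.symm z (S.q (S.bs P))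
  obtain ⟨gb, hgb⟩ := exists_geod hdb (S.q (S.bs P)) z
  obtain ⟨w, γ, hw1, hw2, hγ, hγq⟩ := hlift (S.bs P) z gb hgb
  have hTn : T0 ≤ S.dg (S.bs P) w := by omega
  have hsub := sub_geod hγ hTn
  have et : S.dg (S.bs P) (γ T0) = T0 := hγ.dist_left hTn
  have hdisp : ∀ i ≤ S.dg (S.bs P) (γ T0), S.db (S.q (γ i)) (S.π g • S.q (γ i)) ≤ 2 * dd := by
    intro i hi
    rw [et] at hi
    rw [hγq i (by omega)]
    have hi2 : i ≤ S.db (S.q (S.bs P)) z := by omega
    have b1 : Btw S.db (S.q (S.bs P)) (gb i) z := hgb.btw' hi2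
    have b2 : Btw S.db (S.q (S.bs P)) (S.π g • gb i) (S.π g • z) := by
      have : Btw S.db (S.π g • S.q (S.bs P)) (S.π g • gb i) (S.π g • z) := by
        unfold Pool.Agent.BURN.Btw at b1 ⊢
        rw [hib, hib, hib]; exact b1
      rwa [hfixb] at this
    have d1 : S.db (S.q (S.bs P)) (gb i) = i := hgb.dist_left hi2
    have d2 : S.db (S.q (S.bs P)) (S.π g • gb i) = i := by
      have := hib (S.π g) (S.q (S.bs P)) (gb i)
      rw [hfixb] at this
      rw [this, d1]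
    exact fellow hdb hhb b1 b2 (by rw [d1, d2]) (by rw [d1]; omega)
  have hx : S.dg (S.bs P) (g • S.bs P) ≤ 2 * dd := by
    rw [hfix, (hdg.eq_zero _ _).2 rfl]; omega
  rcases dich S hG hC hR hL hS hsub (2 * dd) dd (by omega) (by omega) (by omega)
    (by show (0:ℕ) ≤ dd; omega) g hx hdisp with ⟨i, hi⟩ | hlow
  · exact hnl ((hS S).2.2.2.2.1 i g hi hg)
  · obtain ⟨hht, hdl⟩ := hlow T0 (by omega)
    obtain ⟨y0, hy0⟩ := foot S hG hC (γ T0) (by omega)
    have hm : S.dg (S.bs y0) (g • S.bs y0) ≤ 4 * dd := by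
      have t1 := hdg.tri (S.bs y0) (γ T0) (g • S.bs y0)
      have t2 := hdg.tri (γ T0) (g • γ T0) (g • S.bs y0)
      have t3 := hiso g (γ T0) (S.bs y0)
      have t4 := hdg.symm (γ T0) (S.bs y0)
      omega
    rw [smul_bs] at hm
    have hlen := (hGL S.X S.I S.D S.Y rho (hC S).1).2 y0 (g • y0)
    have hm' : dGam S.D S.Y rho (vb S.Y rho y0) (vb S.Y rho (g • y0)) ≤ 4 * dd := hm
    have hD : S.D y0 (g • y0) ≤ 2 ^ (4 * dd) :=
      (hlen (by omega)).trans (Nat.pow_le_pow_right (by norm_num) hm')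
    have hd : S.d y0 (g • y0) ≤ Lam * 2 ^ (4 * dd) :=
      (le_Dsc S y0 (g • y0)).trans (Nat.mul_le_mul_left _ hD)
    have hnear := near_fix S hCo hSl g hg hnl P y0 (Lam * 2 ^ (4 * dd))
      (by rw [hP, (S.good.dg.eq_zero _ _).2 rfl]; omega) hd
    have hDP : S.D P y0 ≤ 1 + 2 ^ (4 * dd + 2) := by
      apply Dsc_le
      have hLam := Lam_eq
      have : Lam * (1 + 2 ^ (4 * dd + 2)) = Lam + 4 * (Lam * 2 ^ (4 * dd)) := by
        rw [pow_add]; ring
      omega
    have h5 := (hG S.X S.I S.D S.Y rho (hC S).1).2.2.2.2.1 P y0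
    have h6 : S.dg (S.bs P) (S.bs y0) ≤ 1 + 2 ^ (4 * dd + 2) := le_trans h5 hDP
    have t5 := hdg.tri (S.bs P) (S.bs y0) (γ T0)
    have t6 := hdg.symm (S.bs y0) (γ T0)
    omega

end Pool.Agent.BURR.Fix38
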