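import Pool.Agent.BURR.Const

/-! Section 4 of the blueprint: the step theorem. Definitions and exact statements.
All constants (dd, M2, Om, s2, s3, M1, N0, rho, A1, A0, Lam, Rq, nq) are in Const.lean;
delta = dd, L = 100 * dd, LS = 20 * dd. -/

namespace Pool.Agent.BURR

open Pool.Agent.BURN

variable [RP]

/-- points of minimal displacement -/
def MinSet {G X : Type} [Group G] [MulAction G X] (d : X → X → ℕ) (c : G) : Set X :=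
  {x | ∀ y, d x (c • x) ≤ d y (c • y)}

/-- c is loxodromic and generates its elementary group -/
def IsMaxCyc {G X : Type} [Group G] [MulAction G X] (d : X → X → ℕ) (c : G) : Prop :=
  Lox d c ∧ ∀ h : G, (∃ m : ℕ, 1 ≤ m ∧ h * c ^ m * h⁻¹ = c ^ m) → h ∈ Subgroup.zpowers c

/-- the hypotheses on a stage (4.1) -/
structure Good {G X : Type} [Group G] [MulAction G X] (d : X → X → ℕ) (N : ℕ) : Prop where
  dg : IsDG d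
  hyp : Hyp d dd
  iso : IsIso G d
  odd : Odd N
  nonempty : Nonempty X
  acyl : ∀ x y, A0 ≤ d x y → ∃ c : G, (c = 1 ∨ Lox d c) ∧
    ∀ g : G, d x (g • x) ≤ 100 * dd → d y (g • y) ≤ 100 * dd → g ∈ Subgroup.zpowers c
  tors : ∀ g : G, ¬ Lox d g → g ^ N = 1
  stab : ∀ g : G, Lox d g → ∀ (x : X) (m : ℕ), m ≤ Rq * d x (g ^ m • x)
  near : ∀ c g : G, IsMaxCyc d c → g ∈ Subgroup.zpowers c → g ≠ 1 → ∀ x, d x (g • x) ≤ 100 * dd →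
    ∃ y ∈ hull d (MinSet d c), d x y ≤ A1

/-! ### 4A -/

/-- translation of u along γ at time t -/
def Tr {G X : Type} [Group G] [MulAction G X] (d : X → X → ℕ) (u : G) (γ : ℕ → X) (t : ℕ) : ℤ :=
  (d (γ 0) (u • γ t) : ℤ) - t

/-- 4.2 MID (module Mid; only hyperbolicity). The point γ(t + T) is γ (d x (u γ(t))). -/
def Stmt_Mid : Prop := ∀ (G X : Type) [Group G] [MulAction G X] (d : X → X → ℕ) (δ l : ℕ)
  (x y : X) (γ : ℕ → X) (u : G), IsDG d → Hyp d δ → IsIso G d → IsGeod d x y γ →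
  d x (u • x) ≤ l → d y (u • y) ≤ l →
  (∀ p, Btw d x p y → d p (u • p) ≤ l + δ) ∧
  (∀ t, l + δ + 1 ≤ t → t + l + δ + 1 ≤ d x y →
    |Tr d u γ t| ≤ l ∧ d x (u • γ t) ≤ d x y ∧
    d (u • γ t) (γ (d x (u • γ t))) ≤ 3 * δ ∧
    (d (γ t) (u • γ t) : ℤ) ≤ |Tr d u γ t| + 3 * δ) ∧
  (∀ s t, l + δ + 1 ≤ s → s ≤ t → t + l + δ + 1 ≤ d x y →
    Tr d u γ t ≤ Tr d u γ s ∧ Tr d u γ s ≤ Tr d u γ t + δ)

/-- 4.2.1, 4.2.2 (module Comm) -/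
def Stmt_Comm : Prop := ∀ (G X : Type) [Group G] [MulAction G X] (d : X → X → ℕ) (δ l : ℕ)
  (x y : X) (γ : ℕ → X) (u v : G), IsDG d → Hyp d δ → IsIso G d → IsGeod d x y γ →
  d x (u • x) ≤ l → d y (u • y) ≤ l → d x (v • x) ≤ l → d y (v • y) ≤ l →
  ∀ t, 2 * l + δ + 1 ≤ t → t + 2 * l + δ + 1 ≤ d x y →
  (∃ m : ℕ, (m : ℤ) = t + Tr d u γ t + Tr d v γ t ∧ m ≤ d x y ∧
    d ((u * v) • γ t) (γ m) ≤ 7 * δ) ∧
  d (γ t) ((u⁻¹ * v⁻¹ * u * v) • γ t) ≤ 14 * δ ∧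
  (¬ Lox d u → d (γ t) (u • γ t) ≤ 14 * δ)

/-- stable length -/
noncomputable def slen {G X : Type} [Group G] [MulAction G X] (d : X → X → ℕ) (x : X) (g : G) :
    ℝ := Filter.liminf (fun j : ℕ => (d x (g ^ j • x) : ℝ) / j) Filter.atTop

/-- 4.3 (module Slen) -/
def Stmt_Slen : Prop := ∀ (G X : Type) [Group G] [MulAction G X] (d : X → X → ℕ), IsDG d →
  IsIso G d →
  (∀ (x : X) (g : G), Filter.Tendsto (fun j : ℕ => (d x (g ^ j • x) : ℝ) / j) Filter.atTop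
    (nhds (slen d x g))) ∧
  (∀ (x y : X) (g : G), slen d x g = slen d y g) ∧
  (∀ (x : X) (g h : G), slen d x (h * g * h⁻¹) = slen d x g) ∧
  (∀ (x : X) (g : G) (k : ℤ), slen d x (g ^ k) = |(k : ℝ)| * slen d x g) ∧
  (∀ (x : X) (g : G), 0 ≤ slen d x g ∧ slen d x g ≤ d x (g • x)) ∧
  (∀ (g : G) (k : ℤ), k ≠ 0 → (Lox d (g ^ k) ↔ Lox d g)) ∧
  (∀ (g h : G), Lox d (h * g * h⁻¹) ↔ Lox d g) ∧
  (∀ N, Good (G := G) d N → ∀ (x : X) (g : G),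
    (Lox d g → 1 / (Rq : ℝ) ≤ slen d x g) ∧ (¬ Lox d g → slen d x g = 0))

/-- 4.4 (i)-(iii) (module CycAb): E(g) has no non-lox elements except 1 and is abelian -/
def Stmt_CycAb : Prop := ∀ (G X : Type) [Group G] [MulAction G X] (d : X → X → ℕ) (N : ℕ),
  Good (G := G) d N → ∀ g : G, Lox d g →
  (∀ h : G, (∃ m : ℕ, 1 ≤ m ∧ h * g ^ m * h⁻¹ = g ^ m) → ¬ Lox d h → h = 1) ∧
  (∀ h h' : G, (∃ m : ℕ, 1 ≤ m ∧ h * g ^ m * h⁻¹ = g ^ m) →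
    (∃ m : ℕ, 1 ≤ m ∧ h' * g ^ m * h'⁻¹ = g ^ m) → h * h' = h' * h)

/-- 4.4 (iv),(v) (module Cyc) -/
def Stmt_Cyc : Prop := ∀ (G X : Type) [Group G] [MulAction G X] (d : X → X → ℕ) (N : ℕ),
  Good (G := G) d N → ∀ g : G, Lox d g →
  ∃ c : G, IsMaxCyc d c ∧
    ∀ h : G, (∃ m : ℕ, 1 ≤ m ∧ h * g ^ m * h⁻¹ = g ^ m) ↔ h ∈ Subgroup.zpowers c

/-- 4.5 (module MaxCyc) -/
def Stmt_MaxCyc : Prop := ∀ (G X : Type) [Group G] [MulAction G X] (d : X → X → ℕ) (N : ℕ),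
  Good (G := G) d N →
  (∀ (c h : G) (i j : ℤ), IsMaxCyc d c → i ≠ 0 → h * c ^ i * h⁻¹ = c ^ j →
    h ∈ Subgroup.zpowers c) ∧
  (∀ (c c' x : G), IsMaxCyc d c → IsMaxCyc d c' → x ≠ 1 → x ∈ Subgroup.zpowers c →
    x ∈ Subgroup.zpowers c' → Subgroup.zpowers c = Subgroup.zpowers c') ∧
  (∀ (c w x : G), IsMaxCyc d w → x ≠ 1 → x ∈ Subgroup.zpowers w → x ∈ Subgroup.zpowers c →
    c ∈ Subgroup.zpowers w) ∧
  (∀ c h : G, IsMaxCyc d c → IsMaxCyc d (h * c * h⁻¹)) ∧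
  (∀ c x : G, IsMaxCyc d c → x ∈ Subgroup.zpowers c → x ≠ 1 → Lox d x)

/-- 4.6 (module SC) -/
def Stmt_SC : Prop := ∀ (G X : Type) [Group G] [MulAction G X] (d : X → X → ℕ) (N : ℕ),
  Good (G := G) d N → ∀ (x y : X) (l : ℕ), A0 + 8 * l + 20 * dd ≤ d x y →
  ∃ w : G, (w = 1 ∨ IsMaxCyc d w) ∧
    ∀ g : G, d x (g • x) ≤ l → d y (g • y) ≤ l → g ∈ Subgroup.zpowers w

/-- 4.7 (module NA) -/
def Stmt_NA : Prop := ∀ (G X : Type) [Group G] [MulAction G X] (d : X → X → ℕ) (N : ℕ),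
  Good (G := G) d N → ∀ (w e : G) (z : X) (l : ℕ), IsMaxCyc d w → e ∈ Subgroup.zpowers w →
  e ≠ 1 → d z (e • z) ≤ l → ∃ y ∈ hull d (MinSet d w), d z y ≤ l + A1 + 40 * dd

/-! ### 4B: the killing data -/

/-- the quasi-line of a cyclic subgroup -/
def YE {G X I : Type} [Group G] [MulAction G X] (d : X → X → ℕ) (E : I → Subgroup G) (i : I) :
    Set X := hull d {x | ∃ w : G, E i = Subgroup.zpowers w ∧ x ∈ MinSet d w}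

/-- killed groups -/
def Kil {G X : Type} [Group G] [MulAction G X] (d : X → X → ℕ) (E : Subgroup G) : Prop :=
  ∃ w : G, E = Subgroup.zpowers w ∧ IsMaxCyc d w ∧ ∃ x, d x (w • x) ≤ 20 * dd

/-- the subgroup of n-th powers of a cyclic subgroup -/
def RotS {G : Type} [Group G] (E : Subgroup G) (n : ℕ) : Subgroup G :=
  Subgroup.closure {x | ∃ e ∈ E, x = e ^ n}

/-- a killing system: a good stage (G,X,d), the family of killed groups E i with exponents nE i,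
the cone-off with its action, the quotient group Gb (π : G → Gb) and the quotient space Xb -/
structure KSys where
  (G X I Gb Xb : Type)
  [gG : Group G]
  [gGb : Group Gb]
  [aX : MulAction G X]
  [aI : MulAction G I]
  [aXb : MulAction Gb Xb]
  d : X → X → ℕ
  N : ℕ
  E : I → Subgroup G
  nE : I → ℕ
  [aGam : MulAction G (Gam (YE d E) rho)]
  R : Gam (YE d E) rho → Subgroup G
  π : G →* Gb
  q : Gam (YE d E) rho → Xb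
  db : Xb → Xb → ℕ
  pr : I → X → X
  good : Good (G := G) d N
  kil : ∀ i, Kil d (E i)
  all : ∀ E' : Subgroup G, Kil d E' → ∃ i, E i = E'
  inj : ∀ i j, E i = E j → i = j
  conj : ∀ (g : G) (i : I) (x : G), x ∈ E (g • i) ↔ g⁻¹ * x * g ∈ E i
  nconj : ∀ (g : G) (i : I), nE (g • i) = nE i
  nge : ∀ i, nq ≤ nE i
  ndvd : ∀ i, nE i ∣ N
  act : ∀ (g : G) (u : Gam (YE d E) rho), (g • u).1 = g • u.1
  rot : ∀ i, R (va (YE d E) rho i) = RotS (E i) (nE i)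
  psurj : Function.Surjective π
  pker : ∀ g, π g = 1 ↔ g ∈ KK (Set.range (va (YE d E) rho)) R
  qsurj : Function.Surjective q
  qeq : ∀ u w, q u = q w ↔ ∃ k ∈ KK (Set.range (va (YE d E) rho)) R, k • u = w
  qdist : ∀ u w, db (q u) (q w) =
    dK (dGam (Dsc Lam d) (YE d E) rho) (KK (Set.range (va (YE d E) rho)) R) u w
  qsmul : ∀ g u, π g • q u = q (g • u)
  prn : IsPr (Dsc Lam d) (YE d E) pr

attribute [instance] KSys.gG KSys.gGb KSys.aX KSys.aI KSys.aXb KSys.aGam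

namespace KSys
variable (S : KSys)
/-- rescaled metric -/
noncomputable def D : S.X → S.X → ℕ := Dsc Lam S.d
/-- quasi-lines -/
def Y : S.I → Set S.X := YE S.d S.E
/-- vertices of the cone-off -/
abbrev Gm : Type := Gam (YE S.d S.E) rho
/-- distance of the cone-off -/
noncomputable def dg : S.Gm → S.Gm → ℕ := dGam (Dsc Lam S.d) (YE S.d S.E) rho
/-- apices -/
noncomputable def ap (i : S.I) : S.Gm := va (YE S.d S.E) rho i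
/-- base vertices -/
noncomputable def bs (x : S.X) : S.Gm := vb (YE S.d S.E) rho x
/-- the kernel -/
def K : Subgroup S.G := KK (Set.range (va (YE S.d S.E) rho)) S.R
end KSys

/-- 4.8 (a),(b) (module Overlap) -/
def Stmt_Overlap : Prop := ∀ S : KSys,
  (∀ i, QC S.d (2 * dd) (S.Y i)) ∧
  (∀ i, (S.Y i).Nonempty) ∧
  (∀ i (g : S.G), g ∈ S.E i → ∀ y ∈ S.Y i, g • y ∈ S.Y i) ∧
  (∀ i (g : S.G), ∀ y ∈ S.Y i, g • y ∈ S.Y (g • i)) ∧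
  (∀ i (w : S.G), S.E i = Subgroup.zpowers w → ∀ y ∈ S.Y i, S.d y (w • y) ≤ 21 * dd) ∧
  (∀ i j s x y, i ≠ j → (∃ a ∈ S.Y i, S.d x a ≤ s) → (∃ a ∈ S.Y i, S.d y a ≤ s) →
    (∃ a ∈ S.Y j, S.d x a ≤ s) → (∃ a ∈ S.Y j, S.d y a ≤ s) →
    S.d x y < A0 + 2 * s + 2 * dd + 2)

/-- 4.8 (c) (module KCD) -/
def Stmt_KCD : Prop := ∀ S : KSys,
  CD S.D S.Y rho ∧ IsIso S.G S.D ∧
  (∀ i, ∀ r ∈ RotS (S.E i) (S.nE i), r ≠ 1 → ∀ y ∈ S.Y i, 2 ^ (rho + 7) ≤ S.D y (r • y))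

/-- 4.8 (c) (module KRF): the rotating family and the hyperbolicity of the quotient -/
def Stmt_KRF : Prop := ∀ S : KSys,
  RF S.dg (Set.range S.ap) S.R del1 (2 * f3 + 1) (2 * f3) (2 * rho + 2) ∧
  IsDG S.db ∧ IsIso S.Gb S.db ∧ Hyp S.db dd ∧
  (∀ u w, S.db (S.q u) (S.q w) ≤ S.dg u w) ∧
  (∀ u w, ∃ k ∈ S.K, S.dg u (k • w) = S.db (S.q u) (S.q w)) ∧
  (∀ u wb g, IsGeod S.db (S.q u) wb g → ∃ (w : S.Gm) (g' : ℕ → S.Gm),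
    S.dg u w = S.db (S.q u) wb ∧ S.q w = wb ∧
    IsGeod S.dg u w g' ∧ ∀ i ≤ S.dg u w, S.q (g' i) = g i)

/-- 4.8 (d),(e) (module KStab) -/
def Stmt_KStab : Prop := ∀ S : KSys,
  (∀ i (g : S.G), g • S.ap i = S.ap i ↔ g ∈ S.E i) ∧
  (∀ (u : S.Gm) (g : S.G), S.dg u (g • u) < 2 * ht rho u.1 → ∃ i, Hor i u.1 ∧ g ∈ S.E i) ∧
  (∀ i j (g : S.G), i ≠ j → g ∈ S.E i → g ∈ S.E j → g = 1) ∧
  (∀ i (g : S.G), g ∈ S.E i → (g ∈ S.K ↔ g ∈ RotS (S.E i) (S.nE i))) ∧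
  (∀ i (g : S.G), g ∈ S.E i → g ≠ 1 → Lox S.d g) ∧
  (∀ i (g : S.G), g ∈ S.E i → S.π g ^ S.nE i = 1) ∧
  (∀ i (g : S.G), g ∈ S.K → g • S.ap i = S.ap i → g ∈ RotS (S.E i) (S.nE i)) ∧
  (∀ i j, S.q (S.ap i) ≠ S.q (S.ap j) → 2 * rho + 2 ≤ S.db (S.q (S.ap i)) (S.q (S.ap j))) ∧
  (∀ x : S.X, ∀ i, rho + 1 ≤ S.dg (S.bs x) (S.ap i))

/-- 4.9 (module TopLen) -/
def Stmt_TopLen : Prop := ∀ (V I : Type) (D : V → V → ℕ) (Y : I → Set V) (ρ : ℕ), CD D Y ρ →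
  ∀ (x y : Gam Y ρ) (g : ℕ → Gam Y ρ) (H : ℕ), IsGeod (dGam D Y ρ) x y g → H < ρ →
  (∀ j ≤ dGam D Y ρ x y, ht ρ (g j).1 ≤ H) → 2 * H + 6 ≤ dGam D Y ρ x y →
  (∃ j ≤ 2 * H + 6, ∃ v, (g j).1 = .b v) ∧
  (∃ j ≤ 2 * H + 6, ∃ v, (g (dGam D Y ρ x y - j)).1 = .b v)

/-- 4.10 (module Rot) -/
def Stmt_Rot : Prop := ∀ (S : KSys) (i : S.I) (e : S.G) (z : S.Xb), e ∈ S.E i →
  e ∉ RotS (S.E i) (S.nE i) →
  gp S.db z (S.π e • z) (S.q (S.ap i)) ≤ 2 * (rho + 1 + M1)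

/-- 4.17 (LR) (module LargeRot) -/
def Stmt_LargeRot : Prop := ∀ (S : KSys) (i : S.I) (r : S.G) (z : S.Xb), r ∈ S.E i →
  (∀ g : S.G, g * r⁻¹ ∈ RotS (S.E i) (S.nE i) → ∀ y ∈ S.Y i, 2 ^ (rho + 5) ≤ S.D y (g • y)) →
  gp S.db z (S.π r • z) (S.q (S.ap i)) ≤ 2 * N0

/-- 4.11 (a) (module LB1): shadows of the axis of a non-killed element are bounded -/
def Stmt_LB1 : Prop := ∀ (S : KSys) (g : S.G), Lox S.d g → (∀ i, g ∉ S.E i) →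
  ∀ z, S.d z (g • z) ≤ Lam * M2 → ∀ o ∈ MinSet S.d g,
  17 * dd + 1 ≤ S.d o (g • o) ∧ S.d o (g • o) ≤ Lam * M2 ∧
  ∀ (k : ℕ) (i : S.I), S.D (S.pr i o) (S.pr i (g ^ k • o)) ≤ Om

/-- 4.11 (b),(c),(d) (module LB2) -/
def Stmt_LB2 : Prop := ∀ (S : KSys) (g : S.G), Lox S.d g → (∀ i, g ∉ S.E i) →
  ∀ z, S.d z (g • z) ≤ Lam * M2 →
  (∀ o ∈ MinSet S.d g, ∀ k : ℕ,
    S.db (S.q (S.bs o)) (S.q (S.bs (g ^ k • o))) = S.dg (S.bs o) (S.bs (g ^ k • o)) ∧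
    gp S.db (S.q (S.bs ((g ^ k)⁻¹ • o))) (S.q (S.bs (g ^ k • o))) (S.q (S.bs o)) ≤
      2 * (Om + 48 + f3)) ∧
  Lox S.db (S.π g) ∧ ∀ (x : S.Xb) (m : ℕ), m ≤ Rr * S.db x (S.π g ^ m • x)

/-- 4.12 (module Lift) -/
def Stmt_Lift : Prop := ∀ (S : KSys) (gb : S.Gb) (xb : S.Xb) (l : ℕ), l ≤ 200 * dd →
  S.db xb (gb • xb) ≤ l → ∃ (g : S.G) (x : S.Gm), S.π g = gb ∧ S.q x = xb ∧
  S.dg x (g • x) ≤ l ∧ ((∃ i, g ∈ S.E i) ∨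
   (2 * ht rho x.1 ≤ l ∧ ∃ x0 : S.X, S.dg x (S.bs x0) = ht rho x.1 ∧
     S.d x0 (g • x0) ≤ Lam * 2 ^ (2 * l)))

/-- 4.13 (module H34) -/
def Stmt_H34 : Prop := ∀ (S : KSys),
  (∀ gb : S.Gb, ¬ Lox S.db gb → (∃ g : S.G, S.π g = gb ∧ ((¬ Lox S.d g) ∨ ∃ i, g ∈ S.E i))) ∧
  (∀ gb : S.Gb, ¬ Lox S.db gb → gb ^ S.N = 1) ∧
  (∀ gb : S.Gb, Lox S.db gb → ∀ (x : S.Xb) (m : ℕ), m ≤ Rr * S.db x (gb ^ m • x))

/-- 4.14 (module H2) -/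
def Stmt_H2 : Prop := ∀ (S : KSys) (x y : S.Xb), A0 ≤ S.db x y →
  ∃ c : S.Gb, (c = 1 ∨ Lox S.db c) ∧ ∀ g : S.Gb, S.db x (g • x) ≤ 100 * dd →
    S.db y (g • y) ≤ 100 * dd → g ∈ Subgroup.zpowers c

/-- 4.15 (module H6) -/
def Stmt_H6 : Prop := ∀ (S : KSys) (c g : S.Gb), IsMaxCyc S.db c → g ∈ Subgroup.zpowers c →
  g ≠ 1 → ∀ x, S.db x (g • x) ≤ 100 * dd → ∃ y ∈ hull S.db (MinSet S.db c), S.db x y ≤ A1

/-- 4.16 (S3) (module S3) -/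
def Stmt_S3 : Prop := ∀ (S : KSys) (g g' h : S.G), ¬ Lox S.d g → ¬ Lox S.d g' → g ≠ 1 →
  S.π (h * g * h⁻¹) = S.π g' → ∃ h', S.π h' = S.π h ∧ h' * g * h'⁻¹ = g'

/-- 4.16 (S5) (module S5) -/
def Stmt_S5 : Prop := ∀ (S : KSys) (i j : S.I) (e e' h : S.G), e ∈ S.E i →
  e ∉ RotS (S.E i) (S.nE i) → e' ∈ S.E j → S.π (h * e * h⁻¹) = S.π e' →
  ∃ h', S.π h' = S.π h ∧ h' • i = j

/-- 4.16 (S5') (module S5b) -/
def Stmt_S5b : Prop := ∀ (S : KSys) (i : S.I) (g e h : S.G), ¬ Lox S.d g → g ≠ 1 → e ∈ S.E i →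
  e ∉ RotS (S.E i) (S.nE i) → S.π (h * g * h⁻¹) ≠ S.π e

/-- non-elementary -/
def NE {G X : Type} [Group G] [MulAction G X] (d : X → X → ℕ) : Prop :=
  ∃ g h : G, Lox d g ∧ ∀ m : ℕ, 1 ≤ m → h * g ^ m * h⁻¹ ≠ g ^ m

/-- 4.17 (S6) (module S6) -/
def Stmt_S6 : Prop := ∀ (S : KSys), NE (G := S.G) S.d → NE (G := S.Gb) S.db

/-- 6.1 (module Fix): old elliptic elements with a fixed point rotate by large angles -/
def Stmt_Fix : Prop := ∀ (S : KSys) (g : S.G) (P : S.X) (z : S.Xb), g ≠ 1 → g • P = P →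
  gp S.db z (S.π g • z) (S.q (S.bs P)) ≤ 8 * M1

/-- 6.3 (module MStep) -/
def Stmt_MStep : Prop := ∀ (S : KSys) (A : Subgroup S.G) (P : S.X), (∀ a ∈ A, a • P = P) →
  (∀ c1 ∈ A, ∀ c2 ∈ A, ∀ c3 ∈ A, c1 ≠ 1 → c2 ≠ 1 → c3 ≠ 1 → ∀ y h : S.G,
    c1 * (y⁻¹ * c2 * y) = h * c3 * h⁻¹ → y ∈ A) →
  (∀ c1 ∈ A, ∀ c2 ∈ A, ∀ c3 ∈ A, c1 ≠ 1 → c2 ≠ 1 → c3 ≠ 1 → ∀ y h : S.Gb,
    S.π c1 * (y⁻¹ * S.π c2 * y) = h * S.π c3 * h⁻¹ → y ∈ A.map S.π)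

/-- all properties of the step from (G,X,d) to (G',X',d') -/
structure StepRel {G X G' X' : Type} [Group G] [MulAction G X] [Group G'] [MulAction G' X']
    (d : X → X → ℕ) (d' : X' → X' → ℕ) (π : G →* G') (ι : X → X') (nE : Subgroup G → ℕ) :
    Prop where
  surj : Function.Surjective π
  ker : ∀ g, π g = 1 ↔ g ∈ Subgroup.closure {x | ∃ E : Subgroup G, Kil d E ∧ ∃ e ∈ E, x = e ^ nE E}
  contr : ∀ x y, d' (ι x) (ι y) ≤ Dsc Lam d x y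
  equiv : ∀ (g : G) x, ι (g • x) = π g • ι x
  /-- S2, S5: order of the images of killed elements -/
  ord : ∀ E : Subgroup G, Kil d E → ∀ e ∈ E, (π e = 1 ↔ ∃ e' ∈ E, e = e' ^ nE E)
  /-- S4 -/
  nonlox : ∀ gb : G', ¬ Lox d' gb → ∃ g : G, π g = gb ∧ (¬ Lox d g ∨ ∃ E, Kil d E ∧ g ∈ E)
  killed : ∀ E : Subgroup G, Kil d E → ∀ e ∈ E, ¬ Lox d' (π e)
  old : ∀ g : G, ¬ Lox d g → ¬ Lox d' (π g)
  /-- S3 -/
  s3 : ∀ g g' h : G, ¬ Lox d g → ¬ Lox d g' → g ≠ 1 → π (h * g * h⁻¹) = π g' →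
    ∃ h', π h' = π h ∧ h' * g * h'⁻¹ = g'
  /-- S5 -/
  s5 : ∀ (E E' : Subgroup G) (e e' h : G), Kil d E → Kil d E' → e ∈ E → e' ∈ E' → π e ≠ 1 →
    π (h * e * h⁻¹) = π e' → ∃ h', π h' = π h ∧ ∀ x, x ∈ E' ↔ h'⁻¹ * x * h' ∈ E
  /-- S5' -/
  s5' : ∀ (E : Subgroup G) (g e h : G), ¬ Lox d g → g ≠ 1 → Kil d E → e ∈ E → π e ≠ 1 →
    π (h * g * h⁻¹) ≠ π e
  ne : NE (G := G) d → NE (G := G') d'
  /-- 6.3 the (M) step (helper33) -/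
  mstep : ∀ (A : Subgroup G) (P : X), (∀ a ∈ A, a • P = P) →
    (∀ c1 ∈ A, ∀ c2 ∈ A, ∀ c3 ∈ A, c1 ≠ 1 → c2 ≠ 1 → c3 ≠ 1 → ∀ y h : G,
      c1 * (y⁻¹ * c2 * y) = h * c3 * h⁻¹ → y ∈ A) →
    (∀ c1 ∈ A, ∀ c2 ∈ A, ∀ c3 ∈ A, c1 ≠ 1 → c2 ≠ 1 → c3 ≠ 1 → ∀ y h : G',
      π c1 * (y⁻¹ * π c2 * y) = h * π c3 * h⁻¹ → y ∈ A.map π)
  /-- lox elements of moderate length which are not killed stay lox -/
  lox : ∀ g : G, Lox d g → (∀ E, Kil d E → g ∉ E) → ∀ z, d z (g • z) ≤ Lam * M2 → Lox d' (π g)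

/-- 4.16 the step theorem (module Step) -/
def Stmt_Step : Prop := ∀ (G X : Type) [Group G] [MulAction G X] (d : X → X → ℕ) (N : ℕ)
  (nE : Subgroup G → ℕ), Good (G := G) d N →
  (∀ E, Kil d E → nq ≤ nE E ∧ nE E ∣ N) →
  (∀ (E E' : Subgroup G) (g : G), Kil d E → (∀ x, x ∈ E' ↔ g⁻¹ * x * g ∈ E) → nE E' = nE E) →
  ∃ (G' X' : Type) (_ : Group G') (_ : MulAction G' X') (d' : X' → X' → ℕ) (π : G →* G')
    (ι : X → X'), Good (G := G') d' N ∧ StepRel d d' π ι nE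

end Pool.Agent.BURR
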