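import Pool.Agent.BURN.Basic
import Pool.Agent.BURR.Stmts3

/-! Section 4.14 of the blueprint: (h2) for the quotient space. -/

namespace Pool.Agent.BURR

open Pool.Agent.BURN

variable [RP]

/-- the image of an element of a killed group which moves two far points a little is trivial -/
theorem H2X.rotkill (hKRF : Stmt_KRF) (hKStab : Stmt_KStab) (hRot : Stmt_Rot) (S : KSys)
    (x y : S.Xb) (hA : A0 ≤ S.db x y) (i : S.I) (g : S.G) (hg : g ∈ S.E i)
    (hx : S.db x (S.π g • x) ≤ 100 * dd) (hy : S.db y (S.π g • y) ≤ 100 * dd) :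
    S.π g = 1 := by
  by_contra hne
  obtain ⟨-, hdb, hiso, -, -, -, -⟩ := hKRF S
  obtain ⟨hs1, -, -, hs4, -⟩ := hKStab S
  have hnk : g ∉ RotS (S.E i) (S.nE i) := by
    intro h
    exact hne ((S.pker g).2 ((hs4 i g hg).2 h))
  have hfix : S.π g • S.q (S.ap i) = S.q (S.ap i) := by
    rw [S.qsmul, (hs1 i g).2 hg]
  have key : ∀ z, S.db z (S.π g • z) ≤ 100 * dd →
      2 * S.db z (S.q (S.ap i)) ≤ 2 * (rho + 1 + M1) + 100 * dd := by
    intro z hz
    have h1 := hRot S i g z hg hnk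
    have h2 := gp_add hdb z (S.π g • z) (S.q (S.ap i))
    have h3 := hiso (S.π g) z (S.q (S.ap i))
    rw [hfix] at h3
    omega
  have h1 := key x hx
  have h2 := key y hy
  have h3 := hdb.tri x (S.q (S.ap i)) y
  rw [hdb.symm (S.q (S.ap i)) y] at h3
  have h4 := A0_eq
  generalize 2 ^ (101 * dd + 3) = P at h4
  omega

theorem H2X.lift (hKRF : Stmt_KRF) (S : KSys) (u : S.Gm) (g : S.Gb) :
    ∃ g1 : S.G, S.π g1 = g ∧ S.dg u (g1 • u) = S.db (S.q u) (g • S.q u) := by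
  obtain ⟨-, -, -, -, -, hlift, -⟩ := hKRF S
  obtain ⟨g0, hg0⟩ := S.psurj g
  obtain ⟨k, hk, he⟩ := hlift u (g0 • u)
  refine ⟨k * g0, ?_, ?_⟩
  · rw [map_mul, (S.pker k).2 hk, one_mul, hg0]
  · rw [mul_smul, he, ← hg0, S.qsmul]

theorem H2X.bs_smul (S : KSys) (g : S.G) (x : S.X) : g • S.bs x = S.bs (g • x) := by
  apply Subtype.ext
  exact S.act g (S.bs x)

theorem H2X.D_le (S : KSys) (x y : S.X) (B : ℕ) (h : S.D x y ≤ B) : S.d x y ≤ Lam * B := by
  have hL := Lam_pos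
  unfold KSys.D Dsc at h
  have h1 : (S.d x y + Lam - 1) / Lam < B + 1 := by omega
  rw [Nat.div_lt_iff_lt_mul (by omega)] at h1
  have h2 : (B + 1) * Lam = Lam * B + Lam := by ring
  omega

theorem H2X.le_D (S : KSys) (x y : S.X) (B : ℕ) (h : B + 1 ≤ S.D x y) : Lam * B ≤ S.d x y := by
  have hL := Lam_pos
  unfold KSys.D Dsc at h
  rw [Nat.le_div_iff_mul_le (by omega)] at h
  have h2 : (B + 1) * Lam = Lam * B + Lam := by ring
  omega

theorem H2_proof (hKRF : Stmt_KRF) (hKStab : Stmt_KStab) (hRot : Stmt_Rot) (hLL : Stmt_LL)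
    (hTop : Stmt_TopLen) (hLen : Stmt_GamLen) (hSC : Stmt_SC) (hLB2 : Stmt_LB2)
    (hMid : Stmt_Mid) (hSlen : Stmt_Slen) (hKCD : Stmt_KCD) (hDG : Stmt_GamDG) : Stmt_H2 := by
  intro S x y hA
  obtain ⟨hRF, hdb, hiso, hhyp, hcontr, hlift, hgeo⟩ := hKRF S
  obtain ⟨hs1, hs2, -⟩ := hKStab S
  have hkill := H2X.rotkill hKRF hKStab hRot S x y hA
  obtain ⟨hCD, -, -⟩ := hKCD S
  obtain ⟨hdg, -, hht, -, hbD, -⟩ := hDG S.X S.I S.D S.Y rho hCD
  obtain ⟨-, hlen⟩ := hLen S.X S.I S.D S.Y rho hCD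
  -- geodesic and its lift
  obtain ⟨γb, hγb⟩ := exists_geod hdb x y
  obtain ⟨u, rfl⟩ := S.qsurj x
  obtain ⟨w, γ, hw1, rfl, hγ, hγq⟩ := hgeo u y γb hγb
  -- hull displacement
  have hmv : ∀ g : S.Gb, S.db (S.q u) (g • S.q u) ≤ 100 * dd →
      S.db (S.q w) (g • S.q w) ≤ 100 * dd → ∀ t ≤ S.dg u w,
      S.db (S.q (γ t)) (g • S.q (γ t)) ≤ 101 * dd := by
    intro g h1 h2 t ht
    have h3 := (hMid S.Gb S.Xb S.db dd (100 * dd) (S.q u) (S.q w) γb g hdb hhyp hiso hγb h1 h2).1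
      (γb t) (hγb.btw' (by rw [← hw1]; exact ht))
    rw [← hγq t ht] at h3
    omega
  by_cases hcase : ∃ t ≤ S.dg u w, 101 * dd < 2 * ht rho (γ t).1
  · -- case A
    obtain ⟨t, ht1, ht2⟩ := hcase
    refine ⟨1, Or.inl rfl, ?_⟩
    intro g h1 h2
    obtain ⟨g1, hg1, hg2⟩ := H2X.lift hKRF S (γ t) g
    have h3 := hmv g h1 h2 t ht1
    obtain ⟨i, -, hi⟩ := hs2 (γ t) g1 (by omega)
    have h4 : S.π g1 = 1 := hkill i g1 hi (by rw [hg1]; exact h1) (by rw [hg1]; exact h2)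
    rw [← hg1, h4]
    exact Subgroup.one_mem _
  · -- case B
    push Not at hcase
    have hrho := rho_eq
    have hN0 := N0_eq
    obtain ⟨ha1, -⟩ := aa0_ge
    have hdd := dd_ge
    have hA0 := A0_eq
    have hLam := Lam_eq
    have hpow : 2 ^ (101 * dd + 3) = 8 * 2 ^ (101 * dd) := by rw [pow_add]; ring
    rw [hpow] at hA0
    have hM2 := pow_101dd_le_M2
    generalize hPP : 2 ^ (101 * dd) = P at hA0 hM2
    -- heights
    have hfar : ∀ t ≤ S.dg u w, ∀ c ∈ Set.range S.ap, rho - 60 * dd ≤ S.dg (γ t) c := by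
      rintro t htt c ⟨i, rfl⟩
      have h1 := hht (γ t) (S.ap i)
      have h2 : ht rho (S.ap i).1 = rho + 1 := rfl
      have h3 := hcase t htt
      have h4 : dGam S.D S.Y rho (γ t) (S.ap i) = S.dg (γ t) (S.ap i) := rfl
      omega
    -- lifts
    have hL : ∀ g : S.Gb, S.db (S.q u) (g • S.q u) ≤ 100 * dd →
        S.db (S.q w) (g • S.q w) ≤ 100 * dd → ∃ g1 : S.G, S.π g1 = g ∧
        ∀ t ≤ S.dg u w, S.dg (γ t) (g1 • γ t) ≤ 101 * dd := by
      intro g h1 h2
      obtain ⟨g0, hg0⟩ := S.psurj g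
      obtain ⟨g1, hg1, hg2⟩ := (hLL S.G S.Gm S.dg (Set.range S.ap) S.R del1 (2 * f3 + 1) (2 * f3)
        (2 * rho + 2) hRF).2 u w (rho - 60 * dd) (101 * dd) γ g0 (by omega) hγ (by omega) hfar
        (by
          intro t ht
          have h3 := hmv g h1 h2 t ht
          rw [← hg0, S.qsmul, S.qdist] at h3
          exact h3)
      refine ⟨g1, ?_, hg2⟩
      have h4 := (S.pker (g1 * g0⁻¹)).2 hg1
      rw [map_mul, map_inv, mul_inv_eq_one] at h4
      rw [h4, hg0]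
    -- base vertices near the ends
    have hn : A0 ≤ S.dg u w := by rw [hw1]; exact hA
    obtain ⟨⟨j1, hj1, v1, hv1⟩, ⟨j2, hj2, v2, hv2⟩⟩ := hTop S.X S.I S.D S.Y rho hCD u w γ
      (101 * dd / 2) hγ (by omega) (fun j hj => by have := hcase j hj; omega)
      (by
        have h4 : dGam S.D S.Y rho u w = S.dg u w := rfl
        omega)
    have hn' : dGam S.D S.Y rho u w = S.dg u w := rfl
    rw [hn'] at hv2
    have e1 : γ j1 = S.bs v1 := Subtype.ext hv1
    have e2 : γ (S.dg u w - j2) = S.bs v2 := Subtype.ext hv2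
    have hdist : S.dg (S.bs v1) (S.bs v2) = S.dg u w - j2 - j1 := by
      rw [← e1, ← e2]
      exact hγ.2.2 j1 (S.dg u w - j2) (by omega) (by omega)
    have hD12 : S.dg (S.bs v1) (S.bs v2) ≤ S.D v1 v2 := hbD v1 v2
    have hd12 : Lam * (8 * P + 2) ≤ S.d v1 v2 := H2X.le_D S v1 v2 (8 * P + 2) (by omega)
    have hsc : A0 + 8 * (Lam * P) + 20 * dd ≤ S.d v1 v2 := by
      have : Lam * (8 * P + 2) = 8 * (Lam * P) + 2 * Lam := by ring
      omega
    have hmove : ∀ (g1 : S.G), (∀ t ≤ S.dg u w, S.dg (γ t) (g1 • γ t) ≤ 101 * dd) →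
        ∀ (t : ℕ) (v : S.X), t ≤ S.dg u w → γ t = S.bs v → S.d v (g1 • v) ≤ Lam * P := by
      intro g1 hg1 t v ht hv
      have h1 := hg1 t ht
      rw [hv, H2X.bs_smul] at h1
      apply H2X.D_le
      have h2 : S.D v (g1 • v) ≤ 2 ^ (S.dg (S.bs v) (S.bs (g1 • v))) :=
        hlen v (g1 • v) (by
          have h4 : dGam S.D S.Y rho (vb S.Y rho v) (vb S.Y rho (g1 • v)) =
            S.dg (S.bs v) (S.bs (g1 • v)) := rfl
          omega)
      have h3 : 2 ^ (S.dg (S.bs v) (S.bs (g1 • v))) ≤ 2 ^ (101 * dd) :=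
        Nat.pow_le_pow_right (by norm_num) h1
      rw [hPP] at h3
      exact h2.trans h3
    obtain ⟨v, hv, hvS⟩ := hSC S.G S.X S.d S.N S.good v1 v2 (Lam * P) hsc
    -- every lift lies in the cyclic group generated by v
    have hin : ∀ (g1 : S.G), (∀ t ≤ S.dg u w, S.dg (γ t) (g1 • γ t) ≤ 101 * dd) →
        g1 ∈ Subgroup.zpowers v := by
      intro g1 hg1
      exact hvS g1 (hmove g1 hg1 j1 v1 (by omega) e1)
        (hmove g1 hg1 (S.dg u w - j2) v2 (by omega) e2)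
    rcases hv with rfl | hv
    · refine ⟨1, Or.inl rfl, ?_⟩
      intro g h1 h2
      obtain ⟨g1, rfl, hg2⟩ := hL g h1 h2
      have h3 := hin g1 hg2
      rw [Subgroup.zpowers_one_eq_bot, Subgroup.mem_bot] at h3
      rw [h3, map_one]
      exact Subgroup.one_mem _
    · by_cases hall : ∀ g : S.Gb, S.db (S.q u) (g • S.q u) ≤ 100 * dd →
        S.db (S.q w) (g • S.q w) ≤ 100 * dd → g = 1
      · refine ⟨1, Or.inl rfl, ?_⟩
        intro g h1 h2
        rw [hall g h1 h2]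
        exact Subgroup.one_mem _
      · push Not at hall
        obtain ⟨g, h1, h2, hg⟩ := hall
        obtain ⟨g1, rfl, hg2⟩ := hL g h1 h2
        obtain ⟨k, hk⟩ := hin g1 hg2
        have hk0 : k ≠ 0 := by
          rintro rfl
          apply hg
          rw [← hk]
          simp
        obtain ⟨-, -, -, -, -, hloxX, -⟩ := hSlen S.G S.X S.d S.good.dg S.good.iso
        obtain ⟨-, -, -, -, -, hloxB, -⟩ := hSlen S.Gb S.Xb S.db hdb hiso
        have hlox1 : Lox S.d g1 := by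
          rw [← hk]
          exact (hloxX v k hk0).2 hv.1
        have hnot : ∀ i, g1 ∉ S.E i := by
          intro i hi
          exact hg (hkill i g1 hi h1 h2)
        have hz : S.d v1 (g1 • v1) ≤ Lam * M2 :=
          (hmove g1 hg2 j1 v1 (by omega) e1).trans (Nat.mul_le_mul_left _ hM2)
        have hlox2 := (hLB2 S g1 hlox1 hnot v1 hz).2.1
        refine ⟨S.π v, Or.inr ?_, ?_⟩
        · rw [← hk] at hlox2
          have h5 : S.π (v ^ k) = S.π v ^ k := map_zpow _ _ _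
          simp only [] at hlox2
          rw [h5] at hlox2
          exact (hloxB (S.π v) k hk0).1 hlox2
        · intro g' h1' h2'
          obtain ⟨g1', rfl, hg2'⟩ := hL g' h1' h2'
          obtain ⟨k', hk'⟩ := hin g1' hg2'
          refine ⟨k', ?_⟩
          rw [← hk']
          exact (map_zpow _ _ _).symm

end Pool.Agent.BURR
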