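import Pool.Agent.BURN.Basic
import Pool.Agent.BURR.Stmts3

/-! Section 4.15 of the blueprint: (h6) for the quotient space. -/

namespace Pool.Agent.BURR

open Pool.Agent.BURN

variable [RP]

theorem H6X.bs_smul (S : KSys) (g : S.G) (x : S.X) : g • S.bs x = S.bs (g • x) := by
  apply Subtype.ext
  exact S.act g (S.bs x)

theorem H6X.le_D (S : KSys) (x y : S.X) (B : ℕ) (h : S.d x y ≤ Lam * B) : S.D x y ≤ B := by
  have hL := Lam_pos
  unfold KSys.D Dsc
  have h1 : (S.d x y + Lam - 1) / Lam < B + 1 := by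
    rw [Nat.div_lt_iff_lt_mul (by omega)]
    have h2 : (B + 1) * Lam = Lam * B + Lam := by ring
    omega
  omega

theorem H6X.exists_min {G X : Type} [Group G] [MulAction G X] (d : X → X → ℕ) (c : G)
    (x0 : X) : ∃ x, x ∈ MinSet d c := by
  classical
  have hex : ∃ n : ℕ, ∃ x, d x (c • x) = n := ⟨_, x0, rfl⟩
  obtain ⟨x, hx⟩ := Nat.find_spec hex
  refine ⟨x, fun y => ?_⟩
  rw [hx]
  exact Nat.find_min' hex ⟨y, rfl⟩

/-- the minimal set is invariant under commuting elements -/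
theorem H6X.min_smul {G X : Type} [Group G] [MulAction G X] {d : X → X → ℕ} (hiso : IsIso G d)
    {c g : G} (hcg : c * g = g * c) {x : X} (hx : x ∈ MinSet d c) : g • x ∈ MinSet d c := by
  intro y
  have h1 : d (g • x) (c • g • x) = d x (c • x) := by
    rw [← mul_smul, hcg, mul_smul, hiso]
  rw [h1]
  exact hx y

/-- a point with small products along an orbit is near the hull of any minimal set -/
theorem H6X.near_hull {G X : Type} [Group G] [MulAction G X] {d : X → X → ℕ} {δ : ℕ}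
    (hd : IsDG d) (hhyp : Hyp d δ) (hiso : IsIso G d) {c g : G} (hcg : c * g = g * c)
    (hlox : Lox d g) (o v : X) (hv : v ∈ MinSet d c) (P : ℕ)
    (hP : ∀ k : ℕ, gp d ((g ^ k)⁻¹ • o) (g ^ k • o) o ≤ 2 * P) :
    ∃ y ∈ hull d (MinSet d c), d o y ≤ P + 2 * δ := by
  obtain ⟨k, hk⟩ := hlox o (2 * d v o + 2 * P + 4 * δ + 10)
  have hcom : c * g ^ k = g ^ k * c := by
    have : Commute c g := hcg
    exact (this.pow_right k).eq
  have hcomi : c * (g ^ k)⁻¹ = (g ^ k)⁻¹ * c := by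
    have : Commute c (g ^ k) := hcom
    exact this.inv_right.eq
  have hA := H6X.min_smul hiso hcomi hv
  have hB := H6X.min_smul hiso hcom hv
  set A := (g ^ k)⁻¹ • v with hAdef
  set B := g ^ k • v with hBdef
  set A' := (g ^ k)⁻¹ • o with hA'def
  set B' := g ^ k • o with hB'def
  have hAA' : d A A' = d v o := hiso _ _ _
  have hBB' : d B B' = d v o := hiso _ _ _
  have hoA' : d o A' = d o B' := by
    have h1 := hiso (g ^ k) o A'
    rw [hA'def, ← mul_smul, mul_inv_cancel, one_smul] at h1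
    rw [hA'def, ← h1, hB'def, hd.symm]
  have h1 : gp d A' B' o ≤ 2 * P := hP k
  -- gp A' A at o is large
  have g1 := gp_add hd A' A o
  have g2 := gp_add hd B B' o
  have t1 := hd.tri o A A'
  have t2 := hd.tri o B B'
  rw [hd.symm A o, hd.symm A' o, hd.symm A' A] at g1
  rw [hd.symm B o, hd.symm B' o] at g2
  have e1 : 2 * P + δ < gp d A' A o := by omega
  have e2 : 2 * P + 2 * δ < gp d B B' o := by omega
  have f1 := hyp_gp hd hhyp A' B' A o
  have f2 : gp d A B' o ≤ 2 * P + δ := by omega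
  have f3' := hyp_gp hd hhyp A B' B o
  have f4 : gp d A B o ≤ 2 * P + 2 * δ := by omega
  obtain ⟨γ, hγ⟩ := exists_geod hd A B
  obtain ⟨n1, n2⟩ := near_geod hd hhyp hγ o
  refine ⟨γ (gp d B o A / 2), ⟨A, hA, B, hB, hγ.btw' n1⟩, ?_⟩
  omega

theorem H6_proof (hKRF : Stmt_KRF) (hKStab : Stmt_KStab) (hLift : Stmt_Lift)
    (hLB1 : Stmt_LB1) (hLB2 : Stmt_LB2) (hAxis : Stmt_Axis) (hSlen : Stmt_Slen)
    (hKCD : Stmt_KCD) (hDG : Stmt_GamDG) : Stmt_H6 := by
  intro S c g hc hgc hg1 x hx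
  obtain ⟨hRF, hdb, hiso, hhyp, hcontr, -, -⟩ := hKRF S
  obtain ⟨-, -, -, -, -, hs6, -⟩ := hKStab S
  obtain ⟨hCD, -, -⟩ := hKCD S
  obtain ⟨-, -, -, -, hbD, -⟩ := hDG S.X S.I S.D S.Y rho hCD
  obtain ⟨-, -, -, -, -, hloxB, -⟩ := hSlen S.Gb S.Xb S.db hdb hiso
  have hdd := dd_ge
  have hLam := Lam_eq
  have hA1 := A1_eq
  have hM2 := pow_200dd_le_M2
  generalize hPP : 2 ^ (200 * dd) = P at hA1 hM2
  -- g is loxodromic
  have hglox : Lox S.db g := by
    obtain ⟨k, hk⟩ := hgc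
    have hk' : c ^ k = g := hk
    have hk0 : k ≠ 0 := by
      rintro rfl
      apply hg1
      rw [← hk', zpow_zero]
    rw [← hk']
    exact (hloxB c k hk0).2 hc.1
  have hcg : c * g = g * c := by
    obtain ⟨k, hk⟩ := hgc
    have hk' : c ^ k = g := hk
    rw [← hk']
    exact ((Commute.refl c).zpow_right k).eq
  -- no power of g is trivial
  have hpow : ∀ n : ℕ, 1 ≤ n → g ^ n ≠ 1 := by
    intro n hn h
    have h1 : Lox S.db (g ^ (n : ℤ)) := (hloxB g n (by omega)).2 hglox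
    rw [zpow_natCast, h] at h1
    obtain ⟨m, hm⟩ := h1 x 0
    rw [one_pow, one_smul, (hdb.eq_zero x x).2 rfl] at hm
    omega
  have hLp : 100 * dd ≤ 200 * dd := by omega
  obtain ⟨g1, u, hπ, hu, hmv, hcase⟩ := hLift S g x (100 * dd) hLp hx
  rcases hcase with ⟨i, hi⟩ | ⟨hht, x0, hx0, hdx0⟩
  · exfalso
    have h1 := hs6 i g1 hi
    rw [hπ] at h1
    exact hpow (S.nE i) ((nq_pos).trans (S.nge i)) h1
  · have hN1 : 1 ≤ S.N := by
      obtain ⟨m, hm⟩ := S.good.odd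
      omega
    have hnE : ∀ i, g1 ∉ S.E i := by
      intro i hi
      have h1 := hs6 i g1 hi
      rw [hπ] at h1
      exact hpow (S.nE i) ((nq_pos).trans (S.nge i)) h1
    have hlox1 : Lox S.d g1 := by
      by_contra hcon
      have h1 := S.good.tors g1 hcon
      apply hpow S.N hN1
      rw [← hπ, ← map_pow, h1, map_one]
    have h200 : 2 * (100 * dd) = 200 * dd := by ring
    rw [h200, hPP] at hdx0
    have hz : S.d x0 (g1 • x0) ≤ Lam * M2 := hdx0.trans (Nat.mul_le_mul_left _ hM2)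
    obtain ⟨o, ho⟩ := H6X.exists_min S.d g1 x0
    obtain ⟨hm1, -, -⟩ := hLB1 S g1 hlox1 hnE x0 hz o ho
    obtain ⟨-, -, hax⟩ := hAxis S.G S.X S.d dd (S.d o (g1 • o)) S.good.dg S.good.hyp S.good.iso
      (by omega) g1 o rfl ho
    obtain ⟨q, ⟨i, hqi⟩, hq⟩ := hax x0
    -- the nearest orbit point
    have hseg : S.d (g1 ^ i • o) (g1 ^ (i + 1) • o) = S.d o (g1 • o) := by
      rw [zpow_add, zpow_one, mul_smul]
      exact S.good.iso _ _ _
    have horb : ∃ j : ℤ, 2 * S.d q (g1 ^ j • o) ≤ S.d o (g1 • o) := by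
      unfold Pool.Agent.BURN.Btw at hqi
      rw [hseg] at hqi
      by_cases hh : S.d (g1 ^ i • o) q ≤ S.d q (g1 ^ (i + 1) • o)
      · refine ⟨i, ?_⟩
        rw [S.good.dg.symm q]; omega
      · exact ⟨i + 1, by omega⟩
    obtain ⟨j, hj⟩ := horb
    have hd0 : 2 * S.d x0 (g1 ^ j • o) ≤ Lam * P + 30 * dd + 2 := by
      have h1 := S.good.dg.tri x0 q (g1 ^ j • o)
      omega
    have ho' : g1 ^ j • o ∈ MinSet S.d g1 :=
      H6X.min_smul S.good.iso ((Commute.refl g1).zpow_right j).eq ho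
    have hD0 : S.D x0 (g1 ^ j • o) ≤ P + 1 := by
      apply H6X.le_D
      have : Lam * (P + 1) = Lam * P + Lam := by ring
      omega
    obtain ⟨hlb, -, -⟩ := hLB2 S g1 hlox1 hnE x0 hz
    obtain ⟨v, hv⟩ := H6X.exists_min S.db c x
    obtain ⟨y, hy, hyd⟩ := H6X.near_hull hdb hhyp hiso hcg hglox
      (S.q (S.bs (g1 ^ j • o))) v hv (Om + 48 + f3) (by
        intro k
        have h1 := (hlb (g1 ^ j • o) ho' k).2
        have e1 : (g ^ k)⁻¹ • S.q (S.bs (g1 ^ j • o)) = S.q (S.bs ((g1 ^ k)⁻¹ • g1 ^ j • o)) := by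
          rw [← H6X.bs_smul S ((g1 ^ k)⁻¹), ← S.qsmul, map_inv, map_pow, hπ]
        have e2 : g ^ k • S.q (S.bs (g1 ^ j • o)) = S.q (S.bs (g1 ^ k • g1 ^ j • o)) := by
          rw [← H6X.bs_smul S (g1 ^ k), ← S.qsmul, map_pow, hπ]
        rw [e1, e2]
        exact h1)
    refine ⟨y, hy, ?_⟩
    have k1 : S.db x (S.q (S.bs x0)) ≤ 50 * dd := by
      rw [← hu]
      have h1 := hcontr u (S.bs x0)
      omega
    have k2 : S.db (S.q (S.bs x0)) (S.q (S.bs (g1 ^ j • o))) ≤ P + 1 := by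
      have h1 := hcontr (S.bs x0) (S.bs (g1 ^ j • o))
      have h2 : S.dg (S.bs x0) (S.bs (g1 ^ j • o)) ≤ S.D x0 (g1 ^ j • o) := hbD _ _
      omega
    have t1 := hdb.tri x (S.q (S.bs x0)) y
    have t2 := hdb.tri (S.q (S.bs x0)) (S.q (S.bs (g1 ^ j • o))) y
    omega

end Pool.Agent.BURR
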