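import Pool.Agent.BURN.Basic
import Pool.Agent.BURR.Stmts3

/-! Blueprint 4.11 (b)-(d): an element of moderate displacement which lies in no killed group
stays loxodromic in the quotient, with controlled constants. -/

namespace Pool.Agent.BURR

open Pool.Agent.BURN

variable [RP]
namespace LB2X

theorem Dsc_mul_ge (d : ℕ) : d ≤ Lam * ((d + Lam - 1) / Lam) := by
  have h := Lam_pos
  have h1 := Nat.div_add_mod (d + Lam - 1) Lam
  have h2 := Nat.mod_lt (d + Lam - 1) (show 0 < Lam by omega)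
  omega

theorem Dsc_mul_lt (d : ℕ) : Lam * ((d + Lam - 1) / Lam) ≤ d + Lam - 1 :=
  Nat.mul_div_le _ _

/-- the product for the rescaled metric -/
theorem gp_Dsc {a b c : ℕ} (h : a + b ≤ c + 4 * dd) :
    (a + Lam - 1) / Lam + (b + Lam - 1) / Lam ≤ (c + Lam - 1) / Lam + 2 := by
  have hL := Lam_pos
  have hL2 := Lam_eq
  have h1 := Dsc_mul_lt a
  have h2 := Dsc_mul_lt b
  have h3 := Dsc_mul_ge c
  set A := (a + Lam - 1) / Lam
  set B := (b + Lam - 1) / Lam
  set C := (c + Lam - 1) / Lam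
  by_contra hcon
  have hcon' : C + 3 ≤ A + B := by omega
  have h4 : Lam * (C + 3) ≤ Lam * (A + B) := Nat.mul_le_mul_left _ hcon'
  have h5 : Lam * (C + 3) = Lam * C + 3 * Lam := by ring
  have h6 : Lam * (A + B) = Lam * A + Lam * B := by ring
  omega

variable {G X : Type} [Group G] [MulAction G X] {d : X → X → ℕ}

theorem minset_smul (hi : IsIso G d) {g : G} {o : X} (ho : o ∈ MinSet d g) (k : ℕ) :
    g ^ k • o ∈ MinSet d g ∧ (g ^ k)⁻¹ • o ∈ MinSet d g := by
  constructor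
  · intro y
    have e : g • g ^ k • o = g ^ k • g • o := by
      rw [smul_smul, smul_smul, ← pow_succ, ← pow_succ']
    rw [e, hi]
    exact ho y
  · intro y
    have e : g • (g ^ k)⁻¹ • o = (g ^ k)⁻¹ • g • o := by
      rw [smul_smul, smul_smul]
      congr 1
      have : Commute g (g ^ k) := (Commute.refl g).pow_right k
      exact (this.inv_right).eq
    rw [e, hi]
    exact ho y

theorem exists_minset [Nonempty X] (d : X → X → ℕ) (g : G) : ∃ o, o ∈ MinSet d g := by
  classical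
  have hne : ∃ n, ∃ x, d x (g • x) = n := ⟨_, Classical.arbitrary X, rfl⟩
  obtain ⟨x, hx⟩ := Nat.find_spec hne
  refine ⟨x, fun y => ?_⟩
  rw [hx]
  exact Nat.find_min' hne ⟨y, rfl⟩

/-- the argument with large powers -/
theorem pow_arg (hD : IsDG d) (hi : IsIso G d) (R : ℕ) (g : G) (o : X)
    (h : ∀ m : ℕ, m ≤ R * d o (g ^ m • o)) (x : X) (m : ℕ) : m ≤ R * d x (g ^ m • x) := by
  by_contra hcon
  have hcon' : R * d x (g ^ m • x) + 1 ≤ m := by omega
  have hj : ∀ j : ℕ, d x (g ^ (m * j) • x) ≤ j * d x (g ^ m • x) := by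
    intro j
    induction j with
    | zero =>
      simp only [Nat.mul_zero, pow_zero, one_smul, Nat.zero_mul, Nat.le_zero_eq]
      exact (hD.eq_zero x x).2 rfl
    | succ j ih =>
      have e : g ^ (m * (j + 1)) • x = g ^ (m * j) • g ^ m • x := by
        rw [smul_smul, ← pow_add]; congr 2
      have t := hD.tri x (g ^ (m * j) • x) (g ^ (m * (j + 1)) • x)
      rw [e, hi] at t
      rw [e]
      have : (j + 1) * d x (g ^ m • x) = j * d x (g ^ m • x) + d x (g ^ m • x) := by ring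
      omega
  set c := d o x
  set t := d x (g ^ m • x)
  set J := 2 * R * c + 1
  have h1 := h (m * J)
  have h2 := hj J
  have h3 : d o (g ^ (m * J) • o) ≤ c + d x (g ^ (m * J) • x) + c := by
    have t1 := hD.tri o x (g ^ (m * J) • o)
    have t2 := hD.tri x (g ^ (m * J) • x) (g ^ (m * J) • o)
    rw [hi, hD.symm x o] at t2
    have e : c = d o x := rfl
    omega
  have h4 : R * d o (g ^ (m * J) • o) ≤ R * (2 * c + J * t) :=
    Nat.mul_le_mul_left _ (by omega)
  have h5 : (R * t + 1) * J ≤ m * J := Nat.mul_le_mul_right _ hcon'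
  have h6 : (R * t + 1) * J = R * (J * t) + J := by ring
  have h7 : R * (2 * c + J * t) = 2 * R * c + R * (J * t) := by ring
  have h8 : J = 2 * R * c + 1 := rfl
  omega

theorem lox_of (hR : 1 ≤ Rr) (g : G)
    (h : ∀ (x : X) (m : ℕ), m ≤ Rr * d x (g ^ m • x)) : Lox d g := by
  intro x B
  refine ⟨Rr * (B + 1), ?_⟩
  have h1 := h x (Rr * (B + 1))
  have h2 : B + 1 ≤ d x (g ^ (Rr * (B + 1)) • x) := Nat.le_of_mul_le_mul_left h1 (by omega)
  omega

end LB2X

open LB2X

theorem LB2_proof (hLB1 : Stmt_LB1) (hKCD : Stmt_KCD) (hKRF : Stmt_KRF) (hKS : Stmt_KStab)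
    (hND : Stmt_NoDeep) (hFS0 : Stmt_FS0) (hIM : Stmt_IrrMin) (hAx : Stmt_Axis)
    (hI2 : Stmt_Iso2) (hSh : Stmt_Shadow) (hPr : Stmt_Proj) (hGu : Stmt_Guess)
    (hGD : Stmt_GamDG) : Stmt_LB2 := by
  intro S g hg hgE z hz
  obtain ⟨hCD, hisoD, -⟩ := hKCD S
  obtain ⟨hRF, hdbDG, hdbiso, hdbhyp, hqle, hqlift, -⟩ := hKRF S
  have hapx := (hKS S).2.2.2.2.2.2.2.2
  have hgood := S.good
  have hdg : IsDG S.dg := hRF.dg
  have hprn : IsPr S.D S.Y S.pr := S.prn
  have hvb : ∀ (g : S.G) (v : S.X), g • S.bs v = S.bs (g • v) := by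
    intro g v; apply Subtype.ext; rw [S.act]; rfl
  have hne : Nonempty S.X := hgood.nonempty
  -- the key equality (b)
  have key : ∀ o ∈ MinSet S.d g, ∀ k : ℕ,
      S.db (S.q (S.bs o)) (S.q (S.bs (g ^ k • o))) = S.dg (S.bs o) (S.bs (g ^ k • o)) ∧
      S.D o (g ^ k • o) ≤ 2 ^ s3 * S.dg (S.bs o) (S.bs (g ^ k • o)) := by
    intro o ho k
    obtain ⟨-, -, hpr⟩ := hLB1 S g hg hgE z hz o ho
    have hnd := hND S.X S.I S.D S.Y rho S.pr hCD hprn o (g ^ k • o) s2 s3 s3_eq
      (by rw [rho_eq]; omega) (fun i => (hpr k i).trans Om_le)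
    obtain ⟨-, hlen, hgp⟩ := hnd
    refine ⟨?_, hlen⟩
    obtain ⟨k', hk', he⟩ := hqlift (S.bs o) (S.bs (g ^ k • o))
    have hbig : ∀ c ∈ Set.range S.ap, eta1 del1 (2 * f3) < gp S.dg (S.bs o) (S.bs (g ^ k • o)) c := by
      rintro _ ⟨i, rfl⟩
      have h1 := hgp i
      have h2 := rho_eq
      change 2 * (rho + 1) ≤ gp S.dg (S.bs o) (S.bs (g ^ k • o)) (S.ap i) +
        2 * (s3 + del1 + 1) at h1
      omega
    have hirr : Irr S.dg (Set.range S.ap) S.R (eta del1 (2 * f3)) (tht del1 (2 * f3))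
        (S.bs o) (S.bs (g ^ k • o)) := by
      intro c hc r _ hle
      have := hbig c hc
      exfalso
      have e1 : eta1 del1 (2 * f3) = tht del1 (2 * f3) + 4 * del1 := rfl
      have e2 : tht del1 (2 * f3) = BB del1 (2 * f3) + 1 := rfl
      have e3 : BB del1 (2 * f3) = eta del1 (2 * f3) + 4 * del1 := rfl
      omega
    have hmin : S.dg (S.bs o) (k' • S.bs (g ^ k • o)) =
        dK S.dg (KK (Set.range S.ap) S.R) (S.bs o) (k' • S.bs (g ^ k • o)) := by
      have h1 := S.qdist (S.bs o) (k' • S.bs (g ^ k • o))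
      have h2 : S.q (k' • S.bs (g ^ k • o)) = S.q (S.bs (g ^ k • o)) :=
        ((S.qeq _ _).2 ⟨k', hk', rfl⟩).symm
      rw [h2, ← he] at h1
      exact h1
    have hirr' := ((hIM S.G S.Gm S.dg (Set.range S.ap) S.R del1 (2 * f3 + 1) (2 * f3)
      (2 * rho + 2) hRF).1 _ _ hmin).2
    by_cases hk1 : k' = 1
    · rw [hk1, one_smul] at he
      exact he.symm
    · exfalso
      obtain ⟨c, hc, h1, -⟩ := hFS0 S.G S.Gm S.dg (Set.range S.ap) S.R del1 (2 * f3 + 1) (2 * f3)
        (2 * rho + 2) hRF (S.bs o) (S.bs (g ^ k • o)) k' hk' hk1 (by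
          rintro _ ⟨i, rfl⟩
          have h1 := hapx (g ^ k • o) i
          have h2 := N0_eq
          have h3 := rho_eq
          omega) hirr hirr'
      have := hbig c hc
      omega
  have hLR : ∀ o ∈ MinSet S.d g, ∀ m : ℕ,
      m ≤ Rr * S.db (S.q (S.bs o)) (S.π g ^ m • S.q (S.bs o)) := by
    intro o ho m
    obtain ⟨hm, -, -⟩ := hLB1 S g hg hgE z hz o ho
    obtain ⟨h1, h2⟩ := key o ho m
    rw [← map_pow, S.qsmul, hvb, h1]
    have h3 := (hI2 S.G S.X S.d dd (S.d o (g • o)) hgood.dg hgood.hyp hgood.iso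
      (by have := dd_ge; omega) g o rfl (fun y => ho y)).2.2.1 m
    have h4 : m * 1 ≤ m * (S.d o (g • o) - 3 * dd) := Nat.mul_le_mul_left _ (by
      have := dd_ge; omega)
    have h5 : S.d o (g ^ m • o) ≤ Lam * S.D o (g ^ m • o) := Dsc_mul_ge _
    have h6 : Lam * S.D o (g ^ m • o) ≤ Lam * (2 ^ s3 * S.dg (S.bs o) (S.bs (g ^ m • o))) :=
      Nat.mul_le_mul_left _ h2
    rw [Rr_eq, mul_assoc]
    omega
  refine ⟨?_, ?_⟩
  · intro o ho k
    refine ⟨(key o ho k).1, ?_⟩
    -- (d)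
    obtain ⟨o1, o2⟩ := minset_smul hgood.iso ho k
    set x := (g ^ k)⁻¹ • o with hx
    set y := g ^ k • o with hy
    have exo : g ^ k • x = o := by rw [hx, smul_smul, mul_inv_cancel, one_smul]
    have exy : g ^ (2 * k) • x = y := by
      rw [hx, hy, smul_smul]; congr 1; rw [two_mul, pow_add]; group
    have b1 : S.db (S.q (S.bs x)) (S.q (S.bs o)) = S.dg (S.bs x) (S.bs o) := by
      have := (key x o2 k).1
      rw [exo] at this; exact this
    have b2 : S.db (S.q (S.bs x)) (S.q (S.bs y)) = S.dg (S.bs x) (S.bs y) := by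
      have := (key x o2 (2 * k)).1
      rw [exy] at this; exact this
    have b3 : S.db (S.q (S.bs y)) (S.q (S.bs o)) = S.dg (S.bs y) (S.bs o) := by
      rw [hdbDG.symm, hdg.symm]; exact (key o ho k).1
    have hgpe : gp S.db (S.q (S.bs x)) (S.q (S.bs y)) (S.q (S.bs o)) =
        gp S.dg (S.bs x) (S.bs y) (S.bs o) := by
      unfold gp; rw [b1, b2, b3]
    rw [hgpe]
    -- product in d
    have hd4 : gp S.d x y o ≤ 4 * dd := by
      rcases Nat.eq_zero_or_pos k with h0 | h0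
      · subst h0
        have : y = o := by rw [hy, pow_zero, one_smul]
        rw [this, gp_right_self hgood.dg]; omega
      · obtain ⟨hm, -, -⟩ := hLB1 S g hg hgE z hz o ho
        have := (hAx S.G S.X S.d dd (S.d o (g • o)) hgood.dg hgood.hyp hgood.iso
          (by have := dd_ge; omega) g o rfl (fun y => ho y)).1 (-(k : ℤ)) k 0 (by omega) (by omega)
        rw [zpow_neg, zpow_natCast, zpow_zero, one_smul] at this
        exact this
    have hD2 : gp S.D x y o ≤ 2 := by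
      have h1 := gp_add hgood.dg x y o
      have h2 := gp_Dsc (a := S.d x o) (b := S.d y o) (c := S.d x y) (by omega)
      unfold gp
      change (S.d x o + Lam - 1) / Lam + (S.d y o + Lam - 1) / Lam -
        (S.d x y + Lam - 1) / Lam ≤ 2
      omega
    have hDG := hCD.dg
    obtain ⟨γ, hγ⟩ := exists_geod hDG x y
    obtain ⟨ht1, ht2⟩ := near_geod hDG hCD.hyp hγ o
    set p := γ (gp S.D y o x / 2) with hp
    have hbp : Btw S.D x p y := hγ.btw' ht1
    have hop : S.D o p ≤ 3 := by omega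
    -- a point of the guessed path near o
    have hu : ∃ u ∈ Lset S.D S.Y rho S.pr x y, S.dg (S.bs o) u ≤ Om + 48 := by
      have hle : ∀ a b, S.dg (S.bs a) (S.bs b) ≤ S.D a b :=
        (hGD S.X S.I S.D S.Y rho hCD).2.2.2.2.1
      by_cases hdeep : ∃ i, Deep S.D S.pr i x y p
      · obtain ⟨i, hi⟩ := hdeep
        obtain ⟨s1, s2⟩ := (hSh S.X S.I S.D S.Y rho S.pr hCD hprn).2.2.1 i x y p hbp hi
        refine ⟨S.bs (S.pr i x), Or.inr ⟨i, by omega, Or.inl rfl⟩, ?_⟩
        refine (hle _ _).trans ?_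
        have hproj := (hPr S.X S.D 2 1 7 7 9 22 (S.Y i) hDG hCD.hyp (hCD.qc i) rfl rfl rfl
          rfl).2.1
        obtain ⟨hd1, hd2⟩ := hi
        have p1 := (hproj x p _ _ (hprn i x) (hprn i p) (by
          rw [hDG.symm]; omega)).2.2
        have p2 := (hproj p y _ _ (hprn i p) (hprn i y) (by omega)).2.2
        have hOm : S.D (S.pr i x) (S.pr i y) ≤ Om := by
          have := (hLB1 S g hg hgE z hz x o2).2.2 (2 * k) i
          rw [exy] at this; exact this
        have t1 := hDG.tri x (S.pr i x) y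
        have t2 := hDG.tri (S.pr i x) (S.pr i y) y
        have t3 := hDG.tri o p (S.pr i x)
        have t4 := hDG.tri p (S.pr i p) (S.pr i x)
        have e1 := hDG.symm (S.pr i p) (S.pr i x)
        have e2 := hDG.symm (S.pr i p) p
        unfold Pool.Agent.BURN.Btw at hbp
        omega
      · refine ⟨S.bs p, Or.inl ⟨p, rfl, hbp, fun i hi => hdeep ⟨i, hi⟩⟩, ?_⟩
        refine (hle _ _).trans ?_
        omega
    obtain ⟨u, hu1, hu2⟩ := hu
    obtain ⟨ψ, hψ⟩ := exists_geod hdg (S.bs x) (S.bs y)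
    obtain ⟨j, hj, hju⟩ := ((hGu S.X S.I S.D S.Y rho S.pr hCD hprn).1 x y ψ hψ).1 u hu1
    have hbt : Btw S.dg (S.bs x) (ψ j) (S.bs y) := hψ.btw' hj
    have h1 := gp_le_of_btw hdg hbt (S.bs o)
    have h2 := hdg.tri (S.bs o) u (ψ j)
    change S.dg u (ψ j) ≤ f3 at hju
    omega
  · obtain ⟨o, ho⟩ := exists_minset S.d g
    have h := fun x m => pow_arg hdbDG hdbiso Rr (S.π g) (S.q (S.bs o)) (hLR o ho) x m
    exact ⟨lox_of Rr_pos _ h, h⟩

end Pool.Agent.BURR
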