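import Pool.Agent.BURN.Basic
import Pool.Agent.BURR.Stmts4

/-! Module Lim1 (5.3): the limit group of a tower of good stages. -/

namespace Pool.Agent.BURR

open Pool.Agent.BURN

variable [RP]

namespace Lim1X

variable {N p : ℕ} (W : Tow N p)

theorem phi_succ (k : ℕ) (x : (W.T 0).G) : W.φ (k + 1) x = W.π k (W.φ k x) := rfl

theorem phi_one_mono {k l : ℕ} (hkl : k ≤ l) {x : (W.T 0).G} (h : W.φ k x = 1) :
    W.φ l x = 1 := by
  induction l, hkl using Nat.le_induction with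
  | base => exact h
  | succ l _ ih => rw [phi_succ, ih, map_one]

theorem mem_M (x : (W.T 0).G) : x ∈ W.M ↔ ∃ k, W.φ k x = 1 := by
  unfold Tow.M
  rw [Subgroup.mem_iSup_of_directed]
  · exact Iff.rfl
  · apply Monotone.directed_le
    intro k l hkl x hx
    exact phi_one_mono W hkl hx

theorem phi_surj (k : ℕ) : Function.Surjective (W.φ k) := by
  induction k with
  | zero => exact fun x => ⟨x, rfl⟩
  | succ k ih => exact (W.rel k).surj.comp ih

theorem old_mono {k l : ℕ} (hkl : k ≤ l) {x : (W.T 0).G} (h : ¬ Lox (W.T k).d (W.φ k x)) :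
    ¬ Lox (W.T l).d (W.φ l x) := by
  induction l, hkl using Nat.le_induction with
  | base => exact h
  | succ l _ ih => exact (W.rel l).old _ ih

/-- image of a base point -/
noncomputable def pt (P : (W.T 0).X) : ∀ k, (W.T k).X
  | 0 => P
  | k + 1 => W.ι k (pt P k)

theorem pt_disp (P : (W.T 0).X) (x : (W.T 0).G) (k : ℕ) :
    (W.T (k + 1)).d (pt W P (k + 1)) (W.φ (k + 1) x • pt W P (k + 1)) ≤
      Dsc Lam (W.T k).d (pt W P k) (W.φ k x • pt W P k) := by
  have h := (W.rel k).contr (pt W P k) (W.φ k x • pt W P k)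
  rw [(W.rel k).equiv] at h
  exact h

theorem lam_two : 2 ≤ Lam := by
  rw [Lam_eq]; omega

theorem exists_small (P : (W.T 0).X) (x : (W.T 0).G) :
    ∃ k, (W.T k).d (pt W P k) (W.φ k x • pt W P k) ≤ 1 := by
  have key : ∀ n k, (W.T k).d (pt W P k) (W.φ k x • pt W P k) ≤ n →
      ∃ k, (W.T k).d (pt W P k) (W.φ k x • pt W P k) ≤ 1 := by
    intro n
    induction n using Nat.strong_induction_on with
    | _ n ih =>
      intro k hk
      rcases Nat.lt_or_ge 1 n with h | h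
      · refine ih (n - 1) (by omega) (k + 1) ((pt_disp W P x k).trans ?_)
        unfold Dsc
        have hL := lam_two
        rw [← Nat.lt_succ_iff, Nat.div_lt_iff_lt_mul (by omega)]
        have h1 : n * 2 ≤ n * Lam := Nat.mul_le_mul_left _ hL
        have h2 : (n - 1).succ = n := by omega
        rw [h2]
        have h3 : (n - 1) * Lam + Lam = n * Lam := by
          rw [← Nat.succ_mul, h2]
        have h4 : n ≤ (n - 1) * Lam + 0 + 1 ∨ True := Or.inr trivial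
        have h5 : (n - 1) * 2 ≤ (n - 1) * Lam := Nat.mul_le_mul_left _ hL
        omega
      · exact ⟨k, by omega⟩
  exact key _ 0 le_rfl

theorem disp_zpow_eq {G X : Type} [Group G] [MulAction G X] {d : X → X → ℕ} (hd : IsDG d)
    (hi : IsIso G d) (w : G) (y : X) (a : ℤ) :
    d y (w ^ a • y) = d y (w ^ a.natAbs • y) := by
  rcases Int.natAbs_eq a with h | h
  · rw [← zpow_natCast, ← h]
  · rw [← hi (w ^ a.natAbs) y (w ^ a • y), smul_smul, ← zpow_natCast, ← zpow_add]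
    have h3 : (a.natAbs : ℤ) + a = 0 := by omega
    rw [h3, zpow_zero, one_smul, hd.symm]

theorem small_killed (hIso : Stmt_Iso2) (hCyc : Stmt_Cyc) {G X : Type} [Group G] [MulAction G X]
    {d : X → X → ℕ} {N : ℕ} (hG : Good (G := G) d N) (g : G) (hg : Lox d g) (y : X)
    (hy : d y (g • y) ≤ 1) : ∃ E : Subgroup G, Kil d E ∧ g ∈ E := by
  obtain ⟨c, hc, hE⟩ := hCyc G X d N hG g hg
  have hgc : g ∈ Subgroup.zpowers c := (hE g).1 ⟨1, le_rfl, by group⟩
  refine ⟨Subgroup.zpowers c, ⟨c, rfl, hc, ?_⟩, hgc⟩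
  by_contra hno
  push Not at hno
  obtain ⟨j, hj⟩ := Subgroup.mem_zpowers_iff.1 hgc
  -- minimal displacement
  let T : Set ℕ := {n | ∃ x, n = d x (c • x)}
  have hT : T.Nonempty := ⟨_, y, rfl⟩
  obtain ⟨x0, hx0⟩ := Nat.sInf_mem hT
  have hmin : ∀ z, d x0 (c • x0) ≤ d z (c • z) := fun z => by
    rw [← hx0]; exact Nat.sInf_le ⟨z, rfl⟩
  have hm := hno x0
  have hdd := dd_ge
  obtain ⟨-, -, -, h4⟩ := hIso G X d dd (d x0 (c • x0)) hG.dg hG.hyp hG.iso (by omega) c x0 rfl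
    hmin
  have h5 := h4 y j.natAbs
  rw [← disp_zpow_eq hG.dg hG.iso c y j, hj] at h5
  have hj0 : j ≠ 0 := by
    rintro rfl
    rw [zpow_zero] at hj
    obtain ⟨m, hm⟩ := hg y 0
    rw [← hj, one_pow, one_smul, (hG.dg.eq_zero y y).2 rfl] at hm
    exact lt_irrefl _ hm
  have h6 : 1 * (d x0 (c • x0) - 3 * dd) ≤ j.natAbs * (d x0 (c • x0) - 3 * dd) :=
    Nat.mul_le_mul_right _ (by omega)
  omega

theorem exists_nonlox (hIso : Stmt_Iso2) (hCyc : Stmt_Cyc) (x : (W.T 0).G) :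
    ∃ k, ¬ Lox (W.T k).d (W.φ k x) := by
  obtain ⟨P⟩ := (W.T 0).good.nonempty
  obtain ⟨k, hk⟩ := exists_small W P x
  by_cases hl : Lox (W.T k).d (W.φ k x)
  · obtain ⟨E, hE, hx⟩ := small_killed hIso hCyc (W.T k).good _ hl _ hk
    exact ⟨k + 1, (W.rel k).killed E hE _ hx⟩
  · exact ⟨k, hl⟩

theorem nonlox_pow (k : ℕ) : ∀ g : (W.T k).G, ¬ Lox (W.T k).d g → g ^ p = 1 ∨
    ∃ g0, ¬ Lox (W.T 0).d g0 ∧ W.φ k g0 = g := by
  induction k with
  | zero => exact fun g hg => Or.inr ⟨g, hg, rfl⟩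
  | succ k ih =>
    intro gb hgb
    obtain ⟨g, rfl, hg | ⟨E, hE, hgE⟩⟩ := (W.rel k).nonlox gb hgb
    · rcases ih g hg with h | ⟨g0, h0, h⟩
      · left; rw [← map_pow, h, map_one]
      · right; exact ⟨g0, h0, by rw [phi_succ, h]⟩
    · left
      rw [← map_pow]
      exact ((W.rel k).ord E hE (g ^ p) (pow_mem hgE p)).2 ⟨g, hgE, rfl⟩

theorem not_lox_one {G X : Type} [Group G] [MulAction G X] {d : X → X → ℕ} {N : ℕ}
    (hG : Good (G := G) d N) : ¬ Lox d (1 : G) := by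
  intro h
  obtain ⟨y⟩ := hG.nonempty
  obtain ⟨m, hm⟩ := h y 0
  rw [one_pow, one_smul, (hG.dg.eq_zero y y).2 rfl] at hm
  exact lt_irrefl _ hm

theorem nonlox_ne_one (k : ℕ) (g0 : (W.T 0).G) (h0 : ¬ Lox (W.T 0).d g0) (h1 : g0 ≠ 1) :
    W.φ k g0 ≠ 1 := by
  induction k with
  | zero => exact h1
  | succ k ih =>
    intro h
    obtain ⟨h', -, e⟩ := (W.rel k).s3 (W.φ k g0) 1 1 (old_mono W (Nat.zero_le k) h0)
      (not_lox_one (W.T k).good) ih (by rw [one_mul, inv_one, mul_one, map_one]; exact h)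
    exact ih (by
      have := congrArg (fun z => h'⁻¹ * z * h') e
      simpa [mul_assoc] using this)

theorem ker_le (k : ℕ) : ∀ x : (W.T 0).G, W.φ k x = 1 →
    x ∈ Subgroup.closure {x | ∃ y : (W.T 0).G, x = y ^ p} := by
  induction k with
  | zero =>
    intro x hx
    have : x = 1 := hx
    rw [this]; exact one_mem _
  | succ k ih =>
    intro x hx
    have h1 := ((W.rel k).ker (W.φ k x)).1 hx
    have h2 : ∀ z ∈ Subgroup.closure {x | ∃ E : Subgroup (W.T k).G, Kil (W.T k).d E ∧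
        ∃ e ∈ E, x = e ^ p}, ∃ x' ∈ Subgroup.closure {x | ∃ y : (W.T 0).G, x = y ^ p},
        W.φ k x' = z := by
      intro z hz
      induction hz using Subgroup.closure_induction with
      | mem z hz =>
        obtain ⟨E, -, e, -, rfl⟩ := hz
        obtain ⟨y, rfl⟩ := phi_surj W k e
        exact ⟨y ^ p, Subgroup.subset_closure ⟨y, rfl⟩, map_pow _ _ _⟩
      | one => exact ⟨1, one_mem _, map_one _⟩
      | mul a b _ _ ha hb =>
        obtain ⟨a', ha', rfl⟩ := ha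
        obtain ⟨b', hb', rfl⟩ := hb
        exact ⟨a' * b', mul_mem ha' hb', map_mul _ _ _⟩
      | inv a _ ha =>
        obtain ⟨a', ha', rfl⟩ := ha
        exact ⟨a'⁻¹, inv_mem ha', map_inv _ _⟩
    obtain ⟨x', hx', e⟩ := h2 _ h1
    have h3 : x * x'⁻¹ ∈ Subgroup.closure {x | ∃ y : (W.T 0).G, x = y ^ p} := by
      apply ih
      rw [map_mul, map_inv, e, mul_inv_cancel]
    have := mul_mem h3 hx'
    rwa [inv_mul_cancel_right] at this

end Lim1X

theorem Lim1_proof (hIso : Stmt_Iso2) (hCyc : Stmt_Cyc) : Stmt_Lim1 := by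
  intro N p W hp
  have hM := Lim1X.mem_M W
  refine ⟨hM, ⟨fun x hx g => ?_⟩, Lim1X.phi_surj W, Lim1X.exists_nonlox W hIso hCyc,
    fun k l x hkl => Lim1X.old_mono W hkl, Lim1X.nonlox_pow W, fun x => ?_, fun x => ?_,
    fun g0 h0 hm => ?_, fun x hx => ?_, fun S hS => ?_⟩
  · obtain ⟨k, hk⟩ := (hM x).1 hx
    refine (hM _).2 ⟨k, ?_⟩
    rw [map_mul, map_mul, hk, mul_one, map_inv, mul_inv_cancel]
  · obtain ⟨k, hk⟩ := Lim1X.exists_nonlox W hIso hCyc x
    rcases Lim1X.nonlox_pow W k _ hk with h | ⟨g0, h0, h⟩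
    · left; exact (hM _).2 ⟨k, by rw [map_pow, h]⟩
    · right
      exact ⟨g0, h0, (hM _).2 ⟨k, by rw [map_mul, map_inv, h, mul_inv_cancel]⟩⟩
  · obtain ⟨k, hk⟩ := Lim1X.exists_nonlox W hIso hCyc x
    exact (hM _).2 ⟨k, by rw [map_pow, (W.T k).good.tors _ hk]⟩
  · by_contra h1
    obtain ⟨k, hk⟩ := (hM _).1 hm
    exact Lim1X.nonlox_ne_one W k g0 h0 h1 hk
  · obtain ⟨k, hk⟩ := (hM _).1 hx
    exact Lim1X.ker_le W k x hk
  · choose! f hf using fun x (hx : x ∈ S) => (hM x).1 (hS x hx)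
    exact ⟨S.sup f, fun x hx => Lim1X.phi_one_mono W (Finset.le_sup hx) (hf x hx)⟩

end Pool.Agent.BURR
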