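import Pool.Agent.BURR.Stmts38
import Pool.Agent.BURN.Basic

/-! 6.2: the product of two elliptic isometries with distant fixed points is loxodromic. -/

namespace Pool.Agent.BURR.Lox38

open Pool.Agent.BURN

variable [RP]

/-- the vertices of the zigzag -/
def zz {G X : Type} [Group G] [MulAction G X] (u : G) (P P' : X) (i : ℕ) : X :=
  u ^ (i / 2) • (if i % 2 = 0 then P' else P)

theorem zz_even {G X : Type} [Group G] [MulAction G X] (u : G) (P P' : X) (j : ℕ) :
    zz u P P' (2 * j) = u ^ j • P' := by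
  unfold zz
  rw [show 2 * j / 2 = j by omega, show 2 * j % 2 = 0 by omega, if_pos rfl]

theorem zz_odd {G X : Type} [Group G] [MulAction G X] (u : G) (P P' : X) (j : ℕ) :
    zz u P P' (2 * j + 1) = u ^ j • P := by
  unfold zz
  rw [show (2 * j + 1) / 2 = j by omega, show (2 * j + 1) % 2 = 1 by omega, if_neg (by norm_num)]

theorem lox_general (hLG : Stmt_LGa) {G X : Type} [Group G] [MulAction G X] {d : X → X → ℕ}
    {δ a : ℕ} (hdg : IsDG d) (hy : Hyp d δ) (hi : IsIso G d) (g g' : G) (P P' : X)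
    (hP : g • P = P) (hP' : g' • P' = P') (h1 : gp d P' (g • P') P ≤ a)
    (h2 : gp d P (g' • P) P' ≤ a) (h3 : a + δ < d P P') :
    (∀ j : ℕ, 2 * j ≤ d P' ((g * g') ^ j • P')) ∧ Lox d (g * g') := by
  set u := g * g' with hu
  have uP' : u • P' = g • P' := by rw [hu, mul_smul, hP']
  have dPP : d P (u • P') = d P P' := by
    rw [uP']
    have := hi g P P'
    rwa [hP] at this
  have seg : ∀ i, d (zz u P P' i) (zz u P P' (i + 1)) = d P P' := by
    intro i
    obtain ⟨j, hj | hj⟩ : ∃ j, i = 2 * j ∨ i = 2 * j + 1 := ⟨i / 2, by omega⟩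
    · rw [hj, zz_even, zz_odd, hi, hdg.symm]
    · rw [hj, zz_odd, show 2 * j + 1 + 1 = 2 * (j + 1) by ring, zz_even, pow_succ, mul_smul, hi,
        dPP]
  have prod : ∀ i, 1 ≤ i → gp d (zz u P P' (i - 1)) (zz u P P' (i + 1)) (zz u P P' i) ≤ a := by
    intro i hi1
    obtain ⟨j, hj | hj⟩ : ∃ j, i = 2 * j + 2 ∨ i = 2 * j + 1 := ⟨(i - 1) / 2, by omega⟩
    · subst hj
      have e1 : zz u P P' (2 * j + 2 - 1) = u ^ j • P := by
        rw [show 2 * j + 2 - 1 = 2 * j + 1 by omega, zz_odd]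
      have e2 : zz u P P' (2 * j + 2) = u ^ j • u • P' := by
        rw [show 2 * j + 2 = 2 * (j + 1) by ring, zz_even, pow_succ, mul_smul]
      have e3 : zz u P P' (2 * j + 2 + 1) = u ^ j • u • P := by
        rw [show 2 * j + 2 + 1 = 2 * (j + 1) + 1 by ring, zz_odd, pow_succ, mul_smul]
      rw [e1, e2, e3, isIso_gp hi]
      have e4 : gp d P (u • P) (u • P') = gp d (g • P) (g • g' • P) (g • P') := by
        rw [hP, uP', hu, mul_smul]
      rw [e4, isIso_gp hi]
      exact h2
    · subst hj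
      have e1 : zz u P P' (2 * j + 1 - 1) = u ^ j • P' := by
        rw [show 2 * j + 1 - 1 = 2 * j by omega, zz_even]
      have e3 : zz u P P' (2 * j + 1 + 1) = u ^ j • u • P' := by
        rw [show 2 * j + 1 + 1 = 2 * (j + 1) by ring, zz_even, pow_succ, mul_smul]
      rw [e1, zz_odd, e3, isIso_gp hi, uP']
      exact h1
  have grow : ∀ j : ℕ, 2 * j ≤ d P' (u ^ j • P') := by
    intro j
    rcases Nat.eq_zero_or_pos j with h0 | h0
    · rw [h0]; exact Nat.zero_le _
    · obtain ⟨-, -, h⟩ := hLG X d δ a (2 * j) (zz u P P') hdg hy (by omega)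
        (fun i hi1 _ => prod i hi1) (fun i _ _ => by rw [seg]; exact h3)
      have := h (2 * j - 1) (by omega)
      rw [show 2 * j - 1 + 1 = 2 * j by omega, Finset.sum_congr rfl (fun i _ => seg i),
        Finset.sum_const, Finset.card_range, smul_eq_mul, zz_even] at this
      have e0 : zz u P P' 0 = P' := by
        have := zz_even u P P' 0
        simpa using this
      rw [e0] at this
      obtain ⟨r, hr⟩ : ∃ r, d P P' = a + δ + 1 + r := ⟨d P P' - (a + δ + 1), by omega⟩
      rw [hr] at this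
      obtain ⟨k, hk⟩ : ∃ k, 2 * j = k + 1 := ⟨2 * j - 1, by omega⟩
      rw [hk] at this ⊢
      rw [show k + 1 - 1 = k by omega] at this
      have e5 : (k + 1) * (a + δ + 1 + r) = k * (a + δ) + (k + 1) + (a + δ) + (k + 1) * r := by
        ring
      rw [e5] at this
      have := Nat.zero_le ((k + 1) * r)
      omega
  refine ⟨grow, ?_⟩
  intro x B
  refine ⟨B + 1 + d x P' , ?_⟩
  have g1 := grow (B + 1 + d x P')
  have t1 := hdg.tri P' x (u ^ (B + 1 + d x P') • P')
  have t2 := hdg.tri x (u ^ (B + 1 + d x P') • x) (u ^ (B + 1 + d x P') • P')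
  have t3 := hi (u ^ (B + 1 + d x P')) x P'
  have t4 := hdg.symm P' x
  omega

theorem Lox38_proof (hLG : Stmt_LGa) (hR : Stmt_KRF) (hF : Stmt_Fix) : Stmt_LoxProd := by
  intro S g g' P P' hg hg' hP hP' hd
  obtain ⟨-, hdb, hib, hhb, -, -, -⟩ := hR S
  have fx : ∀ (h : S.G) (Q : S.X), h • Q = Q → S.π h • S.q (S.bs Q) = S.q (S.bs Q) := by
    intro h Q hQ
    rw [S.qsmul]
    congr 1
    apply Subtype.ext
    rw [S.act]
    show CV.b (h • Q) = CV.b Q
    rw [hQ]
  refine (lox_general hLG hdb hhb hib (S.π g) (S.π g') (S.q (S.bs P)) (S.q (S.bs P'))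
    (fx g P hP) (fx g' P' hP') (a := 8 * M1) ?_ ?_ hd).2
  · exact hF S g P _ hg hP
  · exact hF S g' P' _ hg' hP'

end Pool.Agent.BURR.Lox38
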