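import Pool.Agent.BURR.Cyc

/-! module MaxCyc (4.5) -/

namespace Pool.Agent.BURR

open Pool.Agent.BURN

variable [RP]

theorem MaxCyc_proof : Stmt_MaxCyc := by
  intro G X _ _ d N H
  haveI := H.nonempty
  refine ⟨fun c h i j hc hi he => H.gw.maxcyc_conj (isMaxCyc_iff.2 hc) hi he,
    fun c c' x hc hc' hx h1 h2 =>
      H.gw.maxcyc_eq (isMaxCyc_iff.2 hc) (isMaxCyc_iff.2 hc') hx h1 h2,
    fun c w x hw hx h1 h2 => ?_, fun c h hc => isMaxCyc_iff.1 ((isMaxCyc_iff.2 hc).conj H.iso h),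
    fun c x hc hx hne => ?_⟩
  · obtain ⟨i, hi⟩ := h1
    obtain ⟨j, hj⟩ := h2
    simp only at hi hj
    refine H.gw.maxcyc_conj (isMaxCyc_iff.2 hw) (i := i) (j := i) ?_ ?_
    · rintro rfl; exact hx (by rw [← hi, zpow_zero])
    · rw [hi, ← hj]
      exact mul_inv_eq_iff_eq_mul.2 ((Commute.refl c).zpow_right j)
  · obtain ⟨k, hk⟩ := hx
    simp only at hk
    rw [← hk]
    refine H.gw.lox_zpow hc.1 ?_
    rintro rfl; exact hne (by rw [← hk, zpow_zero])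

end Pool.Agent.BURR
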