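import Pool.Agent.BURN.Basic
import Pool.Agent.BURR.Stmts3

/-! Section 4.10 of the blueprint: killed elements rotate by large angles. -/

namespace Pool.Agent.BURR

open Pool.Agent.BURN

variable [RP]

theorem RotX.bs_smul (S : KSys) (g : S.G) (x : S.X) : g • S.bs x = S.bs (g • x) := by
  apply Subtype.ext
  exact S.act g (S.bs x)

theorem RotX.D_le (S : KSys) (x y : S.X) (B : ℕ) (h : S.D x y ≤ B) : S.d x y ≤ Lam * B := by
  have hL := Lam_pos
  unfold KSys.D Dsc at h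
  have h1 : (S.d x y + Lam - 1) / Lam < B + 1 := by omega
  rw [Nat.div_lt_iff_lt_mul (by omega)] at h1
  have h2 : (B + 1) * Lam = Lam * B + Lam := by ring
  omega

theorem RotX.le_D (S : KSys) (x y : S.X) (B : ℕ) (h : S.d x y ≤ Lam * B) : S.D x y ≤ B := by
  have hL := Lam_pos
  unfold KSys.D Dsc
  have h1 : (S.d x y + Lam - 1) / Lam < B + 1 := by
    rw [Nat.div_lt_iff_lt_mul (by omega)]
    have h2 : (B + 1) * Lam = Lam * B + Lam := by ring
    omega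
  omega

theorem RotX.ap_inj (S : KSys) {i j : S.I} (h : S.ap i = S.ap j) : i = j := by
  have h1 : (CV.a i : CV S.X S.I) = CV.a j := congrArg Subtype.val h
  injection h1

theorem RotX.hor_unique {V I : Type} {i j : I} {u : CV V I} (hi : Hor i u) (hj : Hor j u) :
    i = j := by
  rcases hi with ⟨y, s, rfl⟩ | rfl
  · rcases hj with ⟨y', s', h⟩ | h
    · injection h
    · cases h
  · rcases hj with ⟨y', s', h⟩ | h
    · cases h
    · injection h

/-- a vertex of the horoball is at distance at most rho from the apex -/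
theorem RotX.hor_dist (hDG : Stmt_GamDG) (S : KSys) (hCD : CD S.D S.Y rho) (i : S.I) (u : S.Gm)
    (h : Hor i u.1) : S.dg u (S.ap i) ≤ rho := by
  obtain ⟨hdg, -, -, -, -, h6, -⟩ := hDG S.X S.I S.D S.Y rho hCD
  rcases h with ⟨y, s, h⟩ | h
  · have hok := u.2
    rw [h] at hok
    obtain ⟨h1, h2, h3⟩ : y ∈ YE S.d S.E i ∧ 1 ≤ s ∧ s ≤ rho := hok
    have h4 : dGam S.D S.Y rho u (va S.Y rho i) = rho + 1 - s := h6 i y s u (Or.inr ⟨h2, h⟩)
    have h5 : dGam S.D S.Y rho u (va S.Y rho i) = S.dg u (S.ap i) := rfl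
    omega
  · have h1 : u = S.ap i := Subtype.ext h
    rw [h1]
    have h2 := (hdg.eq_zero (S.ap i) (S.ap i)).2 rfl
    have h3 : dGam S.D S.Y rho (S.ap i) (S.ap i) = S.dg (S.ap i) (S.ap i) := rfl
    omega

/-- the foot of a vertex of small height -/
theorem RotX.foot (hDG : Stmt_GamDG) (S : KSys) (hCD : CD S.D S.Y rho) (u : S.Gm)
    (h : ht rho u.1 ≤ rho) : ∃ y0 : S.X, S.dg u (S.bs y0) = ht rho u.1 := by
  obtain ⟨hdg, -, -, -, -, -, h7, -⟩ := hDG S.X S.I S.D S.Y rho hCD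
  obtain ⟨u1, hok⟩ := u
  cases u1 with
  | b v =>
    refine ⟨v, ?_⟩
    exact (hdg.eq_zero _ _).2 rfl
  | c j y s =>
    have hok' : y ∈ YE S.d S.E j ∧ 1 ≤ s ∧ s ≤ rho := hok
    have h1 := hok'.1
    have h2 := hok'.2.1
    refine ⟨y, ?_⟩
    have h4 : dGam S.D S.Y rho (S.bs y) ⟨CV.c j y s, hok⟩ = s - 0 :=
      h7 j y 0 s (S.bs y) ⟨CV.c j y s, hok⟩ (Nat.zero_le _) (Or.inl ⟨rfl, h1, rfl⟩)
        (Or.inr ⟨h2, rfl⟩)
    exact (hdg.symm (⟨CV.c j y s, hok⟩ : S.Gm) (S.bs y)).trans h4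
  | a j =>
    exfalso
    have h1 : rho + 1 ≤ rho := h
    omega

theorem Rot_proof (hKRF : Stmt_KRF) (hKStab : Stmt_KStab) (hKCD : Stmt_KCD) (hDG : Stmt_GamDG)
    (hLen : Stmt_GamLen) (hLL : Stmt_LL) (hNA : Stmt_NA) : Stmt_Rot := by
  intro S i e z he hne
  by_contra hgp
  push Not at hgp
  obtain ⟨hRF, hdb, hiso, hhyp, hcontr, hlift, hgeo⟩ := hKRF S
  obtain ⟨hs1, hs2, hs3, -, -, -, hs7, -⟩ := hKStab S
  obtain ⟨hCD, -, -⟩ := hKCD S
  obtain ⟨hdg, -, hht, hhor, hbD, h6, -⟩ := hDG S.X S.I S.D S.Y rho hCD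
  obtain ⟨-, hlen⟩ := hLen S.X S.I S.D S.Y rho hCD
  have hrho := rho_eq
  have hN0 := N0_eq
  have hM1 := M1_eq
  obtain ⟨ha1, -⟩ := aa0_ge
  have hdd := dd_ge
  have hLam := Lam_eq
  generalize hPP : 2 ^ (4 * dd) = P at hM1
  have hfix : S.π e • S.q (S.ap i) = S.q (S.ap i) := by
    rw [S.qsmul, (hs1 i e).2 he]
  obtain ⟨γb, hγb⟩ := exists_geod hdb (S.q (S.ap i)) z
  obtain ⟨w, γ, hw1, rfl, hγ, hγq⟩ := hgeo (S.ap i) z γb hγb
  have hn : rho + 1 + M1 < S.dg (S.ap i) w := by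
    have h1 := gp_le_left hdb (S.q w) (S.π e • S.q w) (S.q (S.ap i))
    rw [hdb.symm (S.q w) (S.q (S.ap i))] at h1
    omega
  -- fellow travelling
  have hfel : ∀ t, t ≤ rho + 1 + M1 → S.db (S.q (γ t)) (S.π e • S.q (γ t)) ≤ 2 * dd := by
    intro t htt
    have ht1 : t ≤ S.dg (S.ap i) w := by omega
    have hb1 : Btw S.db (S.q (S.ap i)) (S.q (γ t)) (S.q w) := by
      rw [hγq t ht1]; exact hγb.btw' (by rw [← hw1]; exact ht1)
    have hd1 : S.db (S.q (S.ap i)) (S.q (γ t)) = t := by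
      rw [hγq t ht1]; exact hγb.dist_left (by rw [← hw1]; exact ht1)
    have hd2 : S.db (S.q (S.ap i)) (S.π e • S.q (γ t)) = S.db (S.q (S.ap i)) (S.q (γ t)) := by
      conv_lhs => rw [← hfix]
      exact hiso _ _ _
    have hb2 : Btw S.db (S.q (S.ap i)) (S.π e • S.q (γ t)) (S.π e • S.q w) := by
      unfold Pool.Agent.BURN.Btw at hb1 ⊢
      have h1 : S.db (S.q (S.ap i)) (S.π e • S.q w) = S.db (S.q (S.ap i)) (S.q w) := by
        conv_lhs => rw [← hfix]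
        exact hiso _ _ _
      rw [hd2, hiso, h1]; exact hb1
    exact fellow hdb hhyp hb1 hb2 hd2.symm (by rw [hd1]; omega)
  -- distances to the apices
  have hfar : ∀ t, N0 ≤ t → t ≤ rho + 1 + M1 → ∀ c ∈ Set.range S.ap, N0 ≤ S.dg (γ t) c := by
    rintro t h1 h2 c ⟨j, rfl⟩
    have h3 : S.dg (S.ap i) (γ t) = t := hγ.dist_left (by omega)
    by_cases hj : j = i
    · subst hj
      rw [hRF.dg.symm]; omega
    · have h4 := hRF.sep (S.ap i) ⟨i, rfl⟩ (S.ap j) ⟨j, rfl⟩ (fun h => hj (RotX.ap_inj S h).symm)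
      have h5 := hRF.dg.tri (S.ap i) (γ t) (S.ap j)
      omega
  have hd0 : S.dg (γ N0) (γ (rho + 1 + M1)) = rho + 1 + M1 - N0 :=
    hγ.2.2 N0 (rho + 1 + M1) (by omega) (by omega)
  have hgp2 : IsGeod S.dg (γ N0) (γ (rho + 1 + M1)) (fun k => γ (N0 + k)) := by
    refine ⟨rfl, ?_, ?_⟩
    · show γ (N0 + S.dg (γ N0) (γ (rho + 1 + M1))) = _
      rw [hd0]; congr 1; omega
    · intro a b hab hb
      rw [hd0] at hb
      show S.dg (γ (N0 + a)) (γ (N0 + b)) = b - a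
      rw [hγ.2.2 (N0 + a) (N0 + b) (by omega) (by omega)]
      omega
  obtain ⟨g, hg1, hg2⟩ := (hLL S.G S.Gm S.dg (Set.range S.ap) S.R del1 (2 * f3 + 1) (2 * f3)
    (2 * rho + 2) hRF).2 (γ N0) (γ (rho + 1 + M1)) N0 (2 * dd) (fun k => γ (N0 + k)) e (by omega)
    hgp2 (by omega)
    (by
      intro k hk c hc
      rw [hd0] at hk
      exact hfar (N0 + k) (by omega) (by omega) c hc)
    (by
      intro k hk
      rw [hd0] at hk
      have h3 := hfel (N0 + k) (by omega)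
      rw [S.qsmul, S.qdist] at h3
      exact h3)
  have hg20 : S.dg (γ N0) (g • γ N0) ≤ 2 * dd := hg2 0 (Nat.zero_le _)
  have hg21 : S.dg (γ (rho + 1 + M1)) (g • γ (rho + 1 + M1)) ≤ 2 * dd := by
    have h1 := hg2 (rho + 1 + M1 - N0) (by rw [hd0])
    have h2 : N0 + (rho + 1 + M1 - N0) = rho + 1 + M1 := by omega
    simp only [h2] at h1
    exact h1
  -- g lies in E i
  have hu1d : S.dg (S.ap i) (γ N0) = N0 := hγ.dist_left (by omega)
  have hu1h : rho + 1 ≤ ht rho (γ N0).1 + N0 := by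
    have h1 := hht (γ N0) (S.ap i)
    have h2 : ht rho (S.ap i).1 = rho + 1 := rfl
    have h4 : dGam S.D S.Y rho (γ N0) (S.ap i) = S.dg (γ N0) (S.ap i) := rfl
    rw [hRF.dg.symm] at h4
    omega
  have hu1i : Hor i (γ N0).1 := by
    by_contra hcon
    have h1 := hhor i (S.ap i) (γ N0) (Or.inr rfl) hcon
    have h2 : ht rho (S.ap i).1 = rho + 1 := rfl
    have h4 : dGam S.D S.Y rho (S.ap i) (γ N0) = S.dg (S.ap i) (γ N0) := rfl
    omega
  have hgi : g ∈ S.E i := by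
    obtain ⟨j, hj1, hj2⟩ := hs2 (γ N0) g (by omega)
    rw [RotX.hor_unique hu1i hj1]; exact hj2
  have hg1ne : g ≠ 1 := by
    rintro rfl
    apply hne
    have h1 : (1 * e⁻¹) • S.ap i = S.ap i := (hs1 i _).2 (Subgroup.mul_mem _ hgi (Subgroup.inv_mem _ he))
    have h2 := hs7 i _ hg1 h1
    rw [one_mul] at h2
    exact (Subgroup.inv_mem_iff _).1 h2
  -- the last point
  have hz0d : S.dg (S.ap i) (γ (rho + 1 + M1)) = rho + 1 + M1 := hγ.dist_left (by omega)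
  have hz0n : ¬ Hor i (γ (rho + 1 + M1)).1 := by
    intro h
    have h1 := RotX.hor_dist hDG S hCD i _ h
    rw [hRF.dg.symm] at h1
    omega
  have hz0h : ht rho (γ (rho + 1 + M1)).1 ≤ dd := by
    by_contra hcon
    obtain ⟨j, hj1, hj2⟩ := hs2 (γ (rho + 1 + M1)) g (by omega)
    by_cases hj : i = j
    · subst hj; exact hz0n hj1
    · exact hg1ne (hs3 i j g hj hgi hj2)
  obtain ⟨y0, hy0⟩ := RotX.foot hDG S hCD (γ (rho + 1 + M1)) (by omega)
  have hmv : S.dg (S.bs y0) (S.bs (g • y0)) ≤ 4 * dd := by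
    rw [← RotX.bs_smul]
    have h1 := hRF.dg.tri (S.bs y0) (γ (rho + 1 + M1)) (g • S.bs y0)
    have h2 := hRF.dg.tri (γ (rho + 1 + M1)) (g • γ (rho + 1 + M1)) (g • S.bs y0)
    have h3 := hRF.iso g (γ (rho + 1 + M1)) (S.bs y0)
    rw [hRF.dg.symm (S.bs y0) (γ (rho + 1 + M1))] at h1
    omega
  have hD0 : S.D y0 (g • y0) ≤ P := by
    have h2 : S.D y0 (g • y0) ≤ 2 ^ (S.dg (S.bs y0) (S.bs (g • y0))) :=
      hlen y0 (g • y0) (by
        have h4 : dGam S.D S.Y rho (vb S.Y rho y0) (vb S.Y rho (g • y0)) =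
          S.dg (S.bs y0) (S.bs (g • y0)) := rfl
        omega)
    have h3 : 2 ^ (S.dg (S.bs y0) (S.bs (g • y0))) ≤ 2 ^ (4 * dd) :=
      Nat.pow_le_pow_right (by norm_num) hmv
    rw [hPP] at h3
    exact h2.trans h3
  have hd0' : S.d y0 (g • y0) ≤ Lam * P := RotX.D_le S _ _ _ hD0
  obtain ⟨w', hw', hmax, -⟩ := S.kil i
  obtain ⟨y, hy, hyd⟩ := hNA S.G S.X S.d S.N S.good w' g y0 (Lam * P) hmax
    (by rw [← hw']; exact hgi) hg1ne hd0'
  have hyY : y ∈ S.Y i := by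
    obtain ⟨a, ha, b, hb, hab⟩ := hy
    exact ⟨a, ⟨w', hw', ha⟩, b, ⟨w', hw', hb⟩, hab⟩
  have hDy : S.D y0 y ≤ P + 1 := by
    apply RotX.le_D
    have : Lam * (P + 1) = Lam * P + Lam := by ring
    omega
  have hdgy : S.dg (S.bs y0) (S.bs y) ≤ P + 1 := (hbD y0 y).trans hDy
  have hya : S.dg (S.bs y) (S.ap i) = rho + 1 := by
    have h1 : dGam S.D S.Y rho (S.bs y) (va S.Y rho i) = rho + 1 - 0 :=
      h6 i y 0 (S.bs y) (Or.inl ⟨rfl, hyY, rfl⟩)
    exact h1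
  have h1 := hRF.dg.tri (γ (rho + 1 + M1)) (S.bs y0) (S.ap i)
  have h2 := hRF.dg.tri (S.bs y0) (S.bs y) (S.ap i)
  rw [hRF.dg.symm (S.ap i) (γ (rho + 1 + M1))] at hz0d
  omega

end Pool.Agent.BURR
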