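import Pool.Agent.BURN.Basic
import Pool.Agent.BURR.Stmts3

/-! Module S6 (4.16 (S6)): the quotient of a non-elementary stage is non-elementary. -/

namespace Pool.Agent.BURR

open Pool.Agent.BURN

variable [RP]

namespace S6X

theorem mem_RotS {G : Type} [Group G] {w : G} {n : ℕ} {x : G}
    (hx : x ∈ RotS (Subgroup.zpowers w) n) : ∃ a : ℤ, x = w ^ ((n : ℤ) * a) := by
  unfold RotS at hx
  induction hx using Subgroup.closure_induction with
  | mem x hx =>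
    obtain ⟨e, he, rfl⟩ := hx
    obtain ⟨a, rfl⟩ := Subgroup.mem_zpowers_iff.1 he
    exact ⟨a, by rw [← zpow_natCast, ← zpow_mul, mul_comm]⟩
  | one => exact ⟨0, by simp⟩
  | mul x y _ _ hx hy =>
    obtain ⟨a, rfl⟩ := hx
    obtain ⟨b, rfl⟩ := hy
    exact ⟨a + b, by rw [mul_add, zpow_add]⟩
  | inv x _ hx =>
    obtain ⟨a, rfl⟩ := hx
    exact ⟨-a, by rw [mul_neg, zpow_neg]⟩

theorem disp_zpow {G X : Type} [Group G] [MulAction G X] {d : X → X → ℕ} {N : ℕ}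
    (hG : Good (G := G) d N) {w : G} (hw : Lox d w) (y : X) (a : ℤ) :
    a.natAbs ≤ Rq * d y (w ^ a • y) := by
  rcases Int.natAbs_eq a with h | h
  · have := hG.stab w hw y a.natAbs
    rw [← zpow_natCast, ← h] at this
    exact this
  · have h1 := hG.stab w hw y a.natAbs
    have h2 : d y (w ^ a • y) = d y (w ^ a.natAbs • y) := by
      rw [← hG.iso (w ^ a.natAbs) y (w ^ a • y), smul_smul, ← zpow_natCast, ← zpow_add]
      have h3 : (a.natAbs : ℤ) + a = 0 := by omega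
      rw [h3, zpow_zero, one_smul, hG.dg.symm]
    rw [h2]; exact h1

theorem zpow_eq_one {G X : Type} [Group G] [MulAction G X] {d : X → X → ℕ} {N : ℕ}
    (hG : Good (G := G) d N) {w : G} (hw : Lox d w) {a : ℤ} (h : w ^ a = 1) : a = 0 := by
  obtain ⟨y⟩ := hG.nonempty
  have := disp_zpow hG hw y a
  rw [h, one_smul, (hG.dg.eq_zero y y).2 rfl, mul_zero] at this
  omega

theorem n0_two : 2 ≤ nq := by
  rw [nq_eq]
  have h1 := Nat.mul_pos Rq_pos Lam_pos
  have h2 : 2 ≤ 2 ^ (rho + 7) := by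
    calc 2 = 2 ^ 1 := rfl
      _ ≤ 2 ^ (rho + 7) := Nat.pow_le_pow_right (by norm_num) (by omega)
  calc 2 = 1 * 2 := rfl
    _ ≤ _ := Nat.mul_le_mul h1 h2

theorem not_mem_RotS {G X : Type} [Group G] [MulAction G X] {d : X → X → ℕ} {N : ℕ}
    (hG : Good (G := G) d N) {w : G} (hw : Lox d w) {n : ℕ} (hn : 2 ≤ n) :
    w ∉ RotS (Subgroup.zpowers w) n := by
  intro h
  obtain ⟨a, ha⟩ := mem_RotS h
  have h1 : w ^ ((n : ℤ) * a - 1) = 1 := by
    rw [zpow_sub, ← ha]; simp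
  have h2 := zpow_eq_one hG hw h1
  have h3 : (n : ℤ) * a = 1 := by omega
  rcases Int.mul_eq_one_iff_eq_one_or_neg_one.1 h3 with ⟨h4, _⟩ | ⟨h4, _⟩ <;> omega

theorem lam_mul_D {X : Type} (d : X → X → ℕ) (x y : X) : d x y ≤ Lam * Dsc Lam d x y := by
  unfold Dsc
  have h := Lam_pos
  have h1 := Nat.div_add_mod (d x y + Lam - 1) Lam
  have h2 := Nat.mod_lt (d x y + Lam - 1) h
  omega

/-- the hypothesis of LR for `w ^ j`, `2 j + 1 = n` -/
theorem LR_hyp {G X : Type} [Group G] [MulAction G X] {d : X → X → ℕ} {N : ℕ}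
    (hG : Good (G := G) d N) {w : G} (hw : Lox d w) {n j : ℕ} (hn : nq ≤ n) (hj : 2 * j + 1 = n)
    (g : G) (hg : g * (w ^ j)⁻¹ ∈ RotS (Subgroup.zpowers w) n) (y : X) :
    2 ^ (rho + 5) ≤ Dsc Lam d y (g • y) := by
  obtain ⟨a, ha⟩ := mem_RotS hg
  have hg' : g = w ^ ((n : ℤ) * a + j) := by
    rw [zpow_add, ← ha, zpow_natCast]; group
  have h1 := disp_zpow hG hw y ((n : ℤ) * a + j)
  rw [← hg'] at h1
  have h2 : j ≤ ((n : ℤ) * a + j).natAbs := by
    rcases le_or_gt 0 a with h | h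
    · have : 0 ≤ (n : ℤ) * a := mul_nonneg (by omega) h
      omega
    · have : (n : ℤ) * a ≤ (n : ℤ) * (-1) := mul_le_mul_of_nonneg_left (by omega) (by omega)
      omega
  have h3 := lam_mul_D d y (g • y)
  rw [nq_eq] at hn
  by_contra hlt
  push Not at hlt
  generalize Dsc Lam d y (g • y) = D at *
  have h4 : Rq * d y (g • y) ≤ Rq * Lam * D := by
    rw [mul_assoc]; exact Nat.mul_le_mul_left _ h3
  have hP := Nat.mul_pos Rq_pos Lam_pos
  generalize Rq * Lam = P at *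
  have h5 : P * D + P ≤ P * 2 ^ (rho + 5) := by
    have : P * (D + 1) ≤ P * 2 ^ (rho + 5) := Nat.mul_le_mul_left _ hlt
    rw [mul_add, mul_one] at this; exact this
  have h6 : (2 : ℕ) ^ (rho + 7) = 4 * 2 ^ (rho + 5) := by
    rw [show rho + 7 = rho + 5 + 2 by omega, pow_add]; ring
  rw [h6] at hn
  have h7 : P * (4 * 2 ^ (rho + 5)) = 4 * (P * 2 ^ (rho + 5)) := by ring
  rw [h7] at hn
  omega

section case1
variable (S : KSys)

theorem isEmpty_b [IsEmpty S.I] (u : S.Gm) : ∃ x, u = S.bs x := by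
  obtain ⟨u, hu⟩ := u
  cases u with
  | b x => exact ⟨x, rfl⟩
  | c i y s => exact (IsEmpty.false i).elim
  | a i => exact (IsEmpty.false i).elim

theorem K_bot [IsEmpty S.I] {k : S.G} (hk : k ∈ KK (Set.range (va (YE S.d S.E) rho)) S.R) :
    k = 1 := by
  unfold KK at hk
  have : {r : S.G | ∃ c ∈ Set.range (va (YE S.d S.E) rho), r ∈ S.R c} = ∅ := by
    ext r
    simp
  rw [this, Subgroup.closure_empty] at hk
  exact Subgroup.mem_bot.1 hk

theorem bs_smul (g : S.G) (x : S.X) : g • S.bs x = S.bs (g • x) := by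
  apply Subtype.ext
  rw [S.act]; rfl

theorem ap_smul (g : S.G) (i : S.I) : g • S.ap i = S.ap (g • i) := by
  apply Subtype.ext
  rw [S.act]; rfl

theorem case1 (hGD : Stmt_GamDG) (hGL : Stmt_GamLen) (hKCD : Stmt_KCD) [IsEmpty S.I]
    (h : NE (G := S.G) S.d) : NE (G := S.Gb) S.db := by
  obtain ⟨g, h, hg, hne⟩ := h
  have hinj : ∀ x, S.π x = 1 → x = 1 := fun x hx => K_bot S ((S.pker x).1 hx)
  obtain ⟨hCD, -, -⟩ := hKCD S
  obtain ⟨hdg, -⟩ := hGD _ _ _ _ _ hCD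
  obtain ⟨hlen, -⟩ := hGL _ _ _ _ _ hCD
  refine ⟨S.π g, S.π h, ?_, ?_⟩
  · intro xb B
    obtain ⟨u, rfl⟩ := S.qsurj xb
    obtain ⟨x, rfl⟩ := isEmpty_b S u
    obtain ⟨m, hm⟩ := hg x (Lam * B)
    refine ⟨m, ?_⟩
    have e1 : S.π g ^ m • S.q (S.bs x) = S.q (S.bs (g ^ m • x)) := by
      rw [← map_pow, S.qsmul, bs_smul]
    rw [e1, S.qdist]
    have e2 : dK (dGam (Dsc Lam S.d) (YE S.d S.E) rho)
        (KK (Set.range (va (YE S.d S.E) rho)) S.R) (S.bs x) (S.bs (g ^ m • x)) =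
        S.dg (S.bs x) (S.bs (g ^ m • x)) := by
      unfold dK
      have : {n | ∃ k ∈ KK (Set.range (va (YE S.d S.E) rho)) S.R,
          n = dGam (Dsc Lam S.d) (YE S.d S.E) rho (S.bs x) (k • S.bs (g ^ m • x))} =
          {S.dg (S.bs x) (S.bs (g ^ m • x))} := by
        ext n
        constructor
        · rintro ⟨k, hk, rfl⟩
          rw [K_bot S hk, one_smul]; rfl
        · rintro rfl
          exact ⟨1, one_mem _, by rw [one_smul]; rfl⟩
      rw [this]; exact csInf_singleton _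
    rw [e2]
    obtain ⟨p, hp⟩ := exists_geod hdg (S.bs x) (S.bs (g ^ m • x))
    have h1 := hlen (S.dg (S.bs x) (S.bs (g ^ m • x))) 0 p x (g ^ m • x) hp.2.2 (Nat.zero_le _)
      (fun j _ => by
        obtain ⟨y, hy⟩ := isEmpty_b S (p j)
        rw [hy]; exact le_of_eq rfl)
      (by rw [hp.1]; exact Or.inl rfl) (by
        have := hp.2.1
        change p (S.dg (S.bs x) (S.bs (g ^ m • x))) = _ at this
        rw [this]; exact Or.inl rfl)
    rw [pow_zero, mul_one] at h1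
    refine lt_of_lt_of_le ?_ h1
    have h2 := lam_mul_D S.d x (g ^ m • x)
    have h3 : Lam * B < Lam * S.D x (g ^ m • x) := lt_of_lt_of_le hm h2
    exact lt_of_mul_lt_mul_left h3 (Nat.zero_le _)
  · intro m hm heq
    refine hne m hm ?_
    have h1 : S.π (h * g ^ m * h⁻¹ * (g ^ m)⁻¹) = 1 := by
      rw [map_mul, map_mul, map_mul, map_inv, map_inv, map_pow, heq, mul_inv_cancel]
    have h2 := hinj _ h1
    exact mul_inv_eq_one.1 h2

end case1

theorem consts : bet1 del1 (2 * f3) < alp1 del1 (2 * f3 + 1) (2 * f3) ∧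
    bet1 del1 (2 * f3) < 2 * rho + 2 ∧ aa0 del1 (2 * f3 + 1) (2 * f3) < 2 * rho + 2 ∧
    M1 ≤ rho ∧ 2 * N0 + dd < 2 * rho + 2 := by
  have h1 := aa0_ge.1
  have h2 := rho_eq
  have h3 : aa0 del1 (2 * f3 + 1) (2 * f3) ≤ sig0 del1 (2 * f3 + 1) (2 * f3) := by
    unfold sig0; omega
  have h4 := dd_ge
  refine ⟨?_, by omega, by omega, by omega, by omega⟩
  generalize del1 = e
  generalize f3 = f
  unfold alp1 eta1 tht BB eta
  have := le_max_right (2 * f + 1) (bet1 e (2 * f) + 2 * e + 4 * e + 1 + 4 * e + e)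
  omega

/-- there is a translate of the apex which is different modulo the kernel -/
theorem exists_h1 (hGL : Stmt_GL) (hKRF : Stmt_KRF) (hKStab : Stmt_KStab) (hRot : Stmt_Rot)
    (S : KSys) (i : S.I) (g0 : S.G) (hg0 : g0 ∉ S.E i) :
    ∃ h1 : S.G, S.q (h1 • S.ap i) ≠ S.q (S.ap i) := by
  by_contra hall
  push Not at hall
  obtain ⟨c1, c2, c3, c4, c5⟩ := consts
  obtain ⟨hRF, hdb, hib, hhyp, -, -, -⟩ := hKRF S
  obtain ⟨k1, -, -, -, -, -, -, k8, -⟩ := hKStab S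
  -- minimal translate
  let T : Set ℕ := {n | ∃ g : S.G, g • S.ap i ≠ S.ap i ∧ n = S.dg (S.ap i) (g • S.ap i)}
  have hT : T.Nonempty := ⟨_, g0, fun h => hg0 ((k1 i g0).1 h), rfl⟩
  obtain ⟨g1, hg1, hg1'⟩ := Nat.sInf_mem hT
  have hmin : ∀ g : S.G, g • S.ap i ≠ S.ap i →
      S.dg (S.ap i) (g1 • S.ap i) ≤ S.dg (S.ap i) (g • S.ap i) := fun g hg => by
    rw [← hg1']; exact Nat.sInf_le ⟨g, hg, rfl⟩
  obtain ⟨k, hkK, hk⟩ := (S.qeq (S.ap i) (g1 • S.ap i)).1 (hall g1).symm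
  have hk1 : k ≠ 1 := by
    rintro rfl
    rw [one_smul] at hk
    exact hg1 hk.symm
  have hself : S.dg (S.ap i) (S.ap i) = 0 := (hRF.dg.eq_zero _ _).2 rfl
  rcases hGL _ _ _ _ _ _ _ _ _ hRF (S.ap i) k hkK hk1 with
    ⟨c, hc, hd, hkc⟩ | ⟨c, hc, rr, hrr, hrr1, hd, hb, ha⟩
  · by_cases hvc : S.ap i = c
    · have := hRF.fix c hc k hkc
      rw [← hvc, hk] at this
      exact hg1 this
    · have := hRF.sep (S.ap i) ⟨i, rfl⟩ c hc hvc
      omega
  · have hrc := hRF.fix c hc rr hrr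
    have e1 := gp_add hRF.dg (S.ap i) (k • S.ap i) c
    have e2 := gp_add hRF.dg (S.ap i) (rr⁻¹ • k • S.ap i) c
    have e3 : S.dg (rr⁻¹ • k • S.ap i) c = S.dg (k • S.ap i) c := by
      rw [← hRF.iso rr (rr⁻¹ • k • S.ap i) c, smul_inv_smul, hrc]
    have e4 : rr⁻¹ • k • S.ap i = S.ap i := by
      by_contra hne
      have := hmin (rr⁻¹ * k) (by rw [mul_smul]; exact hne)
      rw [mul_smul, ← hk] at this
      omega
    have e5 : k • S.ap i = rr • S.ap i := by rw [← e4, smul_inv_smul, e4]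
    have e6 : S.dg (k • S.ap i) c = S.dg (S.ap i) c := by
      rw [e5]; nth_rw 1 [← hrc]; exact hRF.iso rr _ _
    have hvc : S.ap i ≠ c := by
      rintro h; rw [← h, hself] at hd; omega
    have hsep := hRF.sep (S.ap i) ⟨i, rfl⟩ c hc hvc
    have hcv : ∀ g : S.G, g • S.ap i ≠ c := by
      intro g hgc
      have := hmin g (by rw [hgc]; exact hvc.symm)
      rw [hgc, ← hk] at this
      omega
    obtain ⟨j, rfl⟩ := hc
    obtain ⟨w, hE, hw, -⟩ := S.kil j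
    have hnot : w ∉ RotS (S.E j) (S.nE j) := by
      rw [hE]
      exact not_mem_RotS S.good hw.1 (n0_two.trans (S.nge j))
    have hR := hRot S j w (S.q (S.ap i)) (by rw [hE]; exact Subgroup.mem_zpowers w) hnot
    rw [S.qsmul, hall w, gp_self hdb] at hR
    by_cases hq : S.q (S.ap i) = S.q (S.ap j)
    · obtain ⟨k', -, hk'⟩ := (S.qeq (S.ap i) (S.ap j)).1 hq
      exact hcv k' hk'
    · have := k8 i j hq
      omega

theorem lox_of_orbit {G X : Type} [Group G] [MulAction G X] {d : X → X → ℕ} (hd : IsDG d)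
    (hi : IsIso G d) (g : G) (x : X) (h : ∀ k : ℕ, 1 ≤ k → k ≤ d x (g ^ k • x)) :
    ∀ (y : X) (k : ℕ), 1 ≤ k → k ≤ d y (g ^ k • y) + 2 * d x y := by
  intro y k hk
  have h1 := h k hk
  have h2 := hd.tri x y (g ^ k • x)
  have h3 := hd.tri y (g ^ k • y) (g ^ k • x)
  rw [hi, hd.symm y x] at h3
  omega

theorem case2 (hLG : Stmt_LGa) (hKRF : Stmt_KRF) (hKStab : Stmt_KStab) (hLR : Stmt_LargeRot)
    (S : KSys) (i : S.I) (h1 : S.G) (hh : S.q (h1 • S.ap i) ≠ S.q (S.ap i)) :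
    NE (G := S.Gb) S.db := by
  obtain ⟨c1, c2, c3, c4, c5⟩ := consts
  obtain ⟨hRF, hdb, hib, hhyp, -, -, -⟩ := hKRF S
  obtain ⟨k1, -, -, -, -, -, -, k8, -⟩ := hKStab S
  obtain ⟨w, hE, hw, -⟩ := S.kil i
  have hodd : Odd (S.nE i) := by
    obtain ⟨t, ht⟩ := S.ndvd i
    have := S.good.odd
    rw [ht] at this
    exact (Nat.odd_mul.1 this).1
  obtain ⟨j, hj⟩ := hodd
  -- rotations
  have LR0 : ∀ z : S.Xb, gp S.db z (S.π (w ^ j) • z) (S.q (S.ap i)) ≤ 2 * N0 := by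
    intro z
    refine hLR S i (w ^ j) z (by rw [hE]; exact Subgroup.npow_mem_zpowers w j) ?_
    intro g hg y _
    rw [hE] at hg
    exact LR_hyp S.good hw.1 (S.nge i) hj.symm g hg y
  obtain ⟨R1, hR1⟩ : ∃ R1, R1 = S.π (w ^ j) := ⟨_, rfl⟩
  obtain ⟨A, hA⟩ : ∃ A, A = S.q (S.ap i) := ⟨_, rfl⟩
  obtain ⟨P, hP⟩ : ∃ P, P = S.π h1 := ⟨_, rfl⟩
  obtain ⟨B, hB⟩ : ∃ B, B = P • A := ⟨_, rfl⟩
  obtain ⟨R2, hR2⟩ : ∃ R2, R2 = P * R1 * P⁻¹ := ⟨_, rfl⟩
  rw [← hR1, ← hA] at LR0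
  have hR1A : R1 • A = A := by
    rw [hR1, hA, S.qsmul, (k1 i (w ^ j)).2 (by rw [hE]; exact Subgroup.npow_mem_zpowers w j)]
  have hR2B : R2 • B = B := by
    rw [hR2, hB, smul_smul, inv_mul_cancel_right, mul_smul, hR1A]
  have LR1 : ∀ z : S.Xb, gp S.db z (R2 • z) B ≤ 2 * N0 := by
    intro z
    have := LR0 (P⁻¹ • z)
    rw [← isIso_gp hib P, smul_inv_smul, ← hB, smul_smul, smul_smul] at this
    rw [hR2]; exact this
  have hAB : 2 * rho + 2 ≤ S.db A B := by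
    have e : B = S.q (S.ap (h1 • i)) := by
      rw [hB, hP, hA, S.qsmul, ap_smul]
    rw [e, hA]
    refine k8 i (h1 • i) ?_
    intro h
    rw [ap_smul] at hh
    exact hh h.symm
  obtain ⟨g, hg⟩ : ∃ g, g = R1 * R2 := ⟨_, rfl⟩
  -- the broken geodesic
  let x : ℕ → S.Xb := fun n => g ^ (n / 2) • (if n % 2 = 0 then B else A)
  have x0 : ∀ k, x (2 * k) = g ^ k • B := by
    intro k
    have h1 : 2 * k / 2 = k := by omega
    have h2 : 2 * k % 2 = 0 := by omega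
    simp only [x, h1, h2, if_true]
  have x1 : ∀ k, x (2 * k + 1) = g ^ k • A := by
    intro k
    have h1 : (2 * k + 1) / 2 = k := by omega
    have h2 : ¬ (2 * k + 1) % 2 = 0 := by omega
    simp only [x, h1, h2, if_false]
  have hgB : g • B = R1 • B := by rw [hg, mul_smul, hR2B]
  have hseg : ∀ n, S.db (x n) (x (n + 1)) = S.db A B := by
    intro n
    rcases Nat.even_or_odd' n with ⟨k, rfl | rfl⟩
    · rw [x0, x1, hib, hdb.symm]
    · rw [x1, show 2 * k + 1 + 1 = 2 * (k + 1) by ring, x0, pow_succ, mul_smul, hib, hgB]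
      nth_rw 1 [← hR1A]
      exact hib _ _ _
  have hgp : ∀ n, 1 ≤ n → gp S.db (x (n - 1)) (x (n + 1)) (x n) ≤ 2 * N0 := by
    intro n hn
    rcases Nat.even_or_odd' n with ⟨k, rfl | rfl⟩
    · obtain ⟨k, rfl⟩ : ∃ k', k = k' + 1 := ⟨k - 1, by omega⟩
      rw [show 2 * (k + 1) - 1 = 2 * k + 1 by omega, x1, x1, x0, pow_succ, mul_smul, mul_smul,
        isIso_gp hib, hgB]
      have e1 : g • A = R1 • (R2 • A) := by rw [hg, mul_smul]
      rw [e1]
      nth_rw 1 [← hR1A]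
      rw [isIso_gp hib]
      exact LR1 A
    · rw [show 2 * k + 1 - 1 = 2 * k by omega, show 2 * k + 1 + 1 = 2 * (k + 1) by ring, x0, x0,
        x1, pow_succ, mul_smul, isIso_gp hib, hgB]
      exact LR0 B
  have hgrow : ∀ k : ℕ, 1 ≤ k → k ≤ S.db B (g ^ k • B) := by
    intro k hk
    obtain ⟨-, -, h3⟩ := hLG S.Xb S.db dd (2 * N0) (2 * k) x hdb hhyp (by omega)
      (fun n hn _ => hgp n hn) (fun n hn _ => by rw [hseg]; omega)
    have h4 := h3 (2 * k - 1) (by omega)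
    rw [show 2 * k - 1 + 1 = 2 * k by omega] at h4
    rw [Finset.sum_congr rfl (fun n _ => hseg n), Finset.sum_const, Finset.card_range,
      smul_eq_mul, x0] at h4
    have e0 : x 0 = B := by
      have := x0 0
      simpa using this
    rw [e0] at h4
    have h5 : (2 * k - 1) * (2 * N0 + dd) ≤ 2 * k * (2 * N0 + dd) :=
      Nat.mul_le_mul_right _ (by omega)
    have h6 : 2 * k * (2 * N0 + dd + 1) ≤ 2 * k * S.db A B :=
      Nat.mul_le_mul_left _ (by omega)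
    rw [mul_add (2 * k) (2 * N0 + dd) 1, mul_one] at h6
    omega
  have hlox : ∀ (y : S.Xb) (k : ℕ), 1 ≤ k → k ≤ S.db y (g ^ k • y) + 2 * S.db B y :=
    lox_of_orbit hdb hib g B hgrow
  refine ⟨g, R1, ?_, ?_⟩
  · intro y b
    refine ⟨b + 2 * S.db B y + 1, ?_⟩
    have := hlox y (b + 2 * S.db B y + 1) (by omega)
    omega
  · intro m hm hcomm
    have hcomm' : ∀ k : ℕ, R1 * g ^ (m * k) = g ^ (m * k) * R1 := by
      intro k
      have hc : Commute R1 (g ^ m) := by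
        unfold Commute SemiconjBy
        exact mul_inv_eq_iff_eq_mul.1 hcomm
      have := hc.pow_right k
      rw [← pow_mul] at this
      exact this
    obtain ⟨k, hk⟩ : ∃ k, k = N0 + 2 * S.db B A + 1 := ⟨_, rfl⟩
    have h2 := LR0 (g ^ (m * k) • A)
    rw [smul_smul, hcomm' k, mul_smul, hR1A, gp_self hdb, hdb.symm] at h2
    have h3 : 1 ≤ m * k := Nat.mul_pos hm (by omega)
    have h4 := hlox A (m * k) h3
    have h5 : k ≤ m * k := Nat.le_mul_of_pos_left _ hm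
    omega

end S6X

theorem S6_proof (hGD : Stmt_GamDG) (hGLen : Stmt_GamLen) (hKCD : Stmt_KCD) (hLG : Stmt_LGa)
    (hGL : Stmt_GL) (hKRF : Stmt_KRF) (hKStab : Stmt_KStab) (hRot : Stmt_Rot)
    (hLR : Stmt_LargeRot) : Stmt_S6 := by
  intro S hNE
  rcases isEmpty_or_nonempty S.I with hI | ⟨⟨i⟩⟩
  · exact S6X.case1 S hGD hGLen hKCD hNE
  · obtain ⟨g, h, -, hne⟩ := hNE
    have hex : ∃ g0, g0 ∉ S.E i := by
      by_contra hall
      push Not at hall
      obtain ⟨w, hE, -, -⟩ := S.kil i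
      have h1 := hall g
      have h2 := hall h
      rw [hE] at h1 h2
      obtain ⟨a, rfl⟩ := Subgroup.mem_zpowers_iff.1 h1
      obtain ⟨b, rfl⟩ := Subgroup.mem_zpowers_iff.1 h2
      refine hne 1 le_rfl ?_
      rw [pow_one, ← zpow_add, ← zpow_neg, ← zpow_add]
      congr 1
      omega
    obtain ⟨g0, hg0⟩ := hex
    obtain ⟨h1, hh⟩ := S6X.exists_h1 hGL hKRF hKStab hRot S i g0 hg0
    exact S6X.case2 hLG hKRF hKStab hLR S i h1 hh

end Pool.Agent.BURR
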