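import Pool.Agent.BURR.Stmts3
import Pool.Agent.BURN.Basic
import Pool.Agent.BURN.GamAct
import Pool.Agent.BURN.GamDG

/-! Section 4.16 of the blueprint: the step theorem (assembly). -/

namespace Pool.Agent.BURR

open Pool.Agent.BURN

variable [RP]

namespace StepX

/-! ### part 1: from a killing system to the properties of the step -/

theorem not_lox_of_pow {G X : Type} [Group G] [MulAction G X] {d : X → X → ℕ} {g : G} {n : ℕ}
    (hX : Nonempty X) (hn : 1 ≤ n) (h : g ^ n = 1) : ¬ Lox d g := by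
  intro hl
  obtain ⟨x⟩ := hX
  obtain ⟨m, hm⟩ := hl x (∑ m ∈ Finset.range n, d x (g ^ m • x))
  have h1 : g ^ m = g ^ (m % n) := pow_eq_pow_mod m h
  have h2 : d x (g ^ (m % n) • x) ≤ ∑ m ∈ Finset.range n, d x (g ^ m • x) :=
    Finset.single_le_sum (f := fun m => d x (g ^ m • x)) (fun _ _ => Nat.zero_le _)
      (Finset.mem_range.2 (Nat.mod_lt m (by omega)))
  rw [h1] at hm
  omega

theorem mem_rotS {G : Type} [Group G] {E : Subgroup G} {w : G} {n : ℕ}
    (hE : E = Subgroup.zpowers w) (x : G) : x ∈ RotS E n ↔ ∃ e ∈ E, x = e ^ n := by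
  have hc : ∀ a ∈ E, ∀ b ∈ E, Commute a b := by
    intro a ha b hb
    rw [hE] at ha hb
    obtain ⟨i, rfl⟩ := Subgroup.mem_zpowers_iff.1 ha
    obtain ⟨j, rfl⟩ := Subgroup.mem_zpowers_iff.1 hb
    exact (Commute.refl w).zpow_zpow i j
  constructor
  · intro h
    unfold RotS at h
    induction h using Subgroup.closure_induction with
    | mem y hy => exact hy
    | one => exact ⟨1, E.one_mem, by simp⟩
    | mul a b _ _ ha hb =>
      obtain ⟨e1, h1, rfl⟩ := ha
      obtain ⟨e2, h2, rfl⟩ := hb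
      exact ⟨e1 * e2, E.mul_mem h1 h2, ((hc e1 h1 e2 h2).mul_pow n).symm⟩
    | inv a _ ha =>
      obtain ⟨e1, h1, rfl⟩ := ha
      exact ⟨e1⁻¹, E.inv_mem h1, (inv_pow e1 n).symm⟩
  · rintro ⟨e, he, rfl⟩
    exact Subgroup.subset_closure ⟨e, he, rfl⟩

theorem kSys_kk (S : KSys) (nE : Subgroup S.G → ℕ) (hnE : ∀ i, nE (S.E i) = S.nE i) :
    KK (Set.range (va (YE S.d S.E) rho)) S.R =
      Subgroup.closure {x | ∃ E : Subgroup S.G, Kil S.d E ∧ ∃ e ∈ E, x = e ^ nE E} := by
  apply le_antisymm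
  · unfold KK
    rw [Subgroup.closure_le]
    rintro r ⟨c, ⟨i, rfl⟩, hr⟩
    rw [S.rot i] at hr
    unfold RotS at hr
    refine Subgroup.closure_mono ?_ hr
    rintro x ⟨e, he, rfl⟩
    exact ⟨S.E i, S.kil i, e, he, by rw [hnE]⟩
  · rw [Subgroup.closure_le]
    rintro x ⟨E, hE, e, he, rfl⟩
    obtain ⟨i, rfl⟩ := S.all E hE
    refine Subgroup.subset_closure ⟨va (YE S.d S.E) rho i, ⟨i, rfl⟩, ?_⟩
    rw [S.rot i, hnE]
    exact Subgroup.subset_closure ⟨e, he, rfl⟩

theorem kSys_bs (S : KSys) (g : S.G) (x : S.X) : g • S.bs x = S.bs (g • x) :=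
  Subtype.ext (S.act g (S.bs x))

theorem kSys_good (hKRF : Stmt_KRF) (hH34 : Stmt_H34) (hH2 : Stmt_H2) (hH6 : Stmt_H6)
    (S : KSys) : Good (G := S.Gb) S.db S.N := by
  obtain ⟨x⟩ := S.good.nonempty
  obtain ⟨_, h2, h3, h4, _, _, _⟩ := hKRF S
  exact
    { dg := h2
      hyp := h4
      iso := h3
      odd := S.good.odd
      nonempty := ⟨S.q (S.bs x)⟩
      acyl := hH2 S
      tors := (hH34 S).2.1
      stab := fun g hg x m => ((hH34 S).2.2 g hg x m).trans (Nat.mul_le_mul_right _ Rr_le_Rq)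
      near := hH6 S }

theorem kSys_rel (hKCD : Stmt_KCD) (hKRF : Stmt_KRF) (hKStab : Stmt_KStab) (hH34 : Stmt_H34)
    (hS3 : Stmt_S3) (hS5 : Stmt_S5) (hS5b : Stmt_S5b) (hS6 : Stmt_S6) (hLB2 : Stmt_LB2)
    (hMS : Stmt_MStep) (S : KSys) (nE : Subgroup S.G → ℕ) (hnE : ∀ i, nE (S.E i) = S.nE i) :
    StepRel (G := S.G) (X := S.X) (G' := S.Gb) (X' := S.Xb) S.d S.db S.π
      (fun x => S.q (S.bs x)) nE := by
  obtain ⟨x0⟩ := S.good.nonempty
  have hXb : Nonempty S.Xb := ⟨S.q (S.bs x0)⟩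
  have hN : 1 ≤ S.N := S.good.odd.pos
  obtain ⟨hr1, _, _, _, hle, _, _⟩ := hKRF S
  obtain ⟨_, _, _, hk4, hk5, hk6, _, _, _⟩ := hKStab S
  have hord : ∀ i, ∀ e ∈ S.E i, (S.π e = 1 ↔ e ∈ RotS (S.E i) (S.nE i)) := fun i e he =>
    (S.pker e).trans (hk4 i e he)
  exact
    { surj := S.psurj
      ker := by
        intro g
        rw [S.pker g, kSys_kk S nE hnE]
      contr := by
        intro x y
        refine (hle _ _).trans ?_
        exact (GamDG_proof S.X S.I S.D S.Y rho (hKCD S).1).2.2.2.2.1 x y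
      equiv := by
        intro g x
        show S.q (S.bs (g • x)) = S.π g • S.q (S.bs x)
        rw [S.qsmul, kSys_bs]
      ord := by
        intro E hE e he
        obtain ⟨i, rfl⟩ := S.all E hE
        obtain ⟨w, hw, _⟩ := S.kil i
        rw [hord i e he, mem_rotS hw, hnE]
      nonlox := by
        intro gb hgb
        obtain ⟨g, hg, h⟩ := (hH34 S).1 gb hgb
        refine ⟨g, hg, ?_⟩
        rcases h with h | ⟨i, hi⟩
        · exact Or.inl h
        · exact Or.inr ⟨S.E i, S.kil i, hi⟩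
      killed := by
        intro E hE e he
        obtain ⟨i, rfl⟩ := S.all E hE
        exact not_lox_of_pow hXb (nq_pos.trans (S.nge i)) (hk6 i e he)
      old := by
        intro g hg
        refine not_lox_of_pow hXb hN (n := S.N) ?_
        rw [← map_pow, S.good.tors g hg, map_one]
      s3 := hS3 S
      s5 := by
        intro E E' e e' h hE hE' he he' hne heq
        obtain ⟨i, rfl⟩ := S.all E hE
        obtain ⟨j, rfl⟩ := S.all E' hE'
        have h1 : e ∉ RotS (S.E i) (S.nE i) := fun hh => hne ((hord i e he).2 hh)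
        obtain ⟨h', e1, e2⟩ := hS5 S i j e e' h he h1 he' heq
        refine ⟨h', e1, ?_⟩
        intro x
        rw [← e2]
        exact S.conj h' i x
      s5' := by
        intro E g e h hg hg1 hE he hne
        obtain ⟨i, rfl⟩ := S.all E hE
        have h1 : e ∉ RotS (S.E i) (S.nE i) := fun hh => hne ((hord i e he).2 hh)
        exact hS5b S i g e h hg hg1 he h1
      ne := hS6 S
      mstep := hMS S
      lox := by
        intro g hg hE z hz
        exact (hLB2 S g hg (fun i => hE (S.E i) (S.kil i)) z hz).2.1 }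

/-! ### part 2: construction of the killing system -/

section build

variable {G X : Type} [Group G] [MulAction G X] {d : X → X → ℕ}

theorem minSet_nonempty (d : X → X → ℕ) (hn : Nonempty X) (w : G) : (MinSet d w).Nonempty := by
  obtain ⟨x0⟩ := hn
  obtain ⟨m, ⟨x, hx⟩, hmin⟩ := Nat.lt_wfRel.wf.has_min {n : ℕ | ∃ x, d x (w • x) = n} ⟨_, x0, rfl⟩
  refine ⟨x, fun y => ?_⟩
  have := hmin _ ⟨y, rfl⟩
  rw [hx]
  exact not_lt.1 this

/-- conjugate subgroup -/
def cj (g : G) (E : Subgroup G) : Subgroup G := E.map (MulAut.conj g).toMonoidHom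

theorem mem_cj (g x : G) (E : Subgroup G) : x ∈ cj g E ↔ g⁻¹ * x * g ∈ E := by
  unfold cj
  rw [Subgroup.mem_map]
  constructor
  · rintro ⟨y, hy, rfl⟩
    have : g⁻¹ * (MulAut.conj g).toMonoidHom y * g = y := by
      simp [MulAut.conj_apply, mul_assoc]
    rw [this]
    exact hy
  · intro h
    refine ⟨_, h, ?_⟩
    simp [MulAut.conj_apply, mul_assoc]

theorem cj_zpowers (g w : G) : cj g (Subgroup.zpowers w) = Subgroup.zpowers (g * w * g⁻¹) := by
  unfold cj
  rw [MonoidHom.map_zpowers]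
  rfl

theorem cj_one (E : Subgroup G) : cj 1 E = E := by
  ext x
  rw [mem_cj]
  simp

theorem cj_mul (g h : G) (E : Subgroup G) : cj (g * h) E = cj g (cj h E) := by
  ext x
  rw [mem_cj, mem_cj, mem_cj]
  simp [mul_assoc]

theorem conj_pow' (g w : G) (m : ℕ) : (g * w * g⁻¹) ^ m = g * w ^ m * g⁻¹ := conj_pow

theorem disp_conj (hi : IsIso G d) (g w : G) (x : X) :
    d x ((g * w * g⁻¹) • x) = d (g⁻¹ • x) (w • g⁻¹ • x) := by
  rw [← hi g (g⁻¹ • x) (w • g⁻¹ • x), smul_inv_smul, mul_smul, mul_smul]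

theorem isMaxCyc_conj (hi : IsIso G d) (g : G) {w : G} (h : IsMaxCyc d w) :
    IsMaxCyc d (g * w * g⁻¹) := by
  constructor
  · intro x B
    obtain ⟨m, hm⟩ := h.1 (g⁻¹ • x) B
    refine ⟨m, ?_⟩
    rw [conj_pow', disp_conj hi]
    exact hm
  · rintro a ⟨m, hm, e⟩
    have h1 : (g⁻¹ * a * g) * w ^ m * (g⁻¹ * a * g)⁻¹ = w ^ m := by
      rw [conj_pow'] at e
      have h3 : g⁻¹ * (a * (g * w ^ m * g⁻¹) * a⁻¹) * g = w ^ m := by
        rw [e]; group
      have h4 : (g⁻¹ * a * g) * w ^ m * (g⁻¹ * a * g)⁻¹ =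
          g⁻¹ * (a * (g * w ^ m * g⁻¹) * a⁻¹) * g := by group
      rw [h4, h3]
    have h2 := h.2 _ ⟨m, hm, h1⟩
    rw [← cj_zpowers, mem_cj]
    exact h2

theorem kil_cj (hi : IsIso G d) (g : G) {E : Subgroup G} (h : Kil d E) : Kil d (cj g E) := by
  obtain ⟨w, hw, hm, x, hx⟩ := h
  refine ⟨g * w * g⁻¹, ?_, isMaxCyc_conj hi g hm, g • x, ?_⟩
  · rw [hw, cj_zpowers]
  · rw [disp_conj hi, inv_smul_smul]
    exact hx

theorem minSet_conj (hi : IsIso G d) (g w : G) {x : X} (hx : x ∈ MinSet d w) :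
    g • x ∈ MinSet d (g * w * g⁻¹) := by
  intro y
  rw [disp_conj hi, disp_conj hi, inv_smul_smul]
  exact hx _

/-- the set of killed subgroups -/
def KI (G : Type) {X : Type} [Group G] [MulAction G X] (d : X → X → ℕ) : Type :=
  {E : Subgroup G // Kil d E}

/-- action by conjugation on the killed subgroups -/
@[reducible] def kiAct (hi : IsIso G d) : MulAction G (KI G d) where
  smul g i := ⟨cj g i.1, kil_cj hi g i.2⟩
  one_smul i := Subtype.ext (cj_one i.1)
  mul_smul g h i := Subtype.ext (cj_mul g h i.1)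

/-- the killed subgroups as a family -/
def kE (G : Type) {X : Type} [Group G] [MulAction G X] (d : X → X → ℕ) (i : KI G d) :
    Subgroup G := i.1

theorem smul_YE (hi : IsIso G d) (g : G) (i j : KI G d) (hj : j.1 = cj g i.1) (y : X)
    (hy : y ∈ YE d (kE G d) i) : g • y ∈ YE d (kE G d) j := by
  obtain ⟨a, ⟨w, hw, ha⟩, b, ⟨w', hw', hb⟩, hab⟩ := hy
  refine ⟨g • a, ⟨g * w * g⁻¹, ?_, minSet_conj hi g w ha⟩, g • b,
    ⟨g * w' * g⁻¹, ?_, minSet_conj hi g w' hb⟩, ?_⟩
  · show j.1 = _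
    have hw1 : i.1 = Subgroup.zpowers w := hw
    rw [hj, hw1, cj_zpowers]
  · show j.1 = _
    have hw1 : i.1 = Subgroup.zpowers w' := hw'
    rw [hj, hw1, cj_zpowers]
  · unfold Pool.Agent.BURN.Btw at hab ⊢
    rw [hi, hi, hi]
    exact hab

theorem YE_nonempty (hdg : IsDG d) (hn : Nonempty X) (i : KI G d) :
    (YE d (kE G d) i).Nonempty := by
  obtain ⟨w, hw, _⟩ := i.2
  obtain ⟨x, hx⟩ := minSet_nonempty d hn w
  refine ⟨x, x, ⟨w, hw, hx⟩, x, ⟨w, hw, hx⟩, ?_⟩
  show d x x + d x x = d x x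
  have : d x x = 0 := (hdg.eq_zero x x).2 rfl
  omega

/-- the action on the cone-off -/
@[reducible] def gamAct (hi : IsIso G d) : MulAction G (Gam (YE d (kE G d)) rho) :=
  letI := kiAct hi
  { smul := fun g u => ⟨g • u.1, by
      obtain ⟨u, hu⟩ := u
      cases u with
      | b v => trivial
      | c i y s => exact ⟨smul_YE hi g i (g • i) rfl y hu.1, hu.2⟩
      | a i => trivial⟩
    one_smul := by
      rintro ⟨u, hu⟩
      apply Subtype.ext
      show (1 : G) • u = u
      cases u with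
      | b v => exact congrArg CV.b (one_smul G v)
      | c i y s =>
        show CV.c ((1 : G) • i) ((1 : G) • y) s = CV.c i y s
        rw [one_smul, one_smul]
      | a i => exact congrArg CV.a (one_smul G i)
    mul_smul := by
      rintro g h ⟨u, hu⟩
      apply Subtype.ext
      show (g * h) • u = g • (h • u)
      cases u with
      | b v => exact congrArg CV.b (mul_smul g h v)
      | c i y s =>
        show CV.c ((g * h) • i) ((g * h) • y) s = CV.c (g • h • i) (g • h • y) s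
        rw [mul_smul, mul_smul]
      | a i => exact congrArg CV.a (mul_smul g h i) }

theorem gam_iso (hi : IsIso G d) (D : X → X → ℕ) (hD : IsIso G D) :
    letI := kiAct hi; letI := gamAct hi
    ∀ (g : G) (u w : Gam (YE d (kE G d)) rho),
      dGam D (YE d (kE G d)) rho (g • u) (g • w) = dGam D (YE d (kE G d)) rho u w := by
  letI := kiAct hi
  letI := gamAct hi
  intro g u w
  have hadj : ∀ (g : G) (u w : CV X (KI G d)), CAdj D rho u w → CAdj D rho (g • u) (g • w) := by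
    intro g u w h
    cases u with
    | b x =>
      cases w with
      | b x' => show D (g • x) (g • x') = 1; rw [hD]; exact h
      | c i y s => exact ⟨h.1, congrArg (g • ·) h.2⟩
      | a i => exact h
    | c i y s =>
      cases w with
      | b x' => exact ⟨h.1, congrArg (g • ·) h.2⟩
      | c j y' s' =>
        obtain ⟨e, h2⟩ := h
        refine ⟨congrArg (g • ·) e, ?_⟩
        rcases h2 with ⟨e2, h3⟩ | ⟨e2, h3⟩
        · exact Or.inl ⟨congrArg (g • ·) e2, h3⟩
        · right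
          refine ⟨e2, ?_⟩
          rw [hD]
          exact h3
      | a j => exact ⟨congrArg (g • ·) h.1, h.2⟩
    | a j =>
      cases w with
      | b x' => exact h
      | c i y s => exact ⟨congrArg (g • ·) h.1, h.2⟩
      | a i => exact h
  have hadj2 : ∀ (g : G) (u w : Gam (YE d (kE G d)) rho),
      (SimpleGraph.fromRel (fun u w : Gam (YE d (kE G d)) rho => CAdj D rho u.1 w.1)).Adj u w →
      (SimpleGraph.fromRel (fun u w : Gam (YE d (kE G d)) rho => CAdj D rho u.1 w.1)).Adj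
        (g • u) (g • w) := by
    intro g u w h
    rw [SimpleGraph.fromRel_adj] at h ⊢
    refine ⟨fun e => h.1 (smul_left_cancel g e), ?_⟩
    rcases h.2 with h | h
    · exact Or.inl (hadj g _ _ h)
    · exact Or.inr (hadj g _ _ h)
  unfold dGam
  exact GamActAux.dist_eq_of_equiv _ (fun u => g • u) (fun u => g⁻¹ • u) (hadj2 g) (hadj2 g⁻¹)
    (fun u => inv_smul_smul g u) u w

theorem dsc_iso (hi : IsIso G d) : IsIso G (Dsc Lam d) := by
  intro g x y
  unfold Dsc
  rw [hi]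

/-- the rotation groups -/
def rR (d : X → X → ℕ) (nE : Subgroup G → ℕ) (u : Gam (YE d (kE G d)) rho) : Subgroup G :=
  match u.1 with
  | .a i => RotS i.1 (nE i.1)
  | _ => ⊥

/-- the kernel -/
def kK (d : X → X → ℕ) (nE : Subgroup G → ℕ) : Subgroup G :=
  KK (Set.range (va (YE d (kE G d)) rho)) (rR d nE)

theorem rotS_conj (g : G) {E : Subgroup G} {n : ℕ} {r : G} (hr : r ∈ RotS E n) :
    g * r * g⁻¹ ∈ RotS (cj g E) n := by
  unfold RotS at hr
  induction hr using Subgroup.closure_induction with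
  | mem y hy =>
    obtain ⟨e, he, rfl⟩ := hy
    refine Subgroup.subset_closure ⟨g * e * g⁻¹, ?_, (conj_pow' g e n).symm⟩
    rw [mem_cj]
    have : g⁻¹ * (g * e * g⁻¹) * g = e := by group
    rw [this]
    exact he
  | one =>
    have : g * 1 * g⁻¹ = 1 := by group
    rw [this]
    exact Subgroup.one_mem _
  | mul a b _ _ ha hb =>
    have : g * (a * b) * g⁻¹ = (g * a * g⁻¹) * (g * b * g⁻¹) := by group
    rw [this]
    exact Subgroup.mul_mem _ ha hb
  | inv a _ ha =>
    have : g * a⁻¹ * g⁻¹ = (g * a * g⁻¹)⁻¹ := by group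
    rw [this]
    exact Subgroup.inv_mem _ ha

theorem kK_normal (hi : IsIso G d) (nE : Subgroup G → ℕ)
    (hnE : ∀ (E E' : Subgroup G) (g : G), Kil d E → (∀ x, x ∈ E' ↔ g⁻¹ * x * g ∈ E) →
      nE E' = nE E) : (kK d nE).Normal := by
  constructor
  intro n hn g
  unfold kK KK at hn
  induction hn using Subgroup.closure_induction with
  | mem y hy =>
    obtain ⟨c, ⟨i, rfl⟩, hr⟩ := hy
    have hr' : y ∈ RotS i.1 (nE i.1) := hr
    have h1 := rotS_conj g hr'
    rw [← hnE i.1 (cj g i.1) g i.2 (fun x => mem_cj g x i.1)] at h1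
    exact Subgroup.subset_closure ⟨_, ⟨⟨cj g i.1, kil_cj hi g i.2⟩, rfl⟩, h1⟩
  | one =>
    have : g * 1 * g⁻¹ = 1 := by group
    rw [this]
    exact Subgroup.one_mem _
  | mul a b _ _ ha hb =>
    have : g * (a * b) * g⁻¹ = (g * a * g⁻¹) * (g * b * g⁻¹) := by group
    rw [this]
    exact Subgroup.mul_mem _ ha hb
  | inv a _ ha =>
    have : g * a⁻¹ * g⁻¹ = (g * a * g⁻¹)⁻¹ := by group
    rw [this]
    exact Subgroup.inv_mem _ ha

end build

section quot

variable {G Z : Type} [Group G] [MulAction G Z] (K : Subgroup G)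

/-- orbit equivalence -/
def oset (Z : Type) [MulAction G Z] : Setoid Z where
  r u w := ∃ k ∈ K, k • u = w
  iseqv :=
    { refl := fun u => ⟨1, K.one_mem, one_smul G u⟩
      symm := by
        rintro u w ⟨k, hk, rfl⟩
        exact ⟨k⁻¹, K.inv_mem hk, inv_smul_smul k u⟩
      trans := by
        rintro u w z ⟨k, hk, rfl⟩ ⟨k', hk', rfl⟩
        exact ⟨k' * k, K.mul_mem hk' hk, mul_smul k' k u⟩ }

/-- orbit space -/
def OQ (Z : Type) [MulAction G Z] : Type := Quotient (oset K Z)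

/-- the projection -/
def oq (u : Z) : OQ K Z := Quotient.mk (oset K Z) u

theorem oq_surj : Function.Surjective (oq K (Z := Z)) := Quotient.mk_surjective

theorem oq_eq (u w : Z) : oq K u = oq K w ↔ ∃ k ∈ K, k • u = w :=
  ⟨fun h => Quotient.exact h, fun h => Quotient.sound h⟩

theorem dK_mem' (d : Z → Z → ℕ) (x y : Z) : ∃ k ∈ K, d x (k • y) = dK d K x y := by
  have hne : {n | ∃ k ∈ K, n = d x (k • y)}.Nonempty := ⟨_, 1, K.one_mem, rfl⟩
  obtain ⟨k, hk, e⟩ := Nat.sInf_mem hne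
  exact ⟨k, hk, e.symm⟩

theorem dK_le' {d : Z → Z → ℕ} {x y : Z} {k : G} (hk : k ∈ K) : dK d K x y ≤ d x (k • y) :=
  Nat.sInf_le ⟨k, hk, rfl⟩

theorem dK_inv_le {d : Z → Z → ℕ} (hi : ∀ (g : G) x y, d (g • x) (g • y) = d x y) {x y : Z}
    {k k' : G} (hk : k ∈ K) (hk' : k' ∈ K) : dK d K (k • x) (k' • y) ≤ dK d K x y := by
  obtain ⟨k1, hk1, e1⟩ := dK_mem' K d x y
  have h1 : dK d K (k • x) (k' • y) ≤ d (k • x) ((k * k1 * k'⁻¹) • k' • y) :=
    dK_le' K (K.mul_mem (K.mul_mem hk hk1) (K.inv_mem hk'))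
  rw [mul_smul, inv_smul_smul, mul_smul, hi, e1] at h1
  exact h1

/-- the quotient distance -/
noncomputable def odist (d : Z → Z → ℕ) (hi : ∀ (g : G) x y, d (g • x) (g • y) = d x y) :
    OQ K Z → OQ K Z → ℕ :=
  Quotient.lift₂ (dK d K) (by
    rintro u w u' w' ⟨k, hk, rfl⟩ ⟨k', hk', rfl⟩
    refine le_antisymm ?_ (dK_inv_le K hi hk hk')
    have := dK_inv_le K hi (x := k • u) (y := k' • w) (K.inv_mem hk) (K.inv_mem hk')
    rwa [inv_smul_smul, inv_smul_smul] at this)

theorem odist_eq (d : Z → Z → ℕ) (hi : ∀ (g : G) x y, d (g • x) (g • y) = d x y) (u w : Z) :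
    odist K d hi (oq K u) (oq K w) = dK d K u w := rfl

/-- the action of the quotient group on the orbit space -/
@[reducible] def oact [K.Normal] : MulAction (G ⧸ K) (OQ K Z) where
  smul := fun gb xb => Quotient.liftOn₂' gb xb (fun g x => oq K (g • x)) (by
    intro g1 u1 g2 u2 hg hu
    obtain ⟨k, hk, rfl⟩ := hu
    rw [QuotientGroup.leftRel_apply] at hg
    rw [oq_eq]
    -- g2 k u1 = (g2 k g1⁻¹) g1 u1
    refine ⟨g2 * k * g1⁻¹, ?_, ?_⟩
    · have h1 : g2 * k * g1⁻¹ = g1 * ((g1⁻¹ * g2) * k) * g1⁻¹ := by group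
      rw [h1]
      exact Subgroup.Normal.conj_mem inferInstance _ (K.mul_mem hg hk) g1
    · rw [mul_smul, inv_smul_smul, mul_smul])
  one_smul := by
    intro xb
    obtain ⟨x, rfl⟩ := oq_surj K xb
    exact congrArg (oq K) (one_smul G x)
  mul_smul := by
    intro gb hb xb
    obtain ⟨x, rfl⟩ := oq_surj K xb
    obtain ⟨g, rfl⟩ := QuotientGroup.mk_surjective gb
    obtain ⟨h, rfl⟩ := QuotientGroup.mk_surjective hb
    exact congrArg (oq K) (mul_smul g h x)

end quot

section mk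

variable {G X : Type} [Group G] [MulAction G X] {d : X → X → ℕ}

theorem near_ex (hdg : IsDG d) (hn : Nonempty X) (i : KI G d) (x : X) :
    ∃ p, IsNear (Dsc Lam d) (YE d (kE G d) i) x p := by
  obtain ⟨y0, hy0⟩ := YE_nonempty hdg hn i
  obtain ⟨m, ⟨y, hy, e⟩, hmin⟩ := Nat.lt_wfRel.wf.has_min
    {n : ℕ | ∃ y ∈ YE d (kE G d) i, Dsc Lam d x y = n} ⟨_, y0, hy0, rfl⟩
  refine ⟨y, hy, fun w hw => ?_⟩
  have := hmin _ ⟨w, hw, rfl⟩
  rw [e]
  exact not_lt.1 this

/-- the killing system of a good stage -/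
noncomputable def mkS (d : X → X → ℕ) (N : ℕ) (nE : Subgroup G → ℕ) (hG : Good (G := G) d N)
    (h1 : ∀ E, Kil d E → nq ≤ nE E ∧ nE E ∣ N)
    (h2 : ∀ (E E' : Subgroup G) (g : G), Kil d E → (∀ x, x ∈ E' ↔ g⁻¹ * x * g ∈ E) →
      nE E' = nE E) : KSys :=
  letI := kiAct hG.iso
  letI := gamAct hG.iso
  haveI := kK_normal hG.iso nE h2
  letI := oact (kK d nE) (Z := Gam (YE d (kE G d)) rho)
  { G := G
    X := X
    I := KI G d
    Gb := G ⧸ kK d nE
    Xb := OQ (kK d nE) (Gam (YE d (kE G d)) rho)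
    d := d
    N := N
    E := kE G d
    nE := fun i => nE i.1
    R := rR d nE
    π := QuotientGroup.mk' (kK d nE)
    q := oq (kK d nE)
    db := odist (kK d nE) (dGam (Dsc Lam d) (YE d (kE G d)) rho)
      (gam_iso hG.iso (Dsc Lam d) (dsc_iso hG.iso))
    pr := fun i x => Classical.choose (near_ex hG.dg hG.nonempty i x)
    good := hG
    kil := fun i => i.2
    all := fun E' hE' => ⟨⟨E', hE'⟩, rfl⟩
    inj := fun i j h => Subtype.ext h
    conj := fun g i x => mem_cj g x i.1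
    nconj := fun g i => h2 i.1 (cj g i.1) g i.2 (fun x => mem_cj g x i.1)
    nge := fun i => (h1 i.1 i.2).1
    ndvd := fun i => (h1 i.1 i.2).2
    act := fun g u => rfl
    rot := fun i => rfl
    psurj := QuotientGroup.mk'_surjective _
    pker := fun g => QuotientGroup.eq_one_iff g
    qsurj := oq_surj _
    qeq := oq_eq _
    qdist := fun u w => rfl
    qsmul := fun g u => rfl
    prn := fun i x => Classical.choose_spec (near_ex hG.dg hG.nonempty i x) }

end mk

end StepX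

theorem Step_proof (hKCD : Stmt_KCD) (hKRF : Stmt_KRF) (hKStab : Stmt_KStab) (hH34 : Stmt_H34)
    (hH2 : Stmt_H2) (hH6 : Stmt_H6) (hS3 : Stmt_S3) (hS5 : Stmt_S5) (hS5b : Stmt_S5b)
    (hS6 : Stmt_S6) (hLB2 : Stmt_LB2) (hMS : Stmt_MStep) : Stmt_Step := by
  intro G X _ _ d N nE hG h1 h2
  let S : KSys := StepX.mkS d N nE hG h1 h2
  refine ⟨S.Gb, S.Xb, inferInstance, inferInstance, S.db, S.π, fun x => S.q (S.bs x), ?_, ?_⟩
  · exact StepX.kSys_good hKRF hH34 hH2 hH6 S
  · exact StepX.kSys_rel hKCD hKRF hKStab hH34 hS3 hS5 hS5b hS6 hLB2 hMS S nE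
      (fun i => rfl)

end Pool.Agent.BURR
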