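import Pool.Agent.BURN.Axis
import Pool.Agent.BURN.Chain
import Pool.Agent.BURN.ClaimA
import Pool.Agent.BURN.ClaimE
import Pool.Agent.BURN.Climb
import Pool.Agent.BURR.Comm
import Pool.Agent.BURN.Cover
import Pool.Agent.BURR.Cyc
import Pool.Agent.BURN.Excur
import Pool.Agent.BURN.FS
import Pool.Agent.BURR.Fix38
import Pool.Agent.BURN.FootEx
import Pool.Agent.BURN.FootPr
import Pool.Agent.BURN.GL
import Pool.Agent.BURN.GamAct
import Pool.Agent.BURN.GamDG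
import Pool.Agent.BURN.GamLen
import Pool.Agent.BURN.GamRF
import Pool.Agent.BURN.Guess
import Pool.Agent.BURR.H2
import Pool.Agent.BURR.H34
import Pool.Agent.BURR.H6
import Pool.Agent.BURN.Hull
import Pool.Agent.BURN.HypGam
import Pool.Agent.BURN.Iso
import Pool.Agent.BURR.KCD
import Pool.Agent.BURR.KRF
import Pool.Agent.BURR.KStab
import Pool.Agent.BURR.LB1
import Pool.Agent.BURR.LB2
import Pool.Agent.BURN.LG
import Pool.Agent.BURN.LL
import Pool.Agent.BURN.Ladder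
import Pool.Agent.BURR.LargeRot
import Pool.Agent.BURR.Lift
import Pool.Agent.BURR.Lim1
import Pool.Agent.BURR.Lox38
import Pool.Agent.BURR.MStep
import Pool.Agent.BURR.MaxCyc
import Pool.Agent.BURR.Mid
import Pool.Agent.BURR.NA
import Pool.Agent.BURN.NextWind
import Pool.Agent.BURN.NoDeep
import Pool.Agent.BURR.Overlap
import Pool.Agent.BURN.Proj
import Pool.Agent.BURN.QuotEx
import Pool.Agent.BURN.QuotHyp
import Pool.Agent.BURN.R1
import Pool.Agent.BURN.R2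
import Pool.Agent.BURN.R3
import Pool.Agent.BURN.RLC
import Pool.Agent.BURN.Rescale
import Pool.Agent.BURR.Rot
import Pool.Agent.BURR.S3
import Pool.Agent.BURR.S5
import Pool.Agent.BURR.S6
import Pool.Agent.BURR.SC
import Pool.Agent.BURN.Shadow
import Pool.Agent.BURR.Slen
import Pool.Agent.BURR.Step
import Pool.Agent.BURR.TopLen
import Pool.Agent.BURR.Tower
import Pool.Agent.BURN.Triangle
import Pool.Agent.BURN.VR0

/-! Assembly of the parametrised Burnside engine. -/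

namespace Pool.Agent.BURR.Asm

open Pool.Agent.BURN Pool.Agent.BURR

theorem p_Hull : Stmt_Hull :=
  Hull_proof

theorem p_Rescale : Stmt_Rescale :=
  rescale_proof

theorem p_GamDG : Stmt_GamDG :=
  GamDG_proof

theorem p_RLC : Stmt_RLC :=
  RLC_proof

theorem p_Proj : Stmt_Proj :=
  Proj_proof

theorem p_Shadow : Stmt_Shadow :=
  Shadow_proof p_Proj

theorem p_R1 : Stmt_R1 :=
  R1_proof p_GamDG p_Shadow

theorem p_Climb : Stmt_Climb :=
  Climb_proof p_GamDG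

theorem p_Top : Stmt_Top :=
  Top_proof p_GamDG

theorem p_Excur : Stmt_Excur :=
  Excur_proof p_GamDG p_Climb p_Top

theorem p_R2 : Stmt_R2 :=
  R2_proof p_GamDG p_Excur p_Shadow

theorem p_R3 : Stmt_R3 :=
  R3_proof p_GamDG p_Shadow

theorem p_Guess : Stmt_Guess :=
  guess_proof p_RLC p_GamDG p_R1 p_R2 p_R3

theorem p_ClaimE : Stmt_ClaimE :=
  ClaimE_proof p_GamDG p_Climb p_Top p_Guess p_Shadow

theorem p_HypGam : Stmt_HypGam :=
  HypGam_proof p_GamDG p_Guess p_ClaimE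

theorem p_FootEx : Stmt_FootEx :=
  FootEx_proof p_GamDG

theorem p_FootPr : Stmt_FootPr :=
  FootPr_proof p_GamDG p_Guess p_Shadow

theorem p_VR0 : Stmt_VR0 :=
  vR0_proof p_GamDG p_Top p_Guess p_Shadow p_FootEx p_FootPr

theorem p_GamAct : Stmt_GamAct :=
  gamAct_proof

theorem p_GamRF : Stmt_GamRF :=
  GamRF_proof p_GamDG p_HypGam p_VR0 p_FootEx p_GamAct

theorem p_KKnormal : Stmt_KKnormal :=
  KKnormal_proof

theorem p_QuotEx : Stmt_QuotEx :=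
  QuotEx_proof

theorem p_LGa : Stmt_LGa :=
  LGa_proof

theorem p_Chain : Stmt_Chain :=
  Chain_proof

theorem p_ClaimA : Stmt_ClaimA :=
  ClaimA_proof

theorem p_LGb : Stmt_LGb :=
  LGb_proof

theorem p_Cover : Stmt_Cover :=
  Cover_proof

theorem p_NextWind : Stmt_NextWind :=
  NextWind_proof p_LGb p_Cover p_Hull p_Chain p_ClaimA

theorem p_GL : Stmt_GL :=
  GL_proof p_LGa p_Hull p_Chain p_ClaimA p_NextWind

theorem p_FS : Stmt_FS :=
  FS_proof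

theorem p_IrrMin : Stmt_IrrMin :=
  IrrMin_proof

theorem p_Ladder : Stmt_Ladder :=
  Ladder_proof p_GL p_FS p_IrrMin

theorem p_Triangle : Stmt_Triangle :=
  Triangle_proof

theorem p_QuotHyp : Stmt_QuotHyp :=
  QuotHyp_proof p_RLC p_Ladder p_Triangle p_QuotEx p_IrrMin

theorem p_GLcor : Stmt_GLcor :=
  GLcor_proof p_GL

theorem p_GamLen : Stmt_GamLen :=
  GamLen_proof p_GamDG

theorem p_Iso1 : Stmt_Iso1 :=
  Iso1_proof p_LGa

theorem p_Iso2 : Stmt_Iso2 :=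
  Iso2_proof p_LGa

theorem p_Axis : Stmt_Axis :=
  Axis_proof p_LGb p_Cover p_Hull p_Iso2 p_Proj

theorem p_NoDeep : Stmt_NoDeep :=
  NoDeep_proof p_GamDG p_GamLen p_Guess p_HypGam

theorem p_FS0 : Stmt_FS0 :=
  FS0_proof p_GL

theorem p_LL : Stmt_LL :=
  LL_proof p_GLcor

variable [RP]

theorem p_Mid : Stmt_Mid :=
  Mid_proof

theorem p_MaxCyc : Stmt_MaxCyc :=
  MaxCyc_proof

theorem p_Overlap : Stmt_Overlap :=
  Overlap_proof p_Hull p_Mid p_MaxCyc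

theorem p_KCD : Stmt_KCD :=
  KCD_proof p_Overlap p_Rescale

theorem p_KRF : Stmt_KRF :=
  KRF_proof p_KCD p_Overlap p_GamRF p_KKnormal p_QuotEx p_QuotHyp

theorem p_KStab : Stmt_KStab :=
  KStab_proof p_MaxCyc p_KCD p_KRF p_GLcor p_GamDG

theorem p_Lift : Stmt_Lift :=
  Lift_proof p_KRF p_KStab p_GamDG p_GamLen p_KCD

theorem p_Cyc : Stmt_Cyc :=
  Cyc_proof p_Iso1

theorem p_Comm : Stmt_Comm :=
  Comm_proof p_Iso1

theorem p_Slen : Stmt_Slen :=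
  Slen_proof

theorem p_SC : Stmt_SC :=
  SC_proof p_Mid p_Comm p_Slen p_Cyc p_MaxCyc

theorem p_LB1 : Stmt_LB1 :=
  LB1_proof p_Cyc p_Iso2 p_Axis p_KCD p_Proj p_Overlap p_SC p_MaxCyc

theorem p_LB2 : Stmt_LB2 :=
  LB2_proof p_LB1 p_KCD p_KRF p_KStab p_NoDeep p_FS0 p_IrrMin p_Axis p_Iso2 p_Shadow p_Proj p_Guess p_GamDG

theorem p_H34 : Stmt_H34 :=
  H34_proof p_Lift p_LB2 p_KStab p_Iso1 p_Iso2 p_KRF

theorem p_NA : Stmt_NA :=
  NA_proof p_Axis p_MaxCyc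

theorem p_Rot : Stmt_Rot :=
  Rot_proof p_KRF p_KStab p_KCD p_GamDG p_GamLen p_LL p_NA

theorem p_TopLen : Stmt_TopLen :=
  TopLen_proof p_GamDG

theorem p_H2 : Stmt_H2 :=
  H2_proof p_KRF p_KStab p_Rot p_LL p_TopLen p_GamLen p_SC p_LB2 p_Mid p_Slen p_KCD p_GamDG

theorem p_H6 : Stmt_H6 :=
  H6_proof p_KRF p_KStab p_Lift p_LB1 p_LB2 p_Axis p_Slen p_KCD p_GamDG

theorem p_S3 : Stmt_S3 :=
  S3_proof p_KCD p_GamDG p_KRF p_KStab p_LL p_Iso1 p_Mid p_GLcor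

theorem p_S5 : Stmt_S5 :=
  S5_proof p_Rot p_KStab p_KRF

theorem p_S5b : Stmt_S5b :=
  S5b_proof p_Rot p_KStab p_KRF p_LL p_Iso1 p_GamDG p_KCD

theorem p_LargeRot : Stmt_LargeRot :=
  LargeRot_proof p_KCD p_KRF p_KStab p_GamDG p_VR0

theorem p_S6 : Stmt_S6 :=
  S6_proof p_GamDG p_GamLen p_KCD p_LGa p_GL p_KRF p_KStab p_Rot p_LargeRot

theorem p_Fix : Stmt_Fix :=
  Fix38.Fix38_proof p_GamDG p_GamLen p_KCD p_KRF p_LL p_KStab p_Comm p_Slen

theorem p_LoxProd : Stmt_LoxProd :=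
  Lox38.Lox38_proof p_LGa p_KRF p_Fix

theorem p_MStep : Stmt_MStep :=
  MStep.MStep_proof p_GamDG p_KCD p_KRF p_LL p_KStab p_Mid p_LoxProd p_S3 p_S5b

theorem p_Step : Stmt_Step :=
  Step_proof p_KCD p_KRF p_KStab p_H34 p_H2 p_H6 p_S3 p_S5 p_S5b p_S6 p_LB2 p_MStep

theorem p_Tower : Stmt_Tower :=
  Tower_proof p_Step

theorem p_Lim1 : Stmt_Lim1 :=
  Lim1_proof p_Iso2 p_Cyc

end Pool.Agent.BURR.Asm
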