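import Pool.Agent.BURN.Const

/-! BURR: the Burnside engine of Pool/Agent/BURN with the stability constant Rr replaced by an
arbitrary constant RP.R >= Rr (copy made by a script; namespace Pool.Agent.BURR). -/

namespace Pool.Agent.BURR

open Pool.Agent.BURN

/-- a stability constant -/
class RP where
  R : ℕ
  le : Rr ≤ R

variable [RP]

theorem ex_Rq : ∃ n : ℕ, n = RP.R := ⟨_, rfl⟩
noncomputable def Rq : ℕ := Classical.choose ex_Rq
theorem Rq_eq : Rq = RP.R := Classical.choose_spec ex_Rq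
theorem Rr_le_Rq : Rr ≤ Rq := by rw [Rq_eq]; exact RP.le

theorem ex_nq : ∃ n : ℕ, n = Rq * Lam * 2 ^ (rho + 7) := ⟨_, rfl⟩
noncomputable def nq : ℕ := Classical.choose ex_nq
theorem nq_eq : nq = Rq * Lam * 2 ^ (rho + 7) := Classical.choose_spec ex_nq

theorem Rq_pos : 1 ≤ Rq := Rr_pos.trans Rr_le_Rq
theorem Lam_le_Rq : Lam ≤ Rq := Lam_le_Rr.trans Rr_le_Rq
theorem nq_pos : 1 ≤ nq := by
  rw [nq_eq]
  exact Nat.mul_pos (Nat.mul_pos Rq_pos Lam_pos) (Nat.two_pow_pos _)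

end Pool.Agent.BURR
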