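import Pool.Agent.BURN.Basic
import Pool.Agent.BURR.Stmts3
import Pool.Agent.BURR.S3

/-! 6.1 of the blueprint: an element fixing a point P of X (and not trivial) has small Gromov
product at the image of P in the quotient. -/

namespace Pool.Agent.BURR

open Pool.Agent.BURN

variable [RP]

namespace FixX

/-- the foot of a vertex of small height -/
theorem foot_of_ht (S : KSys) (hDG : Stmt_GamDG) (hKCD : Stmt_KCD) (u : S.Gm)
    (hu : ht rho u.1 ≤ rho) : ∃ y : S.X, S.dg (S.bs y) u = ht rho u.1 := by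
  have hD := hDG S.X S.I S.D S.Y rho (hKCD S).1
  obtain ⟨uu, huu⟩ := u
  cases uu with
  | b v =>
    refine ⟨v, ?_⟩
    have h1 : (⟨CV.b v, huu⟩ : S.Gm) = S.bs v := rfl
    rw [h1, ht_bs]
    exact (hD.1.eq_zero _ _).2 rfl
  | c i y s =>
    refine ⟨y, ?_⟩
    have hy : y ∈ S.Y i := huu.1
    have h1 : IVert S.Y i y 0 (S.bs y).1 := Or.inl ⟨rfl, hy, rfl⟩
    have h2 : IVert S.Y i y s (⟨CV.c i y s, huu⟩ : S.Gm).1 := Or.inr ⟨huu.2.1, rfl⟩
    have h3 := hD.2.2.2.2.2.2.1 i y 0 s (S.bs y) ⟨CV.c i y s, huu⟩ (Nat.zero_le _) h1 h2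
    exact h3
  | a i =>
    exfalso
    have : ht rho (CV.a i : CV S.X S.I) = rho + 1 := rfl
    change ht rho (CV.a i : CV S.X S.I) ≤ rho at hu
    omega

theorem d_le_Lam (S : KSys) (x y : S.X) : S.d x y ≤ Lam * S.D x y := by
  unfold KSys.D Dsc
  have h := Nat.div_add_mod (S.d x y + Lam - 1) Lam
  have h2 := Nat.mod_lt (S.d x y + Lam - 1) (show Lam > 0 from Lam_pos)
  have h3 := Lam_pos
  omega

end FixX

open FixX

theorem Fix_proof (hKCD : Stmt_KCD) (hDG : Stmt_GamDG) (hKRF : Stmt_KRF) (hKS : Stmt_KStab)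
    (hLL : Stmt_LL) (hComm : Stmt_Comm) (hLen : Stmt_GamLen) (hSl : Stmt_Slen) : Stmt_Fix := by
  intro S g P z hg1 hP
  by_contra hcon
  push Not at hcon
  obtain ⟨hRF, hdb, hib, hyb, hle, hatt, hlft⟩ := hKRF S
  obtain ⟨-, hst, -, -, hlox, -, -, -, hbase⟩ := hKS S
  have hD := hDG S.X S.I S.D S.Y rho (hKCD S).1
  have hht : ∀ u w : S.Gm, ht rho w.1 ≤ ht rho u.1 + S.dg u w := hD.2.2.1
  have haa := aa0_ge
  have hrho := rho_eq
  have hN0 := N0_eq
  have hdd := dd_ge
  have hM1 := M1_eq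
  have hLam := Lam_eq
  have hcap : ∀ (u : S.Gm), ∀ c ∈ Set.range S.ap, rho + 1 ≤ ht rho u.1 + S.dg u c := by
    rintro u c ⟨i, rfl⟩
    exact hht u (S.ap i)
  -- g is not lox
  have hgP : ∀ m : ℕ, g ^ m • P = P := by
    intro m
    induction m with
    | zero => rw [pow_zero, one_smul]
    | succ m ih => rw [pow_succ, mul_smul, hP, ih]
  have hnl : ¬ Lox S.d g := by
    intro h
    obtain ⟨m, hm⟩ := h P 0
    rw [hgP, (S.good.dg.eq_zero P P).2 rfl] at hm
    exact absurd hm (lt_irrefl 0)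
  have hbP : g • S.bs P = S.bs P := by rw [smul_bs, hP]
  have hqP : S.π g • S.q (S.bs P) = S.q (S.bs P) := by rw [S.qsmul, hbP]
  obtain ⟨t0, ht0⟩ : ∃ t0 : ℕ, t0 = 4 * 2 ^ (4 * dd) + dd + 2 := ⟨_, rfl⟩
  have hgpz : 2 * t0 < gp S.db z (S.π g • z) (S.q (S.bs P)) := by
    rw [hM1] at hcon
    omega
  have hzfar : 2 * t0 < 2 * S.db z (S.q (S.bs P)) :=
    lt_of_lt_of_le hgpz (gp_le_left hdb _ _ _)
  obtain ⟨γb, hγb⟩ := exists_geod hdb (S.q (S.bs P)) z
  obtain ⟨w, γ, hw1, hw2, hγ, hγq⟩ := hlft _ _ _ hγb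
  have ht0n : t0 ≤ S.dg (S.bs P) w := by
    rw [hw1, hdb.symm]
    omega
  -- the images are moved by at most 2 delta
  have hmid : ∀ i ≤ t0, S.db (S.q (γ i)) (S.q (g • γ i)) ≤ 2 * dd := by
    intro i hi
    rw [← S.qsmul, hγq i (by omega)]
    have hin : i ≤ S.db (S.q (S.bs P)) z := by omega
    have b1 := hγb.btw' hin
    have b2 : Btw S.db (S.q (S.bs P)) (S.π g • γb i) (S.π g • z) := by
      unfold Pool.Agent.BURN.Btw at *
      have h1 := hib (S.π g) (S.q (S.bs P)) (γb i)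
      have h2 := hib (S.π g) (γb i) z
      have h3 := hib (S.π g) (S.q (S.bs P)) z
      rw [hqP] at h1 h3
      rw [h1, h2, h3]
      exact b1
    have e1 : S.db (S.q (S.bs P)) (γb i) = S.db (S.q (S.bs P)) (S.π g • γb i) := by
      have h1 := hib (S.π g) (S.q (S.bs P)) (γb i)
      rw [hqP] at h1
      exact h1.symm
    refine fellow hdb hyb b1 b2 e1 ?_
    rw [hγb.dist_left hin]
    omega
  have hmidK : ∀ i ≤ t0, dK S.dg (KK (Set.range S.ap) S.R) (γ i) (g • γ i) ≤ 2 * dd := by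
    intro i hi
    have := hmid i hi
    rw [S.qdist] at this
    exact this
  have hxfar : ∀ c ∈ Set.range S.ap, rho + 1 ≤ S.dg (S.bs P) c := by
    rintro c ⟨i, rfl⟩
    exact hbase P i
  obtain ⟨huniq, hlift⟩ := hLL S.G S.Gm S.dg (Set.range S.ap) S.R del1 (2 * f3 + 1) (2 * f3)
    (2 * rho + 2) hRF
  have hpiece : ∀ t ≤ t0, (∀ i ≤ t, ht rho (γ i).1 ≤ 1 + dd) →
      ∀ i ≤ t, S.dg (γ i) (g • γ i) ≤ 2 * dd := by
    intro t ht' hsm
    have hd0 : S.dg (γ 0) (γ t) = t := by rw [hγ.2.2 0 t (by omega) (by omega)]; omega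
    have hγt : IsGeod S.dg (γ 0) (γ t) γ := by
      refine ⟨rfl, by rw [hd0], ?_⟩
      intro i j hij hj
      rw [hd0] at hj
      exact hγ.2.2 i j hij (by omega)
    obtain ⟨g2, hg2K, hg2⟩ := hlift (γ 0) (γ t) (rho - 3 - dd) (2 * dd) γ g (by omega) hγt
      (by omega)
      (by
        intro i hi c hc
        rw [hd0] at hi
        have := hcap (γ i) c hc
        have := hsm i hi
        omega)
      (by
        intro i hi
        rw [hd0] at hi
        exact hmidK i (by omega))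
    rw [hd0] at hg2
    have heq : g = g2 := by
      refine huniq (S.bs P) (rho + 1) g g2 (by omega) hxfar hg2K ?_
      have := hg2 0 (by omega)
      rw [hγ.1] at this
      rw [hbP, (hRF.dg.eq_zero _ _).2 rfl]
      omega
    rw [heq]; exact hg2
  -- all heights are small
  have hall : ∀ i ≤ t0, ht rho (γ i).1 ≤ dd := by
    by_contra hnot
    push Not at hnot
    classical
    have hex : ∃ t, t ≤ t0 ∧ dd < ht rho (γ t).1 := hnot
    let t := Nat.find hex
    obtain ⟨ht1, ht2⟩ : t ≤ t0 ∧ dd < ht rho (γ t).1 := Nat.find_spec hex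
    have hmin : ∀ i < t, ht rho (γ i).1 ≤ dd := by
      intro i hi
      have := Nat.find_min hex hi
      push Not at this
      exact this (by omega)
    have htne : t ≠ 0 := by
      intro h0
      rw [h0, hγ.1, ht_bs] at ht2
      omega
    have hbd : ∀ i ≤ t, ht rho (γ i).1 ≤ 1 + dd := by
      intro i hi
      by_cases hit : i = t
      · have h1 := hmin (t - 1) (by omega)
        have h2 := hht (γ (t - 1)) (γ t)
        have h3 := hγ.2.2 (t - 1) t (by omega) (by omega)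
        rw [hit]
        omega
      · have := hmin i (by omega)
        omega
    have h5 := hpiece t ht1 hbd t le_rfl
    obtain ⟨i, -, hi⟩ := hst (γ t) g (by omega)
    exact hnl (hlox i g hi hg1)
  have hlast := hpiece t0 le_rfl (fun i hi => by have := hall i hi; omega) t0 le_rfl
  obtain ⟨y0, hy0⟩ := foot_of_ht S hDG hKCD (γ t0) (by have := hall t0 le_rfl; omega)
  have hht0 := hall t0 le_rfl
  -- displacement of the foot
  have hdy : S.dg (S.bs y0) (S.bs (g • y0)) ≤ 4 * dd := by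
    rw [← smul_bs]
    have h1 := hRF.dg.tri (S.bs y0) (γ t0) (g • S.bs y0)
    have h2 := hRF.dg.tri (γ t0) (g • γ t0) (g • S.bs y0)
    rw [hRF.iso, hRF.dg.symm (γ t0) (S.bs y0)] at h2
    omega
  have hDy : S.D y0 (g • y0) ≤ 2 ^ (4 * dd) := by
    have h := (hLen S.X S.I S.D S.Y rho (hKCD S).1).2 y0 (g • y0)
    have h1 : S.dg (S.bs y0) (S.bs (g • y0)) ≤ 2 * rho + 1 := by omega
    exact (h h1).trans (Nat.pow_le_pow_right (by norm_num) hdy)
  have hdisp : S.d y0 (g • y0) ≤ Lam * 2 ^ (4 * dd) :=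
    (d_le_Lam S _ _).trans (Nat.mul_le_mul_left _ hDy)
  -- the foot is near P
  have hnear : S.d P y0 < A0 + 4 * (Lam * 2 ^ (4 * dd)) + 2 * dd + 2 := by
    by_contra hfar
    push Not at hfar
    obtain ⟨σ, hσ⟩ := exists_geod S.good.dg P y0
    generalize hl : Lam * 2 ^ (4 * dd) = l at *
    have hP0 : S.d P (g • P) ≤ l := by
      rw [hP, (S.good.dg.eq_zero P P).2 rfl]
      exact Nat.zero_le _
    have hc := hComm S.G S.X S.d dd l P y0 σ g g S.good.dg S.good.hyp S.good.iso hσ hP0 hdisp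
      hP0 hdisp
    have c1 := (hc (2 * l + dd + 1) (le_refl _) (by omega)).2.2 hnl
    have c2 := (hc (S.d P y0 - (2 * l + dd + 1)) (by omega) (by omega)).2.2 hnl
    have hdist : A0 ≤ S.d (σ (2 * l + dd + 1)) (σ (S.d P y0 - (2 * l + dd + 1))) := by
      rw [hσ.2.2 _ _ (by omega) (by omega)]
      omega
    obtain ⟨c, hc1, hcg⟩ := S.good.acyl _ _ hdist
    have hmem := hcg g (by omega) (by omega)
    obtain ⟨k, hk⟩ := Subgroup.mem_zpowers_iff.1 hmem
    rcases hc1 with rfl | hcl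
    · rw [one_zpow] at hk
      exact hg1 hk.symm
    · have hk0 : k ≠ 0 := by
        rintro rfl
        rw [zpow_zero] at hk
        exact hg1 hk.symm
      have := (hSl S.G S.X S.d S.good.dg S.good.iso).2.2.2.2.2.1 c k hk0
      rw [hk] at this
      exact hnl (this.2 hcl)
  have hDP : S.D P y0 ≤ 1 + 4 * 2 ^ (4 * dd) := by
    unfold KSys.D Dsc
    have : (S.d P y0 + Lam - 1) / Lam < 2 + 4 * 2 ^ (4 * dd) := by
      rw [Nat.div_lt_iff_lt_mul Lam_pos]
      have e : (2 + 4 * 2 ^ (4 * dd)) * Lam = Lam + Lam + 4 * (Lam * 2 ^ (4 * dd)) := by ring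
      rw [e]
      omega
    omega
  have hdP : S.dg (S.bs P) (S.bs y0) ≤ 1 + 4 * 2 ^ (4 * dd) := by
    have h2 := hD.2.2.2.2.1 P y0
    exact le_trans h2 hDP
  have h3 := hRF.dg.tri (S.bs P) (S.bs y0) (γ t0)
  have h4 := hγ.dist_left ht0n
  omega

end Pool.Agent.BURR
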