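import Pool.Agent.BURR.Stmts38
import Pool.Agent.BURN.Basic

/-! Tools on a killing system: lifting along geodesics of small height. -/

namespace Pool.Agent.BURR.Kit38

open Pool.Agent.BURN

variable [RP]

variable (S : KSys)

theorem isDG (hG : Stmt_GamDG) (hC : Stmt_KCD) : IsDG S.dg :=
  (hG S.X S.I S.D S.Y rho (hC S).1).1

theorem isIso (hR : Stmt_KRF) : IsIso S.G S.dg := (hR S).1.iso

theorem ht_lip (hG : Stmt_GamDG) (hC : Stmt_KCD) (u w : S.Gm) :
    ht rho w.1 ≤ ht rho u.1 + S.dg u w :=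
  (hG S.X S.I S.D S.Y rho (hC S).1).2.2.1 u w

/-- a vertex of small height is far from all apices -/
theorem far_apex (hG : Stmt_GamDG) (hC : Stmt_KCD) (u : S.Gm) :
    ∀ c ∈ Set.range S.ap, rho + 1 ≤ S.dg u c + ht rho u.1 := by
  rintro c ⟨i, rfl⟩
  have h := ht_lip S hG hC u (S.ap i)
  have h2 : ht rho (S.ap i).1 = rho + 1 := rfl
  omega

theorem dK_eq (u w : S.Gm) : S.db (S.q u) (S.q w) = dK S.dg (KK (Set.range S.ap) S.R) u w :=
  S.qdist u w

theorem q_smul (g : S.G) (u : S.Gm) : S.π g • S.q u = S.q (g • u) := S.qsmul g u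

theorem smul_bs (g : S.G) (x : S.X) : g • S.bs x = S.bs (g • x) := by
  apply Subtype.ext
  rw [S.act]
  rfl

theorem π_eq (g g' : S.G) (h : S.π g = S.π g') : g * g'⁻¹ ∈ KK (Set.range S.ap) S.R := by
  have := (S.pker (g * g'⁻¹)).1 (by rw [map_mul, map_inv, h, mul_inv_cancel])
  exact this

theorem eq_π (g g' : S.G) (h : g * g'⁻¹ ∈ KK (Set.range S.ap) S.R) : S.π g = S.π g' := by
  have := (S.pker (g * g'⁻¹)).2 h
  rw [map_mul, map_inv] at this
  exact mul_inv_eq_one.1 this

theorem sub_geod {X : Type} {d : X → X → ℕ} {x y : X} {g : ℕ → X} (h : IsGeod d x y g) {t : ℕ}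
    (ht : t ≤ d x y) : IsGeod d x (g t) g := by
  have e : d x (g t) = t := by
    have := h.2.2 0 t (Nat.zero_le _) ht
    rw [h.1] at this
    simpa using this
  refine ⟨h.1, by rw [e], fun i j hij hj => h.2.2 i j hij (by omega)⟩

/-- lifting along a geodesic of small height, unique at the starting point -/
theorem low (hG : Stmt_GamDG) (hC : Stmt_KCD) (hR : Stmt_KRF) (hL : Stmt_LL)
    {x y : S.Gm} {γ : ℕ → S.Gm} (hγ : IsGeod S.dg x y γ) (l H : ℕ)
    (h1 : aa0 del1 (2 * f3 + 1) (2 * f3) + H < rho + 1)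
    (h2 : 2 * l + 2 + bet1 del1 (2 * f3) + 2 * H < 2 * (rho + 1))
    (hH : ∀ i ≤ S.dg x y, ht rho (γ i).1 ≤ H) (g0 : S.G) (hx : S.dg x (g0 • x) ≤ l)
    (hd : ∀ i ≤ S.dg x y, S.db (S.q (γ i)) (S.π g0 • S.q (γ i)) ≤ l) :
    ∀ i ≤ S.dg x y, S.dg (γ i) (g0 • γ i) ≤ l := by
  obtain ⟨L1, L2⟩ := hL S.G S.Gm S.dg (Set.range S.ap) S.R _ _ _ _ (hR S).1
  obtain ⟨g, hgK, hg⟩ := L2 x y (rho + 1 - H) l γ g0 (by omega) hγ (by omega)
    (by
      intro i hi c hc
      have := far_apex S hG hC (γ i) c hc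
      have := hH i hi
      omega)
    (by
      intro i hi
      rw [← dK_eq, ← q_smul]
      exact hd i hi)
  have e0 : γ 0 = x := hγ.1
  have hgx : S.dg x (g • x) ≤ l := by
    have := hg 0 (Nat.zero_le _)
    rwa [e0] at this
  have hx0 : ht rho x.1 ≤ H := by
    have := hH 0 (Nat.zero_le _)
    rwa [e0] at this
  have : g0 = g := by
    apply L1 x (rho + 1 - H) g0 g (by omega) _ hgK (by omega)
    intro c hc
    have := far_apex S hG hC x c hc
    omega
  rw [this]
  exact hg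

/-- dichotomy: the geodesic stays low and everything lifts, or the element is killed -/
theorem dich (hG : Stmt_GamDG) (hC : Stmt_KCD) (hR : Stmt_KRF) (hL : Stmt_LL) (hS : Stmt_KStab)
    {x y : S.Gm} {γ : ℕ → S.Gm} (hγ : IsGeod S.dg x y γ) (l H : ℕ)
    (h1 : aa0 del1 (2 * f3 + 1) (2 * f3) + H < rho)
    (h2 : 2 * l + 2 + bet1 del1 (2 * f3) + 2 * H < 2 * rho)
    (hlH : l ≤ 2 * H + 1) (hx0 : ht rho x.1 ≤ H)
    (g0 : S.G) (hx : S.dg x (g0 • x) ≤ l)
    (hd : ∀ i ≤ S.dg x y, S.db (S.q (γ i)) (S.π g0 • S.q (γ i)) ≤ l) :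
    (∃ i, g0 ∈ S.E i) ∨ ∀ i ≤ S.dg x y, ht rho (γ i).1 ≤ H ∧ S.dg (γ i) (g0 • γ i) ≤ l := by
  by_contra hcon
  push Not at hcon
  obtain ⟨hE, hcon⟩ := hcon
  have hdg := isDG S hG hC
  -- prove by induction that all heights up to t are at most H
  have key : ∀ t ≤ S.dg x y, ht rho (γ t).1 ≤ H := by
    intro t
    induction t using Nat.strong_induction_on with
    | _ t ih =>
      intro ht'
      rcases Nat.eq_zero_or_pos t with h0 | h0
      · rw [h0, hγ.1]; exact hx0
      · have hprev := ih (t - 1) (by omega) (by omega)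
        have hstep : S.dg (γ (t - 1)) (γ t) = 1 := by
          rw [hγ.2.2 (t - 1) t (by omega) ht']; omega
        have hlip := ht_lip S hG hC (γ (t - 1)) (γ t)
        have hle : ht rho (γ t).1 ≤ H + 1 := by omega
        have hsub := sub_geod hγ ht'
        have et : S.dg x (γ t) = t := hγ.dist_left ht'
        have hl := low S hG hC hR hL hsub l (H + 1) (by omega) (by omega)
          (by
            intro i hi
            rw [et] at hi
            rcases Nat.lt_or_ge i t with h | h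
            · have := ih i h (by omega); omega
            · have : i = t := by omega
              rw [this]; exact hle)
          g0 hx (by intro i hi; rw [et] at hi; exact hd i (by omega))
        have hlt := hl t (by omega)
        by_contra hH
        have : S.dg (γ t) (g0 • γ t) < 2 * ht rho (γ t).1 := by omega
        obtain ⟨i, -, hi⟩ := (hS S).2.1 (γ t) g0 this
        exact hE i hi
  obtain ⟨i, hi, hci⟩ := hcon
  have hl := low S hG hC hR hL hγ l H (by omega) (by omega) key g0 hx hd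
  exact absurd (hl i hi) (by have := hci (key i hi); omega)

/-- foot of a low vertex -/
theorem foot (hG : Stmt_GamDG) (hC : Stmt_KCD) (u : S.Gm) (hu : ht rho u.1 ≤ rho) :
    ∃ x0 : S.X, S.dg u (S.bs x0) = ht rho u.1 := by
  obtain ⟨h1, h2, h3, h4, h5, h6, h7, h8⟩ := hG S.X S.I S.D S.Y rho (hC S).1
  rcases hu' : u.1 with v | ⟨i, y, s⟩ | i
  · refine ⟨v, ?_⟩
    have : u = S.bs v := Subtype.ext hu'
    rw [this]
    exact ((isDG S hG hC).eq_zero _ _).2 rfl
  · have hok := u.2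
    rw [hu'] at hok
    obtain ⟨hy, hs1, hs2⟩ := hok
    refine ⟨y, ?_⟩
    have e := h7 i y 0 s (S.bs y) u (Nat.zero_le _) (Or.inl ⟨rfl, hy, rfl⟩) (Or.inr ⟨hs1, hu'⟩)
    rw [Nat.sub_zero] at e
    have e2 : S.dg (S.bs y) u = s := e
    rw [(isDG S hG hC).symm, e2]
    rfl
  · rw [hu'] at hu
    have : ht rho (CV.a i : CV S.X S.I) = rho + 1 := rfl
    omega

theorem le_Dsc (x y : S.X) : S.d x y ≤ Lam * S.D x y := by
  have h := Lam_pos
  show S.d x y ≤ Lam * ((S.d x y + Lam - 1) / Lam)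
  have := Nat.div_add_mod (S.d x y + Lam - 1) Lam
  have h3 := Nat.mod_lt (S.d x y + Lam - 1) (show Lam > 0 by omega)
  omega

theorem Dsc_le (x y : S.X) (n : ℕ) (h : S.d x y ≤ Lam * n) : S.D x y ≤ n := by
  have h1 := Lam_pos
  show (S.d x y + Lam - 1) / Lam ≤ n
  rw [Nat.div_le_iff_le_mul_add_pred (by omega)]
  omega

end Pool.Agent.BURR.Kit38
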