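import Pool.Agent.BURR.Stmts3

/-! The additional step property (M) for the application to MP_38b588 (text: MP_38b588_APP.md). -/

namespace Pool.Agent.BURR

open Pool.Agent.BURN

variable [RP]

/-- (M): the product of non-trivial elements of two different conjugates of A is never conjugate
to a non-trivial element of A -/
def MProp {G : Type} [Group G] (A : Subgroup G) : Prop :=
  ∀ c1 ∈ A, ∀ c2 ∈ A, ∀ c3 ∈ A, c1 ≠ 1 → c2 ≠ 1 → c3 ≠ 1 → ∀ y h : G,
    c1 * (y⁻¹ * c2 * y) = h * c3 * h⁻¹ → y ∈ A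

/-- 6.2 (module Lox38): product of two elliptic elements with distant fixed points -/
def Stmt_LoxProd : Prop := ∀ (S : KSys) (g g' : S.G) (P P' : S.X), g ≠ 1 → g' ≠ 1 →
  g • P = P → g' • P' = P' → 8 * M1 + dd < S.db (S.q (S.bs P)) (S.q (S.bs P')) →
  Lox S.db (S.π g * S.π g')

end Pool.Agent.BURR
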